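import Pool.Agent.RSC.Asm

/-!
# RSC module ASMT: chosen ranges `7 τ(0) < 7 τ(1) < ...` together

As `RGC.gather`, `RGC.asm_aux`, `RGC.asm`: ranges `[τ i * 7, τ i * 7 + 7)`, `i < m`, brought to the places `i ≤ τ i * 7`.
-/

namespace Pool.Agent.RSC

open Pool.Agent.PWI hiding SuppI Wi bring
open Pool.Agent.RGC

variable {g n : ℕ}

private theorem le_tau (m : ℕ) (τ : ℕ → ℕ) (hτ : ∀ i j, i < j → j < m → τ i < τ j) :
    ∀ i < m, i ≤ τ i := by
  intro i
  induction i with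
  | zero => intro _; exact Nat.zero_le _
  | succ i ih =>
    intro hi
    have h1 := ih (by omega)
    have h2 := hτ i (i + 1) (by omega) hi
    omega

private theorem gatherT (τ : ℕ → ℕ) (m : ℕ) (hτ : ∀ i j, i < j → j < m → τ i < τ j)
    (hg : ∀ i < m, τ i * 7 + 7 ≤ g) : ∃ B : PMod g n,
    (∀ t < m, B.1 (sa t) = sa (τ t * 7) ∧ B.1 (sb t) = sb (τ t * 7)) ∧
      ∀ i, (∀ t < m, τ t * 7 < i) → B.1 (sa i) = sa i ∧ B.1 (sb i) = sb i := by
  induction m with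
  | zero => exact ⟨1, fun t ht => absurd ht (Nat.not_lt_zero _), fun i _ => ⟨rfl, rfl⟩⟩
  | succ m ih =>
    obtain ⟨B, hB1, hB2⟩ := ih (fun i j h1 h2 => hτ i j h1 (by omega)) (fun i hi => hg i (by omega))
    have hk := le_tau (m + 1) τ hτ m (by omega)
    have hgm := hg m (by omega)
    obtain ⟨R, hR1, hR2, hRs⟩ := bring (g := g) (n := n) m (τ m * 7) (by omega) (by omega)
    refine ⟨B * R, ?_, ?_⟩
    · intro t ht
      rw [act_mul2, act_mul2]
      rcases Nat.lt_succ_iff_lt_or_eq.1 ht with h | h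
      · rw [(hRs.1 t (Or.inl h)).1, (hRs.1 t (Or.inl h)).2]
        exact hB1 t h
      · subst h
        rw [hR1, hR2]
        refine hB2 _ fun s hs => ?_
        have := hτ s t hs (by omega)
        omega
    · intro i hi
      have h1 := hi m (by omega)
      rw [act_mul2, act_mul2, (hRs.1 i (Or.inr (by omega))).1, (hRs.1 i (Or.inr (by omega))).2]
      exact hB2 i fun t ht => hi t (by omega)

private theorem asmT_aux (K : Subgroup (SG g n)) (τ : ℕ → ℕ) (m : ℕ)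
    (hτ : ∀ i j, i < j → j < m → τ i < τ j)
    (h : ∀ t < m, ∃ T : PMod g n, SuppI T (τ t * 7) (τ t * 7 + 7) ∧
      T.1 (sa (τ t * 7)) ∈ K ∧ T.1 (sb (τ t * 7)) ∈ K) :
    ∃ T : PMod g n, (∀ q, (∀ t < m, τ t * 7 + 7 ≤ q) → SuppI T 0 q) ∧
      ∀ t < m, T.1 (sa (τ t * 7)) ∈ K ∧ T.1 (sb (τ t * 7)) ∈ K := by
  induction m with
  | zero =>
    refine ⟨1, fun q _ => ⟨fun k _ => ⟨rfl, rfl⟩, fun j => rfl, fun k h1 h2 => ⟨?_, ?_⟩⟩,
      fun t ht => absurd ht (Nat.not_lt_zero _)⟩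
    · exact sa_mem_wi h1 h2
    · exact sb_mem_wi h1 h2
  | succ m ih =>
    obtain ⟨S, hS1, hS2⟩ := ih (fun i j h1 h2 => hτ i j h1 (by omega)) fun t ht => h t (by omega)
    obtain ⟨T, hT1, hT2, hT3⟩ := h m (by omega)
    have hS : SuppI S 0 (τ m * 7) := hS1 _ fun t ht => by
      have := hτ t m ht (by omega)
      omega
    refine ⟨S * T, ?_, ?_⟩
    · intro q hq
      have hq' := hq m (by omega)
      exact (hS.mono le_rfl (by omega)).mul (hT1.mono (Nat.zero_le _) hq')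
    · intro t ht
      rw [act_mul2, act_mul2]
      rcases Nat.lt_succ_iff_lt_or_eq.1 ht with h | h
      · have h3 := hτ t m h (by omega)
        rw [(hT1.1 (τ t * 7) (Or.inl (by omega))).1, (hT1.1 (τ t * 7) (Or.inl (by omega))).2]
        exact hS2 t h
      · subst h
        rw [hS.fix (Or.inr le_rfl) (hT1.mem (sa_mem_wi le_rfl (by omega))),
          hS.fix (Or.inr le_rfl) (hT1.mem (sb_mem_wi le_rfl (by omega)))]
        exact ⟨hT2, hT3⟩

theorem asmT (P : Subgroup (SG g n)) (m : ℕ) (τ : ℕ → ℕ) (hτ : ∀ i j, i < j → j < m → τ i < τ j)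
    (hg : ∀ i < m, τ i * 7 + 7 ≤ g)
    (h : ∀ i < m, ∃ T : PMod g n, SuppI T (τ i * 7) (τ i * 7 + 7) ∧ T.1 (sa (τ i * 7)) ∈ P ∧
      T.1 (sb (τ i * 7)) ∈ P) :
    ∃ T : PMod g n, ∀ t < m, T.1 (sa t) ∈ P ∧ T.1 (sb t) ∈ P := by
  obtain ⟨T, _, hT⟩ := asmT_aux P τ m hτ h
  obtain ⟨B, hB, _⟩ := gatherT (g := g) (n := n) τ m hτ hg
  refine ⟨T * B, fun t ht => ?_⟩
  rw [act_mul2, act_mul2, (hB t ht).1, (hB t ht).2]
  exact hT t ht

end Pool.Agent.RSC
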