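import Mathlib

/-! # RSC/CenC: centralisers in `SL(2, p)` -/

set_option autoImplicit false

namespace Pool.Agent.RSC

theorem cent_count (p : ℕ) [Fact p.Prime] (x : Matrix.SpecialLinearGroup (Fin 2) (ZMod p))
    (hx : ∃ y : Matrix.SpecialLinearGroup (Fin 2) (ZMod p), x * y ≠ y * x) :
    Nat.card {y : Matrix.SpecialLinearGroup (Fin 2) (ZMod p) // y * x = x * y} ≤ 2 * p := by
  classical
  have hfin : Finite (Matrix.SpecialLinearGroup (Fin 2) (ZMod p)) := inferInstance
  have := Fintype.ofFinite (Matrix.SpecialLinearGroup (Fin 2) (ZMod p))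
  obtain ⟨a, ha⟩ : ∃ a, a = x.1 0 0 := ⟨_, rfl⟩
  obtain ⟨b, hb⟩ : ∃ b, b = x.1 0 1 := ⟨_, rfl⟩
  obtain ⟨c, hc⟩ : ∃ c, c = x.1 1 0 := ⟨_, rfl⟩
  obtain ⟨d, hd⟩ : ∃ d, d = x.1 1 1 := ⟨_, rfl⟩
  have hdet : ∀ y : Matrix.SpecialLinearGroup (Fin 2) (ZMod p),
      y.1 0 0 * y.1 1 1 - y.1 0 1 * y.1 1 0 = 1 := by
    intro y
    rw [← Matrix.det_fin_two]
    exact y.2
  have hcom : ∀ y : Matrix.SpecialLinearGroup (Fin 2) (ZMod p), y * x = x * y →
      y.1 0 1 * c = b * y.1 1 0 ∧ y.1 0 0 * b + y.1 0 1 * d = a * y.1 0 1 + b * y.1 1 1 ∧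
        y.1 1 0 * a + y.1 1 1 * c = c * y.1 0 0 + d * y.1 1 0 := by
    intro y hy
    have h1 : y.1 * x.1 = x.1 * y.1 := congrArg Subtype.val hy
    have h00 := congrFun (congrFun h1 0) 0
    have h01 := congrFun (congrFun h1 0) 1
    have h10 := congrFun (congrFun h1 1) 0
    simp only [Matrix.mul_apply, Fin.sum_univ_two, ← ha, ← hb, ← hc, ← hd] at h00 h01 h10
    exact ⟨by linear_combination h00, by linear_combination h01, by linear_combination h10⟩
  have hext : ∀ y z : Matrix.SpecialLinearGroup (Fin 2) (ZMod p), y.1 0 0 = z.1 0 0 →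
      y.1 0 1 = z.1 0 1 → y.1 1 0 = z.1 1 0 → y.1 1 1 = z.1 1 1 → y = z := by
    intro y z h1 h2 h3 h4
    apply Subtype.ext
    ext i j
    fin_cases i <;> fin_cases j <;> assumption
  -- three elements with the same key
  have main : ∃ key : Matrix.SpecialLinearGroup (Fin 2) (ZMod p) → ZMod p,
      ∀ y z w : Matrix.SpecialLinearGroup (Fin 2) (ZMod p), y * x = x * y → z * x = x * z →
        w * x = x * w → key y = key z → key y = key w → y = z ∨ y = w ∨ z = w := by
    by_cases hb0 : b = 0
    · by_cases hc0 : c = 0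
      · -- diagonal
        have had : a - d ≠ 0 := by
          intro h
          obtain ⟨y, hy⟩ := hx
          apply hy
          apply Subtype.ext
          show x.1 * y.1 = y.1 * x.1
          ext i j
          have e : a = d := sub_eq_zero.1 h
          fin_cases i <;> fin_cases j <;>
            simp [Matrix.mul_apply, Fin.sum_univ_two, ← ha, ← hb, ← hc, ← hd, hb0, hc0, e, mul_comm]
        have hdiag : ∀ y : Matrix.SpecialLinearGroup (Fin 2) (ZMod p), y * x = x * y →
            y.1 0 1 = 0 ∧ y.1 1 0 = 0 ∧ y.1 0 0 * y.1 1 1 = 1 := by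
          intro y hy
          obtain ⟨-, h2, h3⟩ := hcom y hy
          have e1 : y.1 0 1 = 0 := by
            have : (a - d) * y.1 0 1 = 0 := by rw [hb0] at h2; linear_combination -h2
            exact (mul_eq_zero.1 this).resolve_left had
          have e2 : y.1 1 0 = 0 := by
            have : (a - d) * y.1 1 0 = 0 := by rw [hc0] at h3; linear_combination h3
            exact (mul_eq_zero.1 this).resolve_left had
          refine ⟨e1, e2, ?_⟩
          have := hdet y
          rw [e1, zero_mul, sub_zero] at this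
          exact this
        refine ⟨fun y => y.1 1 1, fun y z w hy hz hw hyz hyw => Or.inl ?_⟩
        obtain ⟨y1, y2, y3⟩ := hdiag y hy
        obtain ⟨z1, z2, z3⟩ := hdiag z hz
        have hyz' : y.1 1 1 = z.1 1 1 := hyz
        refine hext y z ?_ (y1.trans z1.symm) (y2.trans z2.symm) hyz'
        have hne : z.1 1 1 ≠ 0 := by
          intro h
          rw [h, mul_zero] at z3
          exact zero_ne_one z3
        apply mul_right_cancel₀ hne
        rw [z3, ← hyz', y3]
      · -- c ≠ 0
        refine ⟨fun y => y.1 1 0, fun y z w hy hz hw hyz hyw => ?_⟩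
        have hyz' : y.1 1 0 = z.1 1 0 := hyz
        have hyw' : y.1 1 0 = w.1 1 0 := hyw
        have gen : ∀ y z : Matrix.SpecialLinearGroup (Fin 2) (ZMod p), y * x = x * y →
            z * x = x * z → y.1 1 0 = z.1 1 0 →
            y = z ∨ (y.1 1 1 ≠ z.1 1 1 ∧ c * (y.1 1 1 + z.1 1 1) + (a - d) * y.1 1 0 = 0) := by
          intro y z hy hz hk
          obtain ⟨h1, -, h3⟩ := hcom y hy
          obtain ⟨k1, -, k3⟩ := hcom z hz
          rw [← hk] at k1 k3
          have e1 : y.1 0 1 = z.1 0 1 := by
            apply mul_right_cancel₀ hc0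
            rw [h1, k1]
          have e2 : c * (y.1 0 0 - z.1 0 0) = c * (y.1 1 1 - z.1 1 1) := by
            linear_combination k3 - h3
          have e3 : y.1 0 0 - z.1 0 0 = y.1 1 1 - z.1 1 1 := mul_left_cancel₀ hc0 e2
          by_cases hh : y.1 1 1 = z.1 1 1
          · left
            refine hext y z ?_ e1 hk hh
            rw [hh, sub_self] at e3
            exact sub_eq_zero.1 e3
          · right
            refine ⟨hh, ?_⟩
            have d1 := hdet y
            have d2 := hdet z
            rw [← e1, ← hk] at d2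
            have e4 : (y.1 1 1 - z.1 1 1) * (c * (y.1 1 1 + z.1 1 1) + (a - d) * y.1 1 0) = 0 := by
              linear_combination (y.1 1 1) * h3 - (z.1 1 1) * k3 + c * d1 - c * d2
            exact (mul_eq_zero.1 e4).resolve_left (sub_ne_zero.2 hh)
        rcases gen y z hy hz hyz' with h | ⟨-, h⟩
        · exact Or.inl h
        rcases gen y w hy hw hyw' with h' | ⟨-, h'⟩
        · exact Or.inr (Or.inl h')
        rcases gen z w hz hw (hyz'.symm.trans hyw') with h'' | ⟨h'', -⟩
        · exact Or.inr (Or.inr h'')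
        exfalso
        apply h''
        apply mul_left_cancel₀ hc0
        linear_combination h - h'
    · -- b ≠ 0
      refine ⟨fun y => y.1 0 1, fun y z w hy hz hw hyz hyw => ?_⟩
      have hyz' : y.1 0 1 = z.1 0 1 := hyz
      have hyw' : y.1 0 1 = w.1 0 1 := hyw
      have gen : ∀ y z : Matrix.SpecialLinearGroup (Fin 2) (ZMod p), y * x = x * y →
          z * x = x * z → y.1 0 1 = z.1 0 1 →
          y = z ∨ (y.1 1 1 ≠ z.1 1 1 ∧ b * (y.1 1 1 + z.1 1 1) + (a - d) * y.1 0 1 = 0) := by
        intro y z hy hz hk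
        obtain ⟨h1, h3, -⟩ := hcom y hy
        obtain ⟨k1, k3, -⟩ := hcom z hz
        rw [← hk] at k1 k3
        have e1 : y.1 1 0 = z.1 1 0 := by
          apply mul_left_cancel₀ hb0
          rw [← h1, ← k1]
        have e2 : b * (y.1 0 0 - z.1 0 0) = b * (y.1 1 1 - z.1 1 1) := by
          linear_combination h3 - k3
        have e3 : y.1 0 0 - z.1 0 0 = y.1 1 1 - z.1 1 1 := mul_left_cancel₀ hb0 e2
        by_cases hh : y.1 1 1 = z.1 1 1
        · left
          refine hext y z ?_ hk e1 hh
          rw [hh, sub_self] at e3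
          exact sub_eq_zero.1 e3
        · right
          refine ⟨hh, ?_⟩
          have d1 := hdet y
          have d2 := hdet z
          rw [← e1, ← hk] at d2
          have e4 : (y.1 1 1 - z.1 1 1) * (b * (y.1 1 1 + z.1 1 1) + (a - d) * y.1 0 1) = 0 := by
            linear_combination (z.1 1 1) * k3 - (y.1 1 1) * h3 + b * d1 - b * d2
          exact (mul_eq_zero.1 e4).resolve_left (sub_ne_zero.2 hh)
      rcases gen y z hy hz hyz' with h | ⟨-, h⟩
      · exact Or.inl h
      rcases gen y w hy hw hyw' with h' | ⟨-, h'⟩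
      · exact Or.inr (Or.inl h')
      rcases gen z w hz hw (hyz'.symm.trans hyw') with h'' | ⟨h'', -⟩
      · exact Or.inr (Or.inr h'')
      exfalso
      apply h''
      apply mul_left_cancel₀ hb0
      linear_combination h - h'
  obtain ⟨key, hkey⟩ := main
  rw [Nat.card_eq_fintype_card, Fintype.card_subtype]
  have h1 := Finset.card_le_mul_card_image (f := key)
    (Finset.univ.filter fun y : Matrix.SpecialLinearGroup (Fin 2) (ZMod p) => y * x = x * y) 2 (by
      intro t _
      by_contra hlt
      rw [not_le, Finset.two_lt_card] at hlt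
      obtain ⟨y, hy, z, hz, w, hw, hyz, hyw, hzw⟩ := hlt
      simp only [Finset.mem_filter, Finset.mem_univ, true_and] at hy hz hw
      rcases hkey y z w hy.1 hz.1 hw.1 (hy.2.trans hz.2.symm) (hy.2.trans hw.2.symm) with h | h | h
      · exact hyz h
      · exact hyw h
      · exact hzw h)
  refine h1.trans (Nat.mul_le_mul_left 2 ?_)
  refine (Finset.card_le_univ _).trans ?_
  rw [ZMod.card]

end Pool.Agent.RSC
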