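import Pool.Agent.RSC.Defs

/-!
# RSC module CNT: elementary counts

`trans_count`: by double transitivity `G` is transitive (`2 ≤ |X|`; take a third... for `v ≠ v'` use the pair
`(v, w) ↦ (v', w')`), so `#{x | x • v = w}` does not depend on `w` and the sum over `w` is `|G|`.
`pair_count`: `#{y | y^k • v = w}` (`v ≠ w`) is the same for all pairs `v ≠ w` (conjugate: `(g y g⁻¹)^k • g v = g w`);
the sum over `w ≠ v` is at most `|G|`.
`inv_count`: the same for `(y^k)⁻¹` (apply to `w, v`).
-/

namespace Pool.Agent.RSC

open Finset

variable {G X : Type} [Group G] [Fintype G] [DecidableEq G] [MulAction G X] [Fintype X] [DecidableEq X]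

theorem trans_count (h : Nice G X) (h2 : 2 ≤ Fintype.card X) (v : X) (Z : Finset X) :
    (univ.filter fun x : G => x • v ∈ Z).card * Fintype.card X = Z.card * Fintype.card G := by
  have htr : ∀ w w' : X, ∃ g : G, g • w = w' := by
    intro w w'
    obtain ⟨a, ha⟩ := Fintype.exists_ne_of_one_lt_card (by omega : 1 < Fintype.card X) w
    obtain ⟨b, hb⟩ := Fintype.exists_ne_of_one_lt_card (by omega : 1 < Fintype.card X) w'
    obtain ⟨g, hg, _⟩ := h.1 w a w' b ha.symm hb.symm
    exact ⟨g, hg⟩
  have hc : ∀ w w' : X, (univ.filter fun x : G => x • v = w).card =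
      (univ.filter fun x : G => x • v = w').card := by
    intro w w'
    obtain ⟨g, hg⟩ := htr w w'
    refine Finset.card_bij (fun x _ => g * x) ?_ ?_ ?_
    · intro x hx
      simp only [mem_filter, mem_univ, true_and] at hx ⊢
      rw [mul_smul, hx, hg]
    · intro x _ y _ hxy
      exact mul_left_cancel hxy
    · intro y hy
      simp only [mem_filter, mem_univ, true_and] at hy
      refine ⟨g⁻¹ * y, ?_, by simp⟩
      simp only [mem_filter, mem_univ, true_and]
      rw [mul_smul, hy, ← hg, inv_smul_smul]
  have hsum : ∀ Y : Finset X, (univ.filter fun x : G => x • v ∈ Y).card =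
      Y.card * (univ.filter fun x : G => x • v = v).card := by
    intro Y
    rw [Finset.card_eq_sum_card_fiberwise (f := fun x : G => x • v) (t := Y)
      (fun x hx => by simpa using hx), Finset.sum_const_nat (m := (univ.filter fun x : G => x • v = v).card)]
    intro w hw
    rw [hc v w, Finset.filter_filter]
    congr 1
    ext x
    simp only [mem_filter, mem_univ, true_and]
    constructor
    · rintro ⟨_, h⟩
      exact h
    · intro h
      exact ⟨by rw [h]; exact hw, h⟩
  have htot := hsum univ
  simp only [mem_univ, filter_true, Finset.card_univ] at htot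
  rw [hsum Z, htot]
  ring

theorem pair_count (h : Nice G X) (k : ℕ) (v w : X) (hvw : v ≠ w) :
    (univ.filter fun y : G => y ^ k • v = w).card * (Fintype.card X - 1) ≤ Fintype.card G := by
  have hc : ∀ w' : X, v ≠ w' → (univ.filter fun y : G => y ^ k • v = w).card ≤
      (univ.filter fun y : G => y ^ k • v = w').card := by
    intro w' hw'
    obtain ⟨g, hgv, hgw⟩ := h.1 v w v w' hvw hw'
    refine Finset.card_le_card_of_injOn (fun y => g * y * g⁻¹) ?_ ?_
    · intro y hy
      simp only [coe_filter, mem_univ, true_and, Set.mem_ofPred_eq] at hy ⊢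
      have hinv : g⁻¹ • v = v := by rw [inv_smul_eq_iff, hgv]
      rw [conj_pow, mul_smul, mul_smul, hinv, hy, hgw]
    · intro x _ y _ hxy
      simpa using hxy
  have hsum : (univ.filter fun y : G => y ^ k • v ∈ univ.erase v).card =
      ∑ w' ∈ univ.erase v, (univ.filter fun y : G => y ^ k • v = w').card := by
    rw [Finset.card_eq_sum_card_fiberwise (f := fun y : G => y ^ k • v) (t := univ.erase v)
      (fun x hx => by simpa using hx)]
    refine Finset.sum_congr rfl fun w' hw' => ?_
    rw [Finset.filter_filter]
    congr 1
    ext x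
    simp only [mem_filter, mem_univ, true_and]
    constructor
    · rintro ⟨_, h⟩
      exact h
    · intro h
      exact ⟨by rw [h]; exact hw', h⟩
  calc (univ.filter fun y : G => y ^ k • v = w).card * (Fintype.card X - 1)
      = ∑ _w' ∈ univ.erase v, (univ.filter fun y : G => y ^ k • v = w).card := by
        rw [Finset.sum_const, Finset.card_erase_of_mem (mem_univ v), Finset.card_univ, smul_eq_mul,
          mul_comm]
    _ ≤ ∑ w' ∈ univ.erase v, (univ.filter fun y : G => y ^ k • v = w').card := by
        refine Finset.sum_le_sum fun w' hw' => hc w' ?_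
        exact (Finset.ne_of_mem_erase hw').symm
    _ = _ := hsum.symm
    _ ≤ Fintype.card G := Finset.card_le_univ _

theorem fix_count (h : Nice G X) (k : ℕ) (v : X) (hk : 1 ≤ k) :
    (univ.filter fun y : G => y ^ k • v = v).card * Fintype.card X ≤ k * Fintype.card G := by
  have := h.2 k v hk
  rw [Nat.card_eq_fintype_card, Nat.card_eq_fintype_card, Nat.card_eq_fintype_card,
    Fintype.card_subtype] at this
  exact this

end Pool.Agent.RSC
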