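import Pool.Agent.RSC.TrC
import Pool.Agent.RSC.CenC
import Pool.Agent.RGC.HomZ

/-!
# RSC module COMC: products of two commutators in `SL(2, p)`   (helper52)
-/

set_option autoImplicit false

namespace Pool.Agent.RSC

open Matrix Pool.Agent.RGC.HZ

/-- Number of pairs with a given commutator. -/
noncomputable def nc {G : Type} [Group G] (s : G) : ℕ := Nat.card {a : G × G // cmz a = s}

section abs
variable {G : Type} [Group G] [Fintype G]

theorem sum_nc : ∑ s : G, nc s = Fintype.card G ^ 2 := by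
  classical
  unfold nc
  rw [← Nat.card_sigma, Nat.card_congr (Equiv.sigmaFiberEquiv (cmz : G × G → G)), Nat.card_prod,
    Nat.card_eq_fintype_card, sq]

theorem two_comm (c : G) :
    Nat.card {ab : (G × G) × (G × G) // c * cmz ab.1 * cmz ab.2 = 1} ≤ ∑ s : G, nc s ^ 2 := by
  classical
  have e : {ab : (G × G) × (G × G) // c * cmz ab.1 * cmz ab.2 = 1} ≃
      Σ s : G, {a : G × G // cmz a = s} × {b : G × G // cmz b = (c * s)⁻¹} :=
    { toFun := fun ab => ⟨cmz ab.1.1, ⟨ab.1.1, rfl⟩, ⟨ab.1.2, by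
        rw [eq_inv_iff_mul_eq_one, ← mul_eq_one_comm]; exact ab.2⟩⟩
      invFun := fun s => ⟨(s.2.1.1, s.2.2.1), by
        rw [s.2.1.2, s.2.2.2, mul_inv_cancel]⟩
      left_inv := fun _ => rfl
      right_inv := by rintro ⟨s, ⟨a, rfl⟩, ⟨b, hb⟩⟩; rfl }
  rw [Nat.card_congr e, Nat.card_sigma]
  have h1 : ∀ s : G, 2 * Nat.card ({a : G × G // cmz a = s} × {b : G × G // cmz b = (c * s)⁻¹}) ≤
      nc s ^ 2 + nc (c * s)⁻¹ ^ 2 := by
    intro s
    rw [Nat.card_prod]
    have := two_mul_le_add_sq (nc s) (nc (c * s)⁻¹)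
    unfold nc at this ⊢
    linarith
  have h2 : ∑ s : G, nc (c * s)⁻¹ ^ 2 = ∑ s : G, nc s ^ 2 :=
    Fintype.sum_equiv ((Equiv.mulLeft c).trans (Equiv.inv G)) _ _ (fun s => rfl)
  have h3 := Finset.sum_le_sum fun s (_ : s ∈ Finset.univ) => h1 s
  rw [← Finset.mul_sum, Finset.sum_add_distrib, h2] at h3
  omega

theorem nc_le_abs (s : G) (hs : s ≠ 1) (c t : ℕ) (P : G → Prop)
    (hP : ∀ x y : G, cmz (x, y) = s → P x⁻¹)
    (hc : ∀ z : G, (∃ y, z * y ≠ y * z) → Nat.card {y : G // y * z = z * y} ≤ c)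
    (ht : Nat.card {z : G // P z} ≤ t) : nc s ≤ t * c := by
  classical
  have hfib : ∀ z : G, Nat.card {y : G // y * z * y⁻¹ = z * s} ≤ c := by
    intro z
    by_cases hne : Nonempty {y : G // y * z * y⁻¹ = z * s}
    · obtain ⟨y0, hy0⟩ := hne
      have hz : ∃ y : G, z * y ≠ y * z := by
        refine ⟨y0, fun h => hs ?_⟩
        have h1 : y0 * z * y0⁻¹ = z := by rw [← h, mul_inv_cancel_right]
        rw [h1] at hy0
        exact (mul_eq_left.1 hy0.symm)
      refine (Nat.card_le_card_of_injective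
        (fun y : {y : G // y * z * y⁻¹ = z * s} =>
          (⟨y0⁻¹ * y.1, ?_⟩ : {w : G // w * z = z * w})) ?_).trans (hc z hz)
      · have h1 : y.1 * z * y.1⁻¹ = y0 * z * y0⁻¹ := y.2.trans hy0.symm
        have h2 : y.1 * z = y0 * z * y0⁻¹ * y.1 := by rw [← h1]; group
        calc y0⁻¹ * y.1 * z = y0⁻¹ * (y.1 * z) := by group
          _ = y0⁻¹ * (y0 * z * y0⁻¹ * y.1) := by rw [h2]
          _ = z * (y0⁻¹ * y.1) := by group
      · intro y y' h
        have := congrArg Subtype.val h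
        simp only [mul_right_inj] at this
        exact Subtype.ext this
    · have : IsEmpty {y : G // y * z * y⁻¹ = z * s} := not_nonempty_iff.1 hne
      rw [Nat.card_of_isEmpty]
      exact Nat.zero_le _
  refine le_trans (Nat.card_le_card_of_injective
    (fun a : {a : G × G // cmz a = s} =>
      (⟨⟨a.1.1⁻¹, hP a.1.1 a.1.2 a.2⟩, ⟨a.1.2, ?_⟩⟩ : Σ z : {z : G // P z},
        {y : G // y * z.1 * y⁻¹ = z.1 * s})) ?_) ?_
  · obtain ⟨⟨x, y⟩, ha⟩ := a
    simp only [cmz] at ha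
    show y * x⁻¹ * y⁻¹ = x⁻¹ * s
    rw [← ha]; group
  · rintro ⟨⟨x, y⟩, ha⟩ ⟨⟨x', y'⟩, ha'⟩ h
    have e1 := congrArg (fun w => w.1.1) h
    simp only [_root_.inv_inj] at e1
    have e2 := congrArg (fun w : (Σ z : {z : G // P z},
        {y : G // y * z.1 * y⁻¹ = z.1 * s}) => w.2.1) h
    simp only at e2
    subst e1 e2
    rfl
  · rw [Nat.card_sigma]
    calc _ ≤ ∑ _z : {z : G // P z}, c := Finset.sum_le_sum fun z _ => hfib z.1
      _ = Nat.card {z : G // P z} * c := by
          rw [Finset.sum_const, Finset.card_univ, smul_eq_mul, Nat.card_eq_fintype_card]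
      _ ≤ _ := Nat.mul_le_mul_right _ ht

theorem nc_one_abs (c : ℕ)
    (hc : ∀ z : G, (∃ y, z * y ≠ y * z) → Nat.card {y : G // y * z = z * y} ≤ c)
    (hne : ∃ u v : G, u * v ≠ v * u) : nc (1 : G) ≤ 2 * c * Fintype.card G := by
  classical
  obtain ⟨u, v, huv⟩ := hne
  have hcen : Nat.card {x : G // ∀ y : G, x * y = y * x} ≤ c := by
    refine (Nat.card_le_card_of_injective
      (fun x : {x : G // ∀ y : G, x * y = y * x} =>
        (⟨x.1, x.2 u⟩ : {y : G // y * u = u * y})) ?_).trans (hc u ⟨v, huv⟩)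
    intro x x' h
    have h1 := congrArg Subtype.val h
    exact Subtype.ext h1
  have e : {a : G × G // cmz a = 1} ≃ Σ x : G, {y : G // y * x = x * y} :=
    { toFun := fun a => ⟨a.1.1, ⟨a.1.2, by
        have h1 := a.2
        simp only [cmz] at h1
        calc a.1.2 * a.1.1 = 1 * (a.1.2 * a.1.1) := (one_mul _).symm
          _ = (a.1.1 * a.1.2 * a.1.1⁻¹ * a.1.2⁻¹) * (a.1.2 * a.1.1) := by rw [h1]
          _ = a.1.1 * a.1.2 := by group⟩⟩
      invFun := fun s => ⟨(s.1, s.2.1), by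
        have h1 := s.2.2
        simp only [cmz]
        rw [← h1]
        group⟩
      left_inv := fun _ => rfl
      right_inv := fun _ => rfl }
  unfold nc
  rw [Nat.card_congr e, Nat.card_sigma]
  have h1 : ∀ x : G, Nat.card {y : G // y * x = x * y} ≤
      c + if (∀ y : G, x * y = y * x) then Fintype.card G else 0 := by
    intro x
    by_cases hx : ∀ y : G, x * y = y * x
    · rw [if_pos hx]
      have h2 : Nat.card {y : G // y * x = x * y} ≤ Nat.card G :=
        Nat.card_le_card_of_injective _ Subtype.val_injective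
      rw [Nat.card_eq_fintype_card (α := G)] at h2
      omega
    · rw [if_neg hx]
      push Not at hx
      exact (hc x hx).trans (by omega)
  calc _ ≤ ∑ x : G, (c + if (∀ y : G, x * y = y * x) then Fintype.card G else 0) :=
        Finset.sum_le_sum fun x _ => h1 x
    _ = Fintype.card G * c + Nat.card {x : G // ∀ y : G, x * y = y * x} * Fintype.card G := by
        rw [Finset.sum_add_distrib, Finset.sum_const, Finset.card_univ, smul_eq_mul,
          ← Finset.sum_filter, Finset.sum_const, smul_eq_mul, Nat.card_eq_fintype_card,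
          Fintype.card_subtype]
    _ ≤ Fintype.card G * c + c * Fintype.card G :=
        Nat.add_le_add_left (Nat.mul_le_mul_right _ hcen) _
    _ = 2 * c * Fintype.card G := by ring

theorem sum_nc_sq (B D : ℕ) (h1 : nc (1 : G) ≤ B) (h2 : ∀ s : G, s ≠ 1 → nc s ≤ D) :
    ∑ s : G, nc s ^ 2 ≤ B ^ 2 + D * Fintype.card G ^ 2 := by
  classical
  have h3 : ∀ s : G, nc s ^ 2 ≤ (if s = 1 then B ^ 2 else 0) + D * nc s := by
    intro s
    by_cases hs : s = 1
    · subst hs
      rw [if_pos rfl]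
      exact (Nat.pow_le_pow_left h1 2).trans (Nat.le_add_right _ _)
    · rw [if_neg hs, zero_add, sq]
      exact Nat.mul_le_mul_right _ (h2 s hs)
  calc _ ≤ ∑ s : G, ((if s = 1 then B ^ 2 else 0) + D * nc s) :=
        Finset.sum_le_sum fun s _ => h3 s
    _ = B ^ 2 + D * Fintype.card G ^ 2 := by
        rw [Finset.sum_add_distrib, ← Finset.mul_sum, sum_nc]
        simp

end abs

section sl
variable (p : ℕ) [Fact p.Prime]

theorem card_lower : p ^ 3 ≤ 2 * Fintype.card (SpecialLinearGroup (Fin 2) (ZMod p)) := by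
  classical
  have hp : 2 ≤ p := (Fact.out : p.Prime).two_le
  let F : {a : ZMod p // a ≠ 0} × ZMod p × ZMod p → SpecialLinearGroup (Fin 2) (ZMod p) := fun x =>
    ⟨!![x.1.1, x.2.1; x.2.2, (1 + x.2.1 * x.2.2) / x.1.1], by
      rw [Matrix.det_fin_two_of]
      have := x.1.2
      field_simp
      ring⟩
  have hF : Function.Injective F := by
    rintro ⟨⟨a, ha⟩, b, c⟩ ⟨⟨a', ha'⟩, b', c'⟩ h
    have h0 := congrArg Subtype.val h
    have e1 := congrFun (congrFun h0 0) 0
    have e2 := congrFun (congrFun h0 0) 1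
    have e3 := congrFun (congrFun h0 1) 0
    simp [F] at e1 e2 e3
    subst e1 e2 e3
    rfl
  have h1 := Fintype.card_le_of_injective F hF
  have h2 : Fintype.card {a : ZMod p // a ≠ 0} = p - 1 := by
    have h3 := Fintype.card_subtype_compl (fun a : ZMod p => a = 0)
    rw [Fintype.card_subtype_eq, ZMod.card] at h3
    exact h3
  rw [Fintype.card_prod, Fintype.card_prod, ZMod.card, h2] at h1
  obtain ⟨t, ht⟩ : ∃ t, p = t + 2 := ⟨p - 2, by omega⟩
  have h4 : p - 1 = t + 1 := by omega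
  rw [h4] at h1
  have h5 : p ^ 3 ≤ 2 * ((t + 1) * (p * p)) := by
    have : p ≤ 2 * (t + 1) := by omega
    calc p ^ 3 = p * (p * p) := by ring
      _ ≤ 2 * (t + 1) * (p * p) := Nat.mul_le_mul_right _ this
      _ = 2 * ((t + 1) * (p * p)) := by ring
  omega

theorem tr_of_comm (s x y : SpecialLinearGroup (Fin 2) (ZMod p)) (h : cmz (x, y) = s) :
    ((x⁻¹).1 * (s.1 - 1)).trace = 0 := by
  simp only [cmz] at h
  have h2 : y * x⁻¹ * y⁻¹ = x⁻¹ * s := by rw [← h]; group
  have h3 : (x⁻¹ * s).1.trace = (x⁻¹).1.trace := by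
    rw [← h2]
    show ((y * x⁻¹).1 * (y⁻¹).1).trace = _
    rw [Matrix.trace_mul_comm]
    show (y⁻¹ * (y * x⁻¹)).1.trace = _
    rw [inv_mul_cancel_left]
  rw [mul_sub, mul_one, Matrix.trace_sub, sub_eq_zero]
  exact h3

theorem nc_le (s : SpecialLinearGroup (Fin 2) (ZMod p)) (hs : s ≠ 1) :
    nc s ≤ 8 * Fintype.card (SpecialLinearGroup (Fin 2) (ZMod p)) := by
  classical
  have hp : 2 ≤ p := (Fact.out : p.Prime).two_le
  have hm : s.1 - 1 ≠ 0 := by
    intro h
    exact hs (Subtype.ext (sub_eq_zero.1 h))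
  have h1 : nc s ≤ (p ^ 2 + 2 * p) * (2 * p) :=
    nc_le_abs s hs (2 * p) (p ^ 2 + 2 * p) (fun z => (z.1 * (s.1 - 1)).trace = 0)
      (fun x y h => tr_of_comm p s x y h) (fun z hz => cent_count p z hz) (tr_count p _ hm)
  have h2 := card_lower p
  have h3 : (p ^ 2 + 2 * p) * (2 * p) ≤ 4 * p ^ 3 := by
    have : 2 * p ≤ p ^ 2 := by nlinarith
    calc (p ^ 2 + 2 * p) * (2 * p) ≤ (p ^ 2 + p ^ 2) * (2 * p) :=
          Nat.mul_le_mul_right _ (Nat.add_le_add_left this _)
      _ = 4 * p ^ 3 := by ring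
  omega

theorem nc_one : nc (1 : SpecialLinearGroup (Fin 2) (ZMod p)) ≤
    4 * p * Fintype.card (SpecialLinearGroup (Fin 2) (ZMod p)) := by
  classical
  have h := nc_one_abs (G := SpecialLinearGroup (Fin 2) (ZMod p)) (2 * p)
    (fun z hz => cent_count p z hz) (by
      refine ⟨⟨!![1, 1; 0, 1], by rw [Matrix.det_fin_two_of]; ring⟩,
        ⟨!![1, 0; 1, 1], by rw [Matrix.det_fin_two_of]; ring⟩, fun h => ?_⟩
      have h1 := congrArg Subtype.val h
      have h2 := congrFun (congrFun h1 1) 1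
      simp [Matrix.SpecialLinearGroup.coe_mul] at h2)
  calc _ ≤ _ := h
    _ = _ := by ring

theorem comm2_count (c : SpecialLinearGroup (Fin 2) (ZMod p)) :
    Nat.card {ab : (SpecialLinearGroup (Fin 2) (ZMod p) × SpecialLinearGroup (Fin 2) (ZMod p)) ×
      (SpecialLinearGroup (Fin 2) (ZMod p) × SpecialLinearGroup (Fin 2) (ZMod p)) //
        c * cmz ab.1 * cmz ab.2 = 1} ≤
      24 * Fintype.card (SpecialLinearGroup (Fin 2) (ZMod p)) ^ 3 := by
  classical
  have hp : 2 ≤ p := (Fact.out : p.Prime).two_le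
  refine (two_comm c).trans ((sum_nc_sq _ _ (nc_one p) (nc_le p)).trans ?_)
  generalize hq : Fintype.card (SpecialLinearGroup (Fin 2) (ZMod p)) = q
  have h4 : p ^ 2 ≤ q := by
    have h5 := card_lower p
    rw [hq] at h5
    have h6 : 2 * p ^ 2 ≤ p ^ 3 := by
      calc 2 * p ^ 2 ≤ p * p ^ 2 := Nat.mul_le_mul_right _ hp
        _ = p ^ 3 := by ring
    omega
  calc (4 * p * q) ^ 2 + 8 * q * q ^ 2 = p ^ 2 * (16 * q ^ 2) + 8 * q ^ 3 := by ring
    _ ≤ q * (16 * q ^ 2) + 8 * q ^ 3 := Nat.add_le_add_right (Nat.mul_le_mul_right _ h4) _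
    _ = 24 * q ^ 3 := by ring

end sl

end Pool.Agent.RSC
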