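import Pool.Agent.RSC.Mom

/-!
# RSC module COV: third step

Chebyshev: `#{u | hit = 0} μ^2 ≤ Σ_u (hit - μ)^2`, `μ = J |Y| / N`; sum over `y`:
`≤ |G| (J |Y| + J^3 |Y| / N + J^2 |Y|^2 / (N-1)) - |G| J^2 |Y|^2 / N`, and `1/(N-1) - 1/N = 1/(N(N-1))`.
`N - |orb y Y| ≤ #{u | hit = 0}` by `mem_orb_of_hit`.
-/

namespace Pool.Agent.RSC

open Finset

variable {G X : Type} [Group G] [Fintype G] [DecidableEq G] [MulAction G X] [Fintype X] [DecidableEq X]

private theorem cover_one (y : G) (Y : Finset X) (J : ℕ) (hN : 0 < Fintype.card X) :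
    ((Fintype.card X : ℝ) - (orb y Y).card) * (J * Y.card / Fintype.card X) ^ 2 ≤
      (∑ u : X, (hit y Y J u : ℝ) ^ 2) - (J * Y.card : ℝ) ^ 2 / Fintype.card X := by
  have hN0 : (0 : ℝ) < Fintype.card X := by exact_mod_cast hN
  obtain ⟨μ, hμ⟩ : ∃ μ : ℝ, μ = J * Y.card / Fintype.card X := ⟨_, rfl⟩
  have h1 : ∑ u : X, (hit y Y J u : ℝ) = J * Y.card := by
    have := sum_hit y Y J
    exact_mod_cast this
  have h2 : ∑ u : X, ((hit y Y J u : ℝ) - μ) ^ 2 =
      (∑ u : X, (hit y Y J u : ℝ) ^ 2) - (J * Y.card : ℝ) ^ 2 / Fintype.card X := by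
    have h3 : ∀ u : X, ((hit y Y J u : ℝ) - μ) ^ 2 =
        (hit y Y J u : ℝ) ^ 2 - 2 * μ * (hit y Y J u : ℝ) + μ ^ 2 := fun u => by ring
    simp_rw [h3]
    rw [sum_add_distrib, sum_sub_distrib, ← mul_sum, h1, sum_const, nsmul_eq_mul, card_univ, hμ]
    field_simp
    ring
  have h3 : ((univ.filter fun u : X => hit y Y J u = 0).card : ℝ) * μ ^ 2 ≤
      ∑ u : X, ((hit y Y J u : ℝ) - μ) ^ 2 := by
    rw [← nsmul_eq_mul, ← sum_const]
    calc ∑ _u ∈ univ.filter (fun u : X => hit y Y J u = 0), μ ^ 2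
        = ∑ u ∈ univ.filter (fun u : X => hit y Y J u = 0), ((hit y Y J u : ℝ) - μ) ^ 2 := by
          refine sum_congr rfl fun u hu => ?_
          rw [(mem_filter.1 hu).2]
          simp
      _ ≤ _ := sum_le_sum_of_subset_of_nonneg (filter_subset _ _) fun u _ _ => sq_nonneg _
  have h4 : (Fintype.card X : ℝ) - (orb y Y).card ≤
      ((univ.filter fun u : X => hit y Y J u = 0).card : ℝ) := by
    have h5 : (univ.filter fun u : X => ¬ hit y Y J u = 0) ⊆ orb y Y := by
      intro u hu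
      exact mem_orb_of_hit y Y J u (mem_filter.1 hu).2
    have h6 := card_le_card h5
    have h7 := card_filter_add_card_filter_not (s := (univ : Finset X)) (fun u => hit y Y J u = 0)
    rw [card_univ] at h7
    have h8 : Fintype.card X ≤ (univ.filter fun u : X => hit y Y J u = 0).card +
        (orb y Y).card := by omega
    have h9 : (Fintype.card X : ℝ) ≤ ((univ.filter fun u : X => hit y Y J u = 0).card : ℝ) +
        ((orb y Y).card : ℝ) := by exact_mod_cast h8
    linarith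
  rw [← h2, ← hμ]
  refine le_trans ?_ h3
  exact mul_le_mul_of_nonneg_right h4 (sq_nonneg μ)

theorem cover (h : Nice G X) (h2 : 2 ≤ Fintype.card X) (Y : Finset X) (hY : Y.Nonempty) (J : ℕ)
    (hJ : 1 ≤ J) :
    (∑ y : G, ((Fintype.card X : ℝ) - (orb y Y).card)) ≤ Fintype.card G * (Fintype.card X : ℝ) ^ 2 *
      (1 / (J * Y.card) + J / (Fintype.card X * Y.card) +
        1 / (Fintype.card X * (Fintype.card X - 1))) := by
  have hN : 0 < Fintype.card X := by omega
  have hN0 : (0 : ℝ) < Fintype.card X := by exact_mod_cast hN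
  have hN1 : (0 : ℝ) < (Fintype.card X : ℝ) - 1 := by
    have : (2 : ℝ) ≤ Fintype.card X := by exact_mod_cast h2
    linarith
  have hY0 : (0 : ℝ) < Y.card := by exact_mod_cast hY.card_pos
  have hJ0 : (0 : ℝ) < J := by exact_mod_cast hJ
  have h1 : (∑ y : G, ((Fintype.card X : ℝ) - (orb y Y).card)) *
      (J * Y.card / Fintype.card X) ^ 2 ≤
      (∑ y : G, ∑ u : X, (hit y Y J u : ℝ) ^ 2) -
        Fintype.card G * ((J * Y.card : ℝ) ^ 2 / Fintype.card X) := by
    rw [sum_mul]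
    refine (sum_le_sum fun y _ => cover_one y Y J hN).trans (le_of_eq ?_)
    rw [sum_sub_distrib, sum_const, nsmul_eq_mul, card_univ]
  have h3 := sum_hit_sq h h2 Y J
  have h4 : 0 < ((J : ℝ) * Y.card / Fintype.card X) ^ 2 := by positivity
  rw [← mul_le_mul_iff_left₀ h4]
  refine h1.trans ((sub_le_sub_right h3 _).trans (le_of_eq ?_))
  field_simp
  ring

end Pool.Agent.RSC
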