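import Pool.Agent.RSC.Defs

/-!
# RSC module CYL: independence of cylinder sets

`indep`: `A` depends only on the coordinates in `J`, `B` only on the coordinates outside `J`: the map
`(u, v) ↦ (u on J and v outside, v on J and u outside)` is a bijection `A × B → (A ∩ B) × (ι → G)`.
`inter`: induction on `S`: `⋂_{s ∈ S} A s` does not depend on the coordinates with `blk i = t` for `t ∉ S`.
-/

namespace Pool.Agent.RSC

open Finset

theorem indep {ι G : Type} [Fintype ι] [DecidableEq ι] [Fintype G] [DecidableEq G] (J : ι → Prop)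
    [DecidablePred J] (A B : Finset (ι → G))
    (hA : ∀ u u' : ι → G, (∀ i, J i → u i = u' i) → (u ∈ A ↔ u' ∈ A))
    (hB : ∀ u u' : ι → G, (∀ i, ¬ J i → u i = u' i) → (u ∈ B ↔ u' ∈ B)) :
    (A ∩ B).card * Fintype.card G ^ Fintype.card ι = A.card * B.card := by
  have hc : Fintype.card G ^ Fintype.card ι = (univ : Finset (ι → G)).card := by
    rw [Finset.card_univ, Fintype.card_fun]
  rw [hc, ← Finset.card_product, ← Finset.card_product]
  let φ : (ι → G) × (ι → G) → (ι → G) × (ι → G) := fun p =>
    (fun i => if J i then p.1 i else p.2 i, fun i => if J i then p.2 i else p.1 i)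
  have hφ : ∀ p, φ (φ p) = p := by
    intro p
    apply Prod.ext
    · funext i
      by_cases h : J i <;> simp [φ, h]
    · funext i
      by_cases h : J i <;> simp [φ, h]
  have hiff : ∀ p : (ι → G) × (ι → G), p ∈ A ×ˢ B ↔ φ p ∈ (A ∩ B) ×ˢ (univ : Finset (ι → G)) := by
    intro p
    have h1 : p.1 ∈ A ↔ (φ p).1 ∈ A := hA _ _ fun i hi => by simp [φ, hi]
    have h2 : p.2 ∈ B ↔ (φ p).1 ∈ B := hB _ _ fun i hi => by simp [φ, hi]
    simp only [Finset.mem_product, Finset.mem_inter, Finset.mem_univ, and_true]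
    rw [h1, h2]
  symm
  refine Finset.card_bij' (fun p _ => φ p) (fun p _ => φ p) (fun p hp => (hiff p).1 hp)
    (fun p hp => ?_) (fun p _ => hφ p) (fun p _ => hφ p)
  rw [hiff, hφ]
  exact hp

/-- `A t` depends only on the coordinates `i` with `blk i = t`. -/
theorem inter {ι G : Type} [Fintype ι] [DecidableEq ι] [Fintype G] [DecidableEq G] [Nonempty G]
    (blk : ι → ℕ) (A : ℕ → Finset (ι → G)) (δ : ℝ) (hδ : 0 ≤ δ) (R : ℕ)
    (hA : ∀ t < R, ∀ u u' : ι → G, (∀ i, blk i = t → u i = u' i) → (u ∈ A t ↔ u' ∈ A t))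
    (hc : ∀ t < R, ((A t).card : ℝ) ≤ δ * (Fintype.card G : ℝ) ^ Fintype.card ι) (S : Finset ℕ)
    (hS : ∀ t ∈ S, t < R) :
    ((univ.filter fun u : ι → G => ∀ t ∈ S, u ∈ A t).card : ℝ) ≤
      δ ^ S.card * (Fintype.card G : ℝ) ^ Fintype.card ι := by
  have hpos : (0 : ℝ) < (Fintype.card G : ℝ) ^ Fintype.card ι := by
    have : (0 : ℝ) < (Fintype.card G : ℝ) := by exact_mod_cast Fintype.card_pos
    positivity
  induction S using Finset.induction_on with
  | empty =>
    simp only [Finset.notMem_empty, false_implies, implies_true, Finset.filter_true,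
      Finset.card_empty, pow_zero, one_mul]
    rw [Finset.card_univ, Fintype.card_fun]
    push_cast
    exact le_rfl
  | insert t S ht ih =>
    have ih' := ih fun s hs => hS s (Finset.mem_insert_of_mem hs)
    have htR : t < R := hS t (Finset.mem_insert_self t S)
    set B : Finset (ι → G) := univ.filter fun u : ι → G => ∀ s ∈ S, u ∈ A s with hB
    have hset : (univ.filter fun u : ι → G => ∀ s ∈ insert t S, u ∈ A s) = A t ∩ B := by
      ext u
      simp [hB]
    have hind := indep (fun i => blk i = t) (A t) B (hA t htR) (by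
      intro u u' huu
      simp only [hB, Finset.mem_filter, Finset.mem_univ, true_and]
      refine forall₂_congr fun s hs => ?_
      refine hA s (hS s (Finset.mem_insert_of_mem hs)) u u' fun i hi => huu i ?_
      intro h
      apply ht
      rw [← h, hi]
      exact hs)
    have hind' : ((A t ∩ B).card : ℝ) * (Fintype.card G : ℝ) ^ Fintype.card ι
        = ((A t).card : ℝ) * (B.card : ℝ) := by exact_mod_cast hind
    rw [hset, Finset.card_insert_of_notMem ht]
    have h1 : ((A t).card : ℝ) * (B.card : ℝ) ≤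
        (δ * (Fintype.card G : ℝ) ^ Fintype.card ι) *
          (δ ^ S.card * (Fintype.card G : ℝ) ^ Fintype.card ι) :=
      mul_le_mul (hc t htR) ih' (Nat.cast_nonneg _) (by positivity)
    rw [← hind'] at h1
    have h2 : ((A t ∩ B).card : ℝ) * (Fintype.card G : ℝ) ^ Fintype.card ι ≤
        (δ ^ (S.card + 1) * (Fintype.card G : ℝ) ^ Fintype.card ι) *
          (Fintype.card G : ℝ) ^ Fintype.card ι := by
      refine h1.trans (le_of_eq ?_)
      ring
    exact le_of_mul_le_mul_right h2 hpos

/-- The tuples which are in `A t` for all but at most `r` values `t < R` (`r ≤ R`). -/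
theorem most {ι G : Type} [Fintype ι] [DecidableEq ι] [Fintype G] [DecidableEq G] [Nonempty G]
    (blk : ι → ℕ) (A : ℕ → Finset (ι → G)) (δ : ℝ) (hδ : 0 ≤ δ) (R r : ℕ) (hr : r ≤ R)
    (hA : ∀ t < R, ∀ u u' : ι → G, (∀ i, blk i = t → u i = u' i) → (u ∈ A t ↔ u' ∈ A t))
    (hc : ∀ t < R, ((A t).card : ℝ) ≤ δ * (Fintype.card G : ℝ) ^ Fintype.card ι) :
    ((univ.filter fun u : ι → G => ((range R).filter fun t => u ∉ A t).card ≤ r).card : ℝ) ≤
      R.choose r * δ ^ (R - r) * (Fintype.card G : ℝ) ^ Fintype.card ι := by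
  have hsub : (univ.filter fun u : ι → G => ((range R).filter fun t => u ∉ A t).card ≤ r) ⊆
      (powersetCard r (range R)).biUnion fun T =>
        univ.filter fun u : ι → G => ∀ t ∈ range R \ T, u ∈ A t := by
    intro u hu
    rw [Finset.mem_filter] at hu
    obtain ⟨T, hT1, hT2, hT3⟩ := Finset.exists_subsuperset_card_eq
      (Finset.filter_subset (fun t => u ∉ A t) (range R)) hu.2 (by simpa using hr)
    rw [Finset.mem_biUnion]
    refine ⟨T, Finset.mem_powersetCard.2 ⟨hT2, hT3⟩, ?_⟩
    rw [Finset.mem_filter]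
    refine ⟨Finset.mem_univ _, fun t ht => ?_⟩
    rw [Finset.mem_sdiff] at ht
    by_contra hcon
    exact ht.2 (hT1 (Finset.mem_filter.2 ⟨ht.1, hcon⟩))
  have h1 : ((univ.filter fun u : ι → G => ((range R).filter fun t => u ∉ A t).card ≤ r).card : ℝ) ≤
      ∑ T ∈ powersetCard r (range R),
        ((univ.filter fun u : ι → G => ∀ t ∈ range R \ T, u ∈ A t).card : ℝ) := by
    have h := (Finset.card_le_card hsub).trans Finset.card_biUnion_le
    exact_mod_cast h
  have h2 : ∀ T ∈ powersetCard r (range R),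
      ((univ.filter fun u : ι → G => ∀ t ∈ range R \ T, u ∈ A t).card : ℝ) ≤
        δ ^ (R - r) * (Fintype.card G : ℝ) ^ Fintype.card ι := by
    intro T hT
    rw [Finset.mem_powersetCard] at hT
    have h := inter blk A δ hδ R hA hc (range R \ T) fun t ht => by
      rw [Finset.mem_sdiff, Finset.mem_range] at ht
      exact ht.1
    rw [Finset.card_sdiff_of_subset hT.1, Finset.card_range, hT.2] at h
    exact h
  refine (h1.trans (Finset.sum_le_sum h2)).trans (le_of_eq ?_)
  rw [Finset.sum_const, Finset.card_powersetCard, Finset.card_range, nsmul_eq_mul]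
  ring

end Pool.Agent.RSC
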