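import Pool.Agent.RGC.Defs

/-!
# RSC: almost all covers with group `SL(2, p)` in a fixed genus, definitions

`pw c d e m` is the product of the `c j * d j ^ e j`, `j < m`.
`orb y Y` is the union of the orbits of `y` through the points of `Y`.
`Nice G X`: `G` is doubly transitive on `X` and powers seldom have fixed points.
-/

namespace Pool.Agent.RSC

open Finset

/-- The product of the `c j * d j ^ e j`. -/
def pw {G : Type*} [Group G] (c d : ℕ → G) (e : ℕ → ℕ) : ℕ → G
  | 0 => 1
  | j + 1 => pw c d e j * (c j * d j ^ e j)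

open Classical in
/-- The union of the orbits of the powers of `y` through `Y`. -/
noncomputable def orb {G X : Type*} [Group G] [MulAction G X] [Fintype X] (y : G) (Y : Finset X) :
    Finset X := univ.filter fun u => ∃ m : ℕ, ∃ v ∈ Y, u = y ^ m • v

/-- Doubly transitive, and the `k`-th power fixes a given point for at most `k |G| / |X|` elements. -/
def Nice (G X : Type*) [Group G] [MulAction G X] : Prop :=
  (∀ v w v' w' : X, v ≠ w → v' ≠ w' → ∃ x : G, x • v = v' ∧ x • w = w') ∧
  ∀ (k : ℕ) (v : X), 1 ≤ k → Nat.card {y : G // y ^ k • v = v} * Nat.card X ≤ k * Nat.card G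

/-- No point `x₀ y₀^e₀ x₁ y₁^e₁ x₂ y₂^e₂ • p` is `q`. -/
def Miss {G X : Type*} [Group G] [MulAction G X] (p q : X) (w : (Fin 3 → G) × (Fin 3 → G)) : Prop :=
  ∀ e : ℕ → ℕ, pw (fun j => w.1 (Fin.ofNat 3 j)) (fun j => w.2 (Fin.ofNat 3 j)) e 3 • p ≠ q

/-- For every `q` the proportion of the `w` with `Miss p q w` is at most `ε`. -/
def FewMiss (ε : ℝ) (G : Type*) {X : Type*} [Group G] [MulAction G X] (p : X) : Prop :=
  ∀ q : X, (Nat.card {w : (Fin 3 → G) × (Fin 3 → G) // Miss p q w} : ℝ) ≤ ε * (Nat.card G : ℝ) ^ 6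

end Pool.Agent.RSC
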