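import Pool.Agent.RSC.Defs

/-!
# RSC module FIB: six fresh coordinates

`c, d : ℕ → ι` give six different coordinates `c 0, c 1, c 2, d 0, d 1, d 2`; `q : (ι → G) → X` does not depend on
them.  Count pairs `(u, w)`, `w : (Fin 3 → G) × (Fin 3 → G)`: `upd u w` puts `w.1 j` at `c j` and `w.2 j` at `d j`; every `a : ι → G` is
`upd u w` for exactly `|G|^6` pairs, and for given `u` the `w` with `upd u w` bad are those of `prob` (with `q u`).
-/

namespace Pool.Agent.RSC

open Finset

/-- the function with the six coordinates replaced -/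
private def upd {ι G : Type} [DecidableEq ι] (c d : ℕ → ι) (u : ι → G)
    (w : (Fin 3 → G) × (Fin 3 → G)) : ι → G := fun i =>
  if i = c 0 then w.1 0 else if i = c 1 then w.1 1 else if i = c 2 then w.1 2
    else if i = d 0 then w.2 0 else if i = d 1 then w.2 1 else if i = d 2 then w.2 2 else u i

private theorem upd_eq {ι G : Type} [DecidableEq ι] (c d : ℕ → ι) (u : ι → G)
    (w : (Fin 3 → G) × (Fin 3 → G)) :
    upd c d u w = Function.update (Function.update (Function.update (Function.update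
      (Function.update (Function.update u (d 2) (w.2 2)) (d 1) (w.2 1)) (d 0) (w.2 0))
      (c 2) (w.1 2)) (c 1) (w.1 1)) (c 0) (w.1 0) := by
  funext i
  simp only [upd, Function.update_apply]

private theorem upd_c {ι G : Type} [DecidableEq ι] (c d : ℕ → ι)
    (hc : ∀ i < 3, ∀ j < 3, c i = c j → i = j) (u : ι → G)
    (w : (Fin 3 → G) × (Fin 3 → G)) (j : Fin 3) : upd c d u w (c j) = w.1 j := by
  have h10 : c 1 ≠ c 0 := fun h => absurd (hc 1 (by norm_num) 0 (by norm_num) h) (by norm_num)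
  have h20 : c 2 ≠ c 0 := fun h => absurd (hc 2 (by norm_num) 0 (by norm_num) h) (by norm_num)
  have h21 : c 2 ≠ c 1 := fun h => absurd (hc 2 (by norm_num) 1 (by norm_num) h) (by norm_num)
  fin_cases j
  · simp [upd]
  · simp [upd, h10]
  · simp [upd, h20, h21]

private theorem upd_d {ι G : Type} [DecidableEq ι] (c d : ℕ → ι)
    (hd : ∀ i < 3, ∀ j < 3, d i = d j → i = j) (hcd : ∀ i < 3, ∀ j < 3, c i ≠ d j) (u : ι → G)
    (w : (Fin 3 → G) × (Fin 3 → G)) (j : Fin 3) : upd c d u w (d j) = w.2 j := by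
  have h10 : d 1 ≠ d 0 := fun h => absurd (hd 1 (by norm_num) 0 (by norm_num) h) (by norm_num)
  have h20 : d 2 ≠ d 0 := fun h => absurd (hd 2 (by norm_num) 0 (by norm_num) h) (by norm_num)
  have h21 : d 2 ≠ d 1 := fun h => absurd (hd 2 (by norm_num) 1 (by norm_num) h) (by norm_num)
  have e : ∀ i < 3, ∀ j < 3, d j ≠ c i := fun i hi j hj h => hcd i hi j hj h.symm
  have e00 := e 0 (by norm_num) 0 (by norm_num)
  have e10 := e 1 (by norm_num) 0 (by norm_num)
  have e20 := e 2 (by norm_num) 0 (by norm_num)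
  have e01 := e 0 (by norm_num) 1 (by norm_num)
  have e11 := e 1 (by norm_num) 1 (by norm_num)
  have e21 := e 2 (by norm_num) 1 (by norm_num)
  have e02 := e 0 (by norm_num) 2 (by norm_num)
  have e12 := e 1 (by norm_num) 2 (by norm_num)
  have e22 := e 2 (by norm_num) 2 (by norm_num)
  fin_cases j
  · simp [upd, e00, e10, e20]
  · simp [upd, h10, e01, e11, e21]
  · simp [upd, h20, h21, e02, e12, e22]

/-- the exchange of the six coordinates -/
private def swp {ι G : Type} [DecidableEq ι] (c d : ℕ → ι)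
    (z : (ι → G) × ((Fin 3 → G) × (Fin 3 → G))) : (ι → G) × ((Fin 3 → G) × (Fin 3 → G)) :=
  (upd c d z.1 z.2, (fun j => z.1 (c j), fun j => z.1 (d j)))

private theorem swp_swp {ι G : Type} [DecidableEq ι] (c d : ℕ → ι)
    (hc : ∀ i < 3, ∀ j < 3, c i = c j → i = j) (hd : ∀ i < 3, ∀ j < 3, d i = d j → i = j)
    (hcd : ∀ i < 3, ∀ j < 3, c i ≠ d j) (z : (ι → G) × ((Fin 3 → G) × (Fin 3 → G))) :
    swp c d (swp c d z) = z := by
  obtain ⟨u, w1, w2⟩ := z
  unfold swp
  refine Prod.ext ?_ (Prod.ext ?_ ?_)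
  · funext i
    show (if i = c 0 then u (c 0) else if i = c 1 then u (c 1) else if i = c 2 then u (c 2)
      else if i = d 0 then u (d 0) else if i = d 1 then u (d 1) else if i = d 2 then u (d 2)
      else upd c d u (w1, w2) i) = u i
    split_ifs with h1 h2 h3 h4 h5 h6
    · rw [h1]
    · rw [h2]
    · rw [h3]
    · rw [h4]
    · rw [h5]
    · rw [h6]
    · simp [upd, h1, h2, h3, h4, h5, h6]
  · funext j
    exact upd_c c d hc u (w1, w2) j
  · funext j
    exact upd_d c d hd hcd u (w1, w2) j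

theorem fib (ε : ℝ) (G X : Type) [Group G] [Fintype G] [MulAction G X] (p : X)
    (hP : FewMiss ε G p) {ι : Type} [Fintype ι] [DecidableEq ι] (c d : ℕ → ι)
    (hc : ∀ i < 3, ∀ j < 3, c i = c j → i = j) (hd : ∀ i < 3, ∀ j < 3, d i = d j → i = j)
    (hcd : ∀ i < 3, ∀ j < 3, c i ≠ d j) (q : (ι → G) → X)
    (hq : ∀ u i y, i < 3 → q (Function.update u (c i) y) = q u ∧ q (Function.update u (d i) y) = q u) :
    (Nat.card {u : ι → G // ∀ e : ℕ → ℕ, pw (fun j => u (c j)) (fun j => u (d j)) e 3 • p ≠ q u} : ℝ) ≤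
      ε * (Fintype.card G : ℝ) ^ (Fintype.card ι) := by
  classical
  have hqu : ∀ (u : ι → G) (w : (Fin 3 → G) × (Fin 3 → G)), q (upd c d u w) = q u := by
    intro u w
    rw [upd_eq, (hq _ 0 _ (by norm_num)).1, (hq _ 1 _ (by norm_num)).1, (hq _ 2 _ (by norm_num)).1,
      (hq _ 0 _ (by norm_num)).2, (hq _ 1 _ (by norm_num)).2, (hq _ 2 _ (by norm_num)).2]
  let B : (ι → G) → Prop := fun u =>
    ∀ e : ℕ → ℕ, pw (fun j => u (c j)) (fun j => u (d j)) e 3 • p ≠ q u
  have hpw : ∀ (u : ι → G) (w : (Fin 3 → G) × (Fin 3 → G)) (e : ℕ → ℕ), pw (fun j => upd c d u w (c j)) (fun j => upd c d u w (d j)) e 3 =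
      pw (fun j => w.1 (Fin.ofNat 3 j)) (fun j => w.2 (Fin.ofNat 3 j)) e 3 := by
    intro u w e
    have a0 := upd_c c d hc u w 0
    have a1 := upd_c c d hc u w 1
    have a2 := upd_c c d hc u w 2
    have b0 := upd_d c d hd hcd u w 0
    have b1 := upd_d c d hd hcd u w 1
    have b2 := upd_d c d hd hcd u w 2
    simp only [pw]
    have a0' : upd c d u w (c 0) = w.1 0 := a0
    have a1' : upd c d u w (c 1) = w.1 1 := a1
    have a2' : upd c d u w (c 2) = w.1 2 := a2
    have b0' : upd c d u w (d 0) = w.2 0 := b0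
    have b1' : upd c d u w (d 1) = w.2 1 := b1
    have b2' : upd c d u w (d 2) = w.2 2 := b2
    rw [a0', a1', a2', b0', b1', b2']
    rfl
  have hB : ∀ (u : ι → G) (w : (Fin 3 → G) × (Fin 3 → G)),
      B (upd c d u w) ↔ Miss p (q u) w := by
    intro u w
    show (∀ e : ℕ → ℕ, pw (fun j => upd c d u w (c j)) (fun j => upd c d u w (d j)) e 3 • p ≠
      q (upd c d u w)) ↔ _
    unfold Miss
    refine forall_congr' fun e => ?_
    rw [hpw u w e, hqu u w]
  let W := (Fin 3 → G) × (Fin 3 → G)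
  let E : Equiv.Perm ((ι → G) × W) :=
    ⟨swp c d, swp c d, swp_swp c d hc hd hcd, swp_swp c d hc hd hcd⟩
  -- the two counts
  have h1 : Nat.card {z : (ι → G) × W // B z.1} = Nat.card {z : (ι → G) × W // B (upd c d z.1 z.2)} :=
    (Nat.card_congr (E.subtypeEquiv fun z => Iff.rfl)).symm
  have h2 : Nat.card {z : (ι → G) × W // B z.1} = Nat.card {u : ι → G // B u} * Nat.card W := by
    rw [← Nat.card_prod]
    exact Nat.card_congr
      { toFun := fun z => (⟨z.1.1, z.2⟩, z.1.2)
        invFun := fun z => ⟨(z.1.1, z.2), z.1.2⟩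
        left_inv := fun z => rfl
        right_inv := fun z => rfl }
  have h3 : (Nat.card {z : (ι → G) × W // B (upd c d z.1 z.2)} : ℝ) ≤
      (Fintype.card G : ℝ) ^ (Fintype.card ι) * (ε * (Fintype.card G : ℝ) ^ 6) := by
    have e1 : Nat.card {z : (ι → G) × W // B (upd c d z.1 z.2)} =
        Nat.card (Σ u : ι → G, {w : W // Miss p (q u) w}) := by
      exact Nat.card_congr
        { toFun := fun z => ⟨z.1.1, ⟨z.1.2, (hB _ _).1 z.2⟩⟩
          invFun := fun z => ⟨(z.1, z.2.1), (hB _ _).2 z.2.2⟩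
          left_inv := fun z => rfl
          right_inv := fun z => rfl }
    rw [e1, Nat.card_sigma, Nat.cast_sum]
    have e2 : ∀ u ∈ (univ : Finset (ι → G)), (Nat.card {w : W // Miss p (q u) w} : ℝ) ≤
        ε * (Fintype.card G : ℝ) ^ 6 := by
      intro u _
      have := hP (q u)
      rwa [Nat.card_eq_fintype_card (α := G)] at this
    refine (Finset.sum_le_card_nsmul _ _ _ e2).trans ?_
    rw [Finset.card_univ, Fintype.card_fun, nsmul_eq_mul, Nat.cast_pow]
  have h4 : (Nat.card W : ℝ) = (Fintype.card G : ℝ) ^ 6 := by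
    have : Nat.card W = Fintype.card G ^ 6 := by
      rw [Nat.card_eq_fintype_card]
      show Fintype.card ((Fin 3 → G) × (Fin 3 → G)) = _
      rw [Fintype.card_prod, Fintype.card_fun, Fintype.card_fin, ← pow_add]
    rw [this, Nat.cast_pow]
  have h5 : (0 : ℝ) < (Fintype.card G : ℝ) ^ 6 := by
    have : 0 < Fintype.card G := Fintype.card_pos
    positivity
  have h6 : (Nat.card {u : ι → G // B u} : ℝ) * (Fintype.card G : ℝ) ^ 6 ≤
      (Fintype.card G : ℝ) ^ (Fintype.card ι) * (ε * (Fintype.card G : ℝ) ^ 6) := by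
    rw [← h4, ← Nat.cast_mul, ← h2, h1, h4]
    exact h3
  have h7 : (Nat.card {u : ι → G // B u} : ℝ) * (Fintype.card G : ℝ) ^ 6 ≤
      (ε * (Fintype.card G : ℝ) ^ (Fintype.card ι)) * (Fintype.card G : ℝ) ^ 6 := by
    refine h6.trans (le_of_eq (by ring))
  exact le_of_mul_le_mul_right h7 h5

end Pool.Agent.RSC
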