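import Pool.Agent.RSC.Mom

/-!
# RSC module GROW: second step

`Y' ⊆ Y` with `|Y'| = K`, `J = K`.  By Cauchy-Schwarz `(Σ_u hit)^2 ≤ |orb y Y'| Σ_u hit^2` (`mem_orb_of_hit`), and
`Σ_u hit = K^2`.  If `2 |orb y Y| < K^2` then `Σ_u hit^2 > 2 K^2`, i.e. `Σ_u hit^2 - K^2 > K^2` (always `≥ 0`, as
`hit ≤ hit^2`), and by `sum_hit_sq` the sum over `y` of `Σ_u hit^2 - K^2` is at most `|G| (K^4 / N + K^4 / (N-1))`.
-/

namespace Pool.Agent.RSC

open Finset

variable {G X : Type} [Group G] [Fintype G] [DecidableEq G] [MulAction G X] [Fintype X] [DecidableEq X]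

private theorem gr_mem (y : G) (Y : Finset X) (u : X) : u ∈ orb y Y ↔ ∃ m : ℕ, ∃ v ∈ Y, u = y ^ m • v := by
  classical
  unfold orb
  exact ⟨fun h => (Finset.mem_filter.1 h).2, fun h => Finset.mem_filter.2 ⟨Finset.mem_univ _, h⟩⟩

private theorem gr_cs (y : G) (Y Y' : Finset X) (hY' : Y' ⊆ Y) (J : ℕ) :
    (∑ u : X, (hit y Y' J u : ℝ)) ^ 2 ≤ ((orb y Y).card : ℝ) * ∑ u : X, (hit y Y' J u : ℝ) ^ 2 := by
  have h1 : ∑ u : X, (hit y Y' J u : ℝ) = ∑ u ∈ orb y Y, (hit y Y' J u : ℝ) := by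
    refine (Finset.sum_subset (Finset.subset_univ _) ?_).symm
    intro u _ hu
    by_contra hne
    have h2 : hit y Y' J u ≠ 0 := fun h0 => hne (by rw [h0]; simp)
    have h3 := mem_orb_of_hit y Y' J u h2
    apply hu
    obtain ⟨m, v, hv, hm⟩ := (gr_mem y Y' u).1 h3
    exact (gr_mem y Y u).2 ⟨m, v, hY' hv, hm⟩
  rw [h1]
  refine (sq_sum_le_card_mul_sum_sq).trans ?_
  refine mul_le_mul_of_nonneg_left ?_ (Nat.cast_nonneg _)
  exact Finset.sum_le_univ_sum_of_nonneg fun u => sq_nonneg _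

theorem grow (h : Nice G X) (h2 : 2 ≤ Fintype.card X) (Y : Finset X) (K : ℕ) (hK : 1 ≤ K)
    (hY : K ≤ Y.card) :
    ((univ.filter fun y : G => 2 * (orb y Y).card < K ^ 2).card : ℝ) ≤
      Fintype.card G * ((K : ℝ) ^ 2 / Fintype.card X + (K : ℝ) ^ 2 / (Fintype.card X - 1)) := by
  obtain ⟨Y', hY', hc⟩ := Finset.exists_subset_card_eq hY
  have hs := sum_hit_sq h h2 Y' K
  rw [hc] at hs
  have hK0 : (0 : ℝ) < K := by exact_mod_cast hK
  have hK1 : (1 : ℝ) ≤ K := by exact_mod_cast hK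
  have hN : (2 : ℝ) ≤ Fintype.card X := by exact_mod_cast h2
  have hsum : ∀ y : G, ∑ u : X, (hit y Y' K u : ℝ) = (K : ℝ) ^ 2 := by
    intro y
    have h1 := sum_hit y Y' K
    rw [hc] at h1
    rw [← Nat.cast_sum, h1]
    push_cast
    ring
  have h1 : ∀ y : G, (K : ℝ) ^ 2 ≤ ∑ u : X, (hit y Y' K u : ℝ) ^ 2 := by
    intro y
    rw [← hsum y]
    refine Finset.sum_le_sum fun u _ => ?_
    rcases Nat.eq_zero_or_pos (hit y Y' K u) with h0 | h0
    · rw [h0]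
      simp
    · have h5 : (1 : ℝ) ≤ (hit y Y' K u : ℝ) := by exact_mod_cast h0
      nlinarith
  have h3 : ∀ y : G, 2 * (orb y Y).card < K ^ 2 → 2 * (K : ℝ) ^ 2 ≤ ∑ u : X, (hit y Y' K u : ℝ) ^ 2 := by
    intro y hy
    have h4 := gr_cs y Y Y' hY' K
    rw [hsum y] at h4
    have h5 : 2 * ((orb y Y).card : ℝ) ≤ (K : ℝ) ^ 2 := by exact_mod_cast hy.le
    have h6 := h1 y
    have h7 : (0 : ℝ) < (K : ℝ) ^ 2 := by positivity
    by_contra hcon
    push Not at hcon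
    nlinarith
  set bad := univ.filter fun y : G => 2 * (orb y Y).card < K ^ 2 with hbad
  have h4 : (bad.card : ℝ) * (K : ℝ) ^ 2 ≤ ∑ y : G, ((∑ u : X, (hit y Y' K u : ℝ) ^ 2) - (K : ℝ) ^ 2) := by
    calc (bad.card : ℝ) * (K : ℝ) ^ 2 = ∑ _y ∈ bad, (K : ℝ) ^ 2 := by
          rw [Finset.sum_const, nsmul_eq_mul]
      _ ≤ ∑ y ∈ bad, ((∑ u : X, (hit y Y' K u : ℝ) ^ 2) - (K : ℝ) ^ 2) := by
          refine Finset.sum_le_sum fun y hy => ?_
          have h5 := h3 y (Finset.mem_filter.1 hy).2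
          linarith
      _ ≤ ∑ y : G, ((∑ u : X, (hit y Y' K u : ℝ) ^ 2) - (K : ℝ) ^ 2) :=
          Finset.sum_le_univ_sum_of_nonneg fun y => by
            have := h1 y
            linarith
  rw [Finset.sum_sub_distrib, Finset.sum_const, nsmul_eq_mul, Finset.card_univ] at h4
  have h5 : (bad.card : ℝ) * (K : ℝ) ^ 2 ≤
      (Fintype.card G * ((K : ℝ) ^ 2 / Fintype.card X + (K : ℝ) ^ 2 / (Fintype.card X - 1))) * (K : ℝ) ^ 2 := by
    refine h4.trans ?_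
    refine (sub_le_sub_right hs _).trans (le_of_eq ?_)
    ring
  exact le_of_mul_le_mul_right h5 (by positivity)

end Pool.Agent.RSC
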