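import Pool.Agent.RSC.Sta
import Pool.Agent.RSC.Grow
import Pool.Agent.RSC.Cov

/-!
# RSC module PROBR: three handles reach a given point, explicit rate

`N = |X| = t^8`, `K = ⌊t^3⌋`, `J = ⌈t^4⌉`.  `R = x_0 orb y_0 (x_1 orb y_1 (x_2 orb y_2 {p}))` is the set of the points
`pw x y e 3 • p`.  Bad events: (1) `|orb y_2 {p}| < K`: proportion `≤ K^2 / N ≤ 1 / t^2` (`start`).  (2) given
`Y = x_2 orb y_2 {p}` with `|Y| ≥ K`: `2 |orb y_1 Y| < K^2`: proportion `≤ K^2/N + K^2/(N-1) ≤ 3 / t^2`.  (3) given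
`Y = x_1 orb y_1 (..)` with `|Y| ≥ K^2 / 2 ≥ t^6 / 8` (`K ≥ t^3 / 2`): `q ∉ x_0 orb y_0 Y`: by `trans_count`
(`x_0⁻¹ • q` is uniform) the proportion is the mean over `y_0` of `1 - |orb y_0 Y| / N`, by `cover` at most
`N / (J |Y|) + J / |Y| + 1 / (N-1) ≤ 8 / t^2 + 16 / t^2 + 2 / t^2`.  Sum `≤ 30 / t^2`.
-/

namespace Pool.Agent.RSC

open Finset

namespace PR

section
variable {G X : Type} [Group G] [Fintype G] [DecidableEq G] [MulAction G X] [Fintype X] [DecidableEq X]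

/-- The translate of a set. -/
private def tr (x : G) (Y : Finset X) : Finset X := Y.image fun u => x • u

private theorem card_tr (x : G) (Y : Finset X) : (tr x Y).card = Y.card :=
  card_image_of_injective _ (MulAction.injective x)

private theorem sum_ite_out (h : Nice G X) (h2 : 2 ≤ Fintype.card X) (q : X) (Z : Finset X) :
    (∑ x : G, if x⁻¹ • q ∈ Z then (0 : ℝ) else 1) * Fintype.card X =
      Fintype.card G * ((Fintype.card X : ℝ) - Z.card) := by
  have h1 : (∑ x : G, if x⁻¹ • q ∈ Z then (0 : ℝ) else 1) =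
      ∑ x : G, if x • q ∈ Z then (0 : ℝ) else 1 :=
    Fintype.sum_equiv (Equiv.inv G) _ _ (fun x => rfl)
  have h3 : (∑ x : G, if x • q ∈ Z then (0 : ℝ) else 1) =
      Fintype.card G - (univ.filter fun x : G => x • q ∈ Z).card := by
    have h31 : ∀ x : G, (if x • q ∈ Z then (0 : ℝ) else 1) =
        1 - (if x • q ∈ Z then (1 : ℝ) else 0) := by
      intro x
      split_ifs <;> norm_num
    rw [sum_congr rfl (fun x _ => h31 x), sum_sub_distrib, sum_boole]
    simp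
  have h4 := trans_count h h2 q Z
  have h5 : ((univ.filter fun x : G => x • q ∈ Z).card : ℝ) * Fintype.card X =
      Z.card * Fintype.card G := by
    exact_mod_cast h4
  rw [h1, h3, sub_mul, h5]
  ring

end

section
variable (G : Type) {X : Type} [Group G] [Fintype G] [DecidableEq G] [MulAction G X] [Fintype X]
  [DecidableEq X]

/-- Last step. -/
private noncomputable def W (q : X) (Y : Finset X) : ℝ :=
  ∑ y : G, ∑ x : G, if x⁻¹ • q ∈ orb y Y then (0 : ℝ) else 1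

/-- Last two steps. -/
private noncomputable def V (q : X) (Z : Finset X) : ℝ :=
  ∑ y : G, ∑ x : G, W G q (tr x (orb y Z))

/-- All steps. -/
private noncomputable def U (q p : X) : ℝ :=
  ∑ y : G, ∑ x : G, V G q (tr x (orb y {p}))

private theorem W_triv (q : X) (Y : Finset X) : W G q Y ≤ (Fintype.card G : ℝ) ^ 2 := by
  unfold W
  calc (∑ y : G, ∑ x : G, if x⁻¹ • q ∈ orb y Y then (0 : ℝ) else 1)
      ≤ ∑ y : G, ∑ x : G, (1 : ℝ) := by
        refine sum_le_sum fun y _ => sum_le_sum fun x _ => ?_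
        split_ifs <;> norm_num
    _ = (Fintype.card G : ℝ) ^ 2 := by
        simp [pow_two]

private theorem V_triv (q : X) (Z : Finset X) : V G q Z ≤ (Fintype.card G : ℝ) ^ 4 := by
  unfold V
  calc (∑ y : G, ∑ x : G, W G q (tr x (orb y Z)))
      ≤ ∑ y : G, ∑ x : G, (Fintype.card G : ℝ) ^ 2 :=
        sum_le_sum fun y _ => sum_le_sum fun x _ => W_triv G q _
    _ = (Fintype.card G : ℝ) ^ 4 := by
        simp only [sum_const, card_univ, nsmul_eq_mul]
        ring

private theorem W_small (h : Nice G X) (h2 : 2 ≤ Fintype.card X) (t : ℝ) (ht : 1 ≤ t)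
    (htN : t ^ 8 = Fintype.card X) (q : X) (Y : Finset X) (hY : t ^ 6 / 8 ≤ Y.card) :
    W G q Y ≤ 26 * (Fintype.card G : ℝ) ^ 2 / t ^ 2 := by
  have ht0 : 0 < t := by linarith
  have hN2 : (2 : ℝ) ≤ Fintype.card X := by exact_mod_cast h2
  have hYpos : (0 : ℝ) < Y.card := lt_of_lt_of_le (by positivity) hY
  have hYne : Y.Nonempty := by
    rw [← card_pos]
    exact_mod_cast hYpos
  have ht4 : (1 : ℝ) ≤ t ^ 4 := one_le_pow₀ ht
  have hJ1 : t ^ 4 ≤ (⌈t ^ 4⌉₊ : ℝ) := Nat.le_ceil _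
  have hJ2 : (⌈t ^ 4⌉₊ : ℝ) ≤ 2 * t ^ 4 := by
    have := Nat.ceil_lt_add_one (show (0 : ℝ) ≤ t ^ 4 by positivity)
    linarith
  have hJ : 1 ≤ ⌈t ^ 4⌉₊ := by
    have : (1 : ℝ) ≤ (⌈t ^ 4⌉₊ : ℝ) := ht4.trans hJ1
    exact_mod_cast this
  set J : ℕ := ⌈t ^ 4⌉₊ with hJdef
  have hJpos : (0 : ℝ) < J := by linarith
  have hc := cover h h2 Y hYne J hJ
  set N : ℝ := (Fintype.card X : ℝ) with hNdef
  set g : ℝ := (Fintype.card G : ℝ) with hgdef
  have hg : 0 ≤ g := by positivity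
  have hNpos : 0 < N := by linarith
  have hW : W G q Y * N = g * ∑ y : G, (N - (orb y Y).card) := by
    unfold W
    rw [sum_mul, mul_sum]
    exact sum_congr rfl fun y _ => sum_ite_out h h2 q (orb y Y)
  have hW2 : W G q Y * N ≤ (g ^ 2 * (N / (J * Y.card) + J / Y.card + 1 / (N - 1))) * N := by
    rw [hW]
    calc g * ∑ y : G, (N - (orb y Y).card)
        ≤ g * (g * N ^ 2 * (1 / (J * Y.card) + J / (N * Y.card) + 1 / (N * (N - 1)))) :=
          mul_le_mul_of_nonneg_left hc hg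
      _ = (g ^ 2 * (N / (J * Y.card) + J / Y.card + 1 / (N - 1))) * N := by
          have h1 : N - 1 ≠ 0 := by linarith
          field_simp
  have hW3 : W G q Y ≤ g ^ 2 * (N / (J * Y.card) + J / Y.card + 1 / (N - 1)) :=
    le_of_mul_le_mul_right hW2 hNpos
  have e1 : N / (J * Y.card) ≤ 8 / t ^ 2 := by
    rw [div_le_div_iff₀ (by positivity) (by positivity), ← htN]
    have : t ^ 4 * (t ^ 6 / 8) ≤ J * Y.card := mul_le_mul hJ1 hY (by positivity) hJpos.le
    nlinarith [this]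
  have e2 : (J : ℝ) / Y.card ≤ 16 / t ^ 2 := by
    rw [div_le_div_iff₀ (by positivity) (by positivity)]
    have : (J : ℝ) * t ^ 2 ≤ 2 * t ^ 4 * t ^ 2 := mul_le_mul_of_nonneg_right hJ2 (by positivity)
    nlinarith [this, hY]
  have e3 : 1 / (N - 1) ≤ 2 / t ^ 2 := by
    rw [div_le_div_iff₀ (by linarith) (by positivity)]
    have h8 : t ^ 2 ≤ t ^ 8 := pow_le_pow_right₀ ht (by norm_num)
    nlinarith [h8, htN]
  calc W G q Y ≤ g ^ 2 * (N / (J * Y.card) + J / Y.card + 1 / (N - 1)) := hW3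
    _ ≤ g ^ 2 * (8 / t ^ 2 + 16 / t ^ 2 + 2 / t ^ 2) :=
        mul_le_mul_of_nonneg_left (by linarith) (by positivity)
    _ = 26 * g ^ 2 / t ^ 2 := by ring

private theorem V_small (h : Nice G X) (h2 : 2 ≤ Fintype.card X) (t : ℝ) (ht : 1 ≤ t)
    (htN : t ^ 8 = Fintype.card X) (q : X) (Z : Finset X) (hZ : ⌊t ^ 3⌋₊ ≤ Z.card) :
    V G q Z ≤ 29 * (Fintype.card G : ℝ) ^ 4 / t ^ 2 := by
  have ht0 : 0 < t := by linarith
  have hN2 : (2 : ℝ) ≤ Fintype.card X := by exact_mod_cast h2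
  have ht3 : (1 : ℝ) ≤ t ^ 3 := one_le_pow₀ ht
  have hK1 : (⌊t ^ 3⌋₊ : ℝ) ≤ t ^ 3 := Nat.floor_le (by positivity)
  have hK : 1 ≤ ⌊t ^ 3⌋₊ := Nat.le_floor (by simpa using ht3)
  have hK2 : t ^ 3 / 2 ≤ (⌊t ^ 3⌋₊ : ℝ) := by
    have h1 := Nat.lt_floor_add_one (t ^ 3)
    have h3 : (1 : ℝ) ≤ (⌊t ^ 3⌋₊ : ℝ) := by exact_mod_cast hK
    linarith
  have hbad := grow h h2 Z ⌊t ^ 3⌋₊ hK hZ
  set K : ℕ := ⌊t ^ 3⌋₊ with hKdef
  set N : ℝ := (Fintype.card X : ℝ) with hNdef
  set g : ℝ := (Fintype.card G : ℝ) with hgdef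
  have hg : 0 ≤ g := by positivity
  have hNpos : 0 < N := by linarith
  have hKsq : (K : ℝ) ^ 2 ≤ t ^ 6 := by
    calc (K : ℝ) ^ 2 ≤ (t ^ 3) ^ 2 := pow_le_pow_left₀ (by positivity) hK1 2
      _ = t ^ 6 := by ring
  have hKsq2 : t ^ 6 / 4 ≤ (K : ℝ) ^ 2 := by
    calc t ^ 6 / 4 = (t ^ 3 / 2) ^ 2 := by ring
      _ ≤ (K : ℝ) ^ 2 := pow_le_pow_left₀ (by positivity) hK2 2
  have f1 : (K : ℝ) ^ 2 / N ≤ 1 / t ^ 2 := by
    rw [div_le_div_iff₀ hNpos (by positivity), ← htN]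
    nlinarith [mul_le_mul_of_nonneg_right hKsq (show (0 : ℝ) ≤ t ^ 2 by positivity)]
  have f2 : (K : ℝ) ^ 2 / (N - 1) ≤ 2 / t ^ 2 := by
    rw [div_le_div_iff₀ (by linarith) (by positivity)]
    have : (K : ℝ) ^ 2 * t ^ 2 ≤ N := by
      rw [← htN]
      nlinarith [mul_le_mul_of_nonneg_right hKsq (show (0 : ℝ) ≤ t ^ 2 by positivity)]
    linarith
  have hb : ((univ.filter fun y : G => 2 * (orb y Z).card < K ^ 2).card : ℝ) ≤ g * (3 / t ^ 2) := by
    refine hbad.trans (mul_le_mul_of_nonneg_left ?_ hg)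
    have : (3 : ℝ) / t ^ 2 = 1 / t ^ 2 + 2 / t ^ 2 := by ring
    linarith
  have key : ∀ y : G, (∑ x : G, W G q (tr x (orb y Z))) ≤
      g ^ 3 * (if 2 * (orb y Z).card < K ^ 2 then (1 : ℝ) else 0) + 26 * g ^ 3 / t ^ 2 := by
    intro y
    by_cases hy : 2 * (orb y Z).card < K ^ 2
    · rw [if_pos hy]
      calc (∑ x : G, W G q (tr x (orb y Z))) ≤ ∑ x : G, g ^ 2 := sum_le_sum fun x _ => W_triv G q _
        _ = g ^ 3 := by
            simp only [sum_const, card_univ, nsmul_eq_mul]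
            rw [← hgdef]
            ring
        _ ≤ g ^ 3 * 1 + 26 * g ^ 3 / t ^ 2 := by
            have : 0 ≤ 26 * g ^ 3 / t ^ 2 := by positivity
            linarith
    · rw [if_neg hy]
      have hy2 : (K : ℝ) ^ 2 ≤ 2 * (orb y Z).card := by
        push Not at hy
        exact_mod_cast hy
      calc (∑ x : G, W G q (tr x (orb y Z))) ≤ ∑ x : G, 26 * g ^ 2 / t ^ 2 := by
            refine sum_le_sum fun x _ => W_small G h h2 t ht htN q _ ?_
            rw [card_tr]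
            linarith
        _ = g ^ 3 * 0 + 26 * g ^ 3 / t ^ 2 := by
            simp only [sum_const, card_univ, nsmul_eq_mul]
            rw [← hgdef]
            ring
  unfold V
  calc (∑ y : G, ∑ x : G, W G q (tr x (orb y Z)))
      ≤ ∑ y : G, (g ^ 3 * (if 2 * (orb y Z).card < K ^ 2 then (1 : ℝ) else 0) +
          26 * g ^ 3 / t ^ 2) := sum_le_sum fun y _ => key y
    _ = g ^ 3 * ((univ.filter fun y : G => 2 * (orb y Z).card < K ^ 2).card : ℝ) +
          26 * g ^ 4 / t ^ 2 := by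
        rw [sum_add_distrib, ← mul_sum, sum_boole]
        simp only [sum_const, card_univ, nsmul_eq_mul]
        rw [← hgdef]
        ring
    _ ≤ g ^ 3 * (g * (3 / t ^ 2)) + 26 * g ^ 4 / t ^ 2 := by
        have := mul_le_mul_of_nonneg_left hb (show 0 ≤ g ^ 3 by positivity)
        linarith
    _ = 29 * g ^ 4 / t ^ 2 := by ring

private theorem U_small (h : Nice G X) (h2 : 2 ≤ Fintype.card X) (t : ℝ) (ht : 1 ≤ t)
    (htN : t ^ 8 = Fintype.card X) (q p : X) :
    U G q p ≤ 30 * (Fintype.card G : ℝ) ^ 6 / t ^ 2 := by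
  have ht0 : 0 < t := by linarith
  have hN2 : (2 : ℝ) ≤ Fintype.card X := by exact_mod_cast h2
  have hK1 : (⌊t ^ 3⌋₊ : ℝ) ≤ t ^ 3 := Nat.floor_le (by positivity)
  have hbad := start h p ⌊t ^ 3⌋₊
  set K : ℕ := ⌊t ^ 3⌋₊ with hKdef
  set N : ℝ := (Fintype.card X : ℝ) with hNdef
  set g : ℝ := (Fintype.card G : ℝ) with hgdef
  have hg : 0 ≤ g := by positivity
  have hNpos : 0 < N := by linarith
  have hKsq : (K : ℝ) ^ 2 ≤ t ^ 6 := by
    calc (K : ℝ) ^ 2 ≤ (t ^ 3) ^ 2 := pow_le_pow_left₀ (by positivity) hK1 2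
      _ = t ^ 6 := by ring
  have hb : ((univ.filter fun y : G => (orb y {p}).card < K).card : ℝ) ≤ g * (1 / t ^ 2) := by
    have h1 : ((univ.filter fun y : G => (orb y {p}).card < K).card : ℝ) * N ≤
        (g * (1 / t ^ 2)) * N := by
      refine hbad.trans ?_
      rw [← htN]
      have : (K : ℝ) ^ 2 * g ≤ t ^ 6 * g := mul_le_mul_of_nonneg_right hKsq hg
      refine this.trans (le_of_eq ?_)
      field_simp
    exact le_of_mul_le_mul_right h1 hNpos
  have key : ∀ y : G, (∑ x : G, V G q (tr x (orb y {p}))) ≤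
      g ^ 5 * (if (orb y {p}).card < K then (1 : ℝ) else 0) + 29 * g ^ 5 / t ^ 2 := by
    intro y
    by_cases hy : (orb y {p}).card < K
    · rw [if_pos hy]
      calc (∑ x : G, V G q (tr x (orb y {p}))) ≤ ∑ x : G, g ^ 4 :=
            sum_le_sum fun x _ => V_triv G q _
        _ = g ^ 5 := by
            simp only [sum_const, card_univ, nsmul_eq_mul]
            rw [← hgdef]
            ring
        _ ≤ g ^ 5 * 1 + 29 * g ^ 5 / t ^ 2 := by
            have : 0 ≤ 29 * g ^ 5 / t ^ 2 := by positivity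
            linarith
    · rw [if_neg hy]
      push Not at hy
      calc (∑ x : G, V G q (tr x (orb y {p}))) ≤ ∑ x : G, 29 * g ^ 4 / t ^ 2 := by
            refine sum_le_sum fun x _ => V_small G h h2 t ht htN q _ ?_
            rw [card_tr]
            exact hy
        _ = g ^ 5 * 0 + 29 * g ^ 5 / t ^ 2 := by
            simp only [sum_const, card_univ, nsmul_eq_mul]
            rw [← hgdef]
            ring
  unfold U
  calc (∑ y : G, ∑ x : G, V G q (tr x (orb y {p})))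
      ≤ ∑ y : G, (g ^ 5 * (if (orb y {p}).card < K then (1 : ℝ) else 0) +
          29 * g ^ 5 / t ^ 2) := sum_le_sum fun y _ => key y
    _ = g ^ 5 * ((univ.filter fun y : G => (orb y {p}).card < K).card : ℝ) +
          29 * g ^ 6 / t ^ 2 := by
        rw [sum_add_distrib, ← mul_sum, sum_boole]
        simp only [sum_const, card_univ, nsmul_eq_mul]
        rw [← hgdef]
        ring
    _ ≤ g ^ 5 * (g * (1 / t ^ 2)) + 29 * g ^ 6 / t ^ 2 := by
        have := mul_le_mul_of_nonneg_left hb (show 0 ≤ g ^ 5 by positivity)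
        linarith
    _ = 30 * g ^ 6 / t ^ 2 := by ring

private theorem mem_orb {y : G} {Y : Finset X} {u : X} :
    u ∈ orb y Y ↔ ∃ m : ℕ, ∃ v ∈ Y, u = y ^ m • v := by
  classical
  simp [orb]

private theorem count_le (q p : X) :
    (Nat.card {w : (Fin 3 → G) × (Fin 3 → G) // Miss p q w} : ℝ) ≤ U G q p := by
  classical
  have hU : U G q p = ((univ.filter fun w : G × G × G × G × G × G =>
      ¬ (w.2.2.2.2.2⁻¹ • q ∈ orb w.2.2.2.2.1 (tr w.2.2.2.1 (orb w.2.2.1 (tr w.2.1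
        (orb w.1 {p})))))).card : ℝ) := by
    rw [card_filter]
    push_cast
    simp only [Fintype.sum_prod_type]
    show (∑ y2 : G, ∑ x2 : G, ∑ y1 : G, ∑ x1 : G, ∑ y0 : G, ∑ x0 : G, _) = _
    refine sum_congr rfl fun y2 _ => sum_congr rfl fun x2 _ => sum_congr rfl fun y1 _ =>
      sum_congr rfl fun x1 _ => sum_congr rfl fun y0 _ => sum_congr rfl fun x0 _ => ?_
    by_cases hh : x0⁻¹ • q ∈ orb y0 (tr x1 (orb y1 (tr x2 (orb y2 {p}))))
    · rw [if_pos hh, if_neg (not_not.2 hh)]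
    · rw [if_neg hh, if_pos hh]
  rw [hU, Nat.card_eq_fintype_card, Fintype.card_subtype]
  norm_cast
  refine card_le_card_of_injOn (fun w => (w.2 2, w.1 2, w.2 1, w.1 1, w.2 0, w.1 0)) ?_ ?_
  · intro w hw
    have hw' : Miss p q w := by simpa using hw
    simp only [coe_filter, mem_univ, true_and, Set.mem_ofPred_eq]
    intro hmem
    obtain ⟨m0, v0, hv0, e0⟩ := (mem_orb G).1 hmem
    obtain ⟨v1, hv1, e1⟩ := mem_image.1 hv0
    obtain ⟨m1, v2, hv2, e2⟩ := (mem_orb G).1 hv1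
    obtain ⟨v3, hv3, e3⟩ := mem_image.1 hv2
    obtain ⟨m2, v4, hv4, e4⟩ := (mem_orb G).1 hv3
    rw [mem_singleton] at hv4
    refine hw' (fun j => if j = 0 then m0 else if j = 1 then m1 else m2) ?_
    have hq : q = w.1 0 • (w.2 0 ^ m0 • v0) := by
      rw [← e0, smul_inv_smul]
    have hpw : pw (fun j => w.1 (Fin.ofNat 3 j)) (fun j => w.2 (Fin.ofNat 3 j))
        (fun j => if j = 0 then m0 else if j = 1 then m1 else m2) 3 =
        1 * (w.1 0 * w.2 0 ^ m0) * (w.1 1 * w.2 1 ^ m1) * (w.1 2 * w.2 2 ^ m2) := rfl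
    rw [hpw, hq, ← e1, e2, ← e3, e4, hv4]
    simp only [one_mul, mul_smul]
  · intro w hw w' hw' e
    simp only [Prod.mk.injEq] at e
    obtain ⟨a1, a2, a3, a4, a5, a6⟩ := e
    refine Prod.ext ?_ ?_
    · funext i
      fin_cases i
      · exact a6
      · exact a4
      · exact a2
    · funext i
      fin_cases i
      · exact a5
      · exact a3
      · exact a1

end

end PR

theorem prob_rate (G X : Type) [Group G] [Finite G] [MulAction G X] [Finite X] (h : Nice G X)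
    (h2 : 2 ≤ Nat.card X) (t : ℝ) (ht : 1 ≤ t) (htN : t ^ 8 = Nat.card X) (p : X) :
    FewMiss (30 / t ^ 2) G p := by
  classical
  have := Fintype.ofFinite G
  have := Fintype.ofFinite X
  rw [Nat.card_eq_fintype_card] at h2 htN
  intro q
  refine (PR.count_le G q p).trans ((PR.U_small G h h2 t ht htN q p).trans (le_of_eq ?_))
  rw [Nat.card_eq_fintype_card]
  ring

end Pool.Agent.RSC
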