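import Pool.Agent.RSC.SLa

/-!
# RSC module SLB: the action of `SL(2, p)` on the cosets of the Borel subgroup

Double transitivity: for cosets `x B ≠ y B` find `s` with `s x B = B`, `s y B = w B`, `w = (0 -1; 1 0)`: with
`z = x⁻¹ y`, `c = z 1 0 ≠ 0`, take `b = (1, -(z 0 0)/c; 0, 1)`, `s = b x⁻¹`.
Powers: `#{y | y^k (x B) = x B} = #{y | y^k ∈ B}` (conjugation), `|G| = |X| |B|`, `pow_count`.
`card`: `|X| ≥ p`: the cosets of `(1 0; t 1)`, `t ∈ ZMod p`, are different (`(1 0; s - t.. 1)` has lower left entry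
`≠ 0`).
-/

namespace Pool.Agent.RSC

open Matrix

private lemma mem_bor (p : ℕ) [Fact p.Prime] (x : SpecialLinearGroup (Fin 2) (ZMod p)) :
    x ∈ bor p ↔ x.1 1 0 = 0 := Iff.rfl

private def wm (p : ℕ) [Fact p.Prime] : SpecialLinearGroup (Fin 2) (ZMod p) :=
  ⟨!![0, -1; 1, 0], by simp [Matrix.det_fin_two]⟩

private def lm (p : ℕ) [Fact p.Prime] (t : ZMod p) : SpecialLinearGroup (Fin 2) (ZMod p) :=
  ⟨!![1, 0; t, 1], by simp [Matrix.det_fin_two]⟩

private lemma std_pair (p : ℕ) [Fact p.Prime]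
    (v w : SpecialLinearGroup (Fin 2) (ZMod p) ⧸ bor p) (hvw : v ≠ w) :
    ∃ s : SpecialLinearGroup (Fin 2) (ZMod p),
      s • v = ((1 : SpecialLinearGroup (Fin 2) (ZMod p)) :
        SpecialLinearGroup (Fin 2) (ZMod p) ⧸ bor p) ∧
      s • w = (wm p : SpecialLinearGroup (Fin 2) (ZMod p) ⧸ bor p) := by
  obtain ⟨x, rfl⟩ := QuotientGroup.mk_surjective v
  obtain ⟨y, rfl⟩ := QuotientGroup.mk_surjective w
  have hc : (x⁻¹ * y).1 1 0 ≠ 0 := fun h => hvw (QuotientGroup.eq.2 ((mem_bor p _).2 h))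
  obtain ⟨z, hz⟩ : ∃ z, z = x⁻¹ * y := ⟨_, rfl⟩
  rw [← hz] at hc
  let b : SpecialLinearGroup (Fin 2) (ZMod p) :=
    ⟨!![1, -(z.1 0 0) / (z.1 1 0); 0, 1], by simp [Matrix.det_fin_two]⟩
  refine ⟨b * x⁻¹, ?_, ?_⟩
  · change ((b * x⁻¹ * x : SpecialLinearGroup (Fin 2) (ZMod p)) :
      SpecialLinearGroup (Fin 2) (ZMod p) ⧸ bor p) = _
    rw [eq_comm]
    refine QuotientGroup.eq.2 ?_
    rw [inv_mul_cancel_right, inv_one, one_mul, mem_bor]
    simp [b]
  · change ((b * x⁻¹ * y : SpecialLinearGroup (Fin 2) (ZMod p)) :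
      SpecialLinearGroup (Fin 2) (ZMod p) ⧸ bor p) = _
    rw [eq_comm]
    refine QuotientGroup.eq.2 ?_
    rw [mul_assoc b, ← hz, mem_bor, Matrix.SpecialLinearGroup.coe_mul,
      Matrix.SpecialLinearGroup.coe_inv, Matrix.SpecialLinearGroup.coe_mul,
      Matrix.adjugate_fin_two]
    simp only [Matrix.mul_apply, Fin.sum_univ_two]
    simp only [b, wm, Matrix.of_apply, Matrix.cons_val', Matrix.cons_val_zero,
      Matrix.cons_val_one, Matrix.cons_val_fin_one, zero_mul, add_zero]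
    field_simp
    ring

theorem nice_sl (p : ℕ) [Fact p.Prime] :
    Nice (SpecialLinearGroup (Fin 2) (ZMod p)) (SpecialLinearGroup (Fin 2) (ZMod p) ⧸ bor p) := by
  refine ⟨fun v w v' w' h h' => ?_, fun k v hk => ?_⟩
  · obtain ⟨s, h1, h2⟩ := std_pair p v w h
    obtain ⟨s', h1', h2'⟩ := std_pair p v' w' h'
    refine ⟨s'⁻¹ * s, ?_, ?_⟩
    · rw [mul_smul, h1, ← h1', inv_smul_smul]
    · rw [mul_smul, h2, ← h2', inv_smul_smul]
  · obtain ⟨x, rfl⟩ := QuotientGroup.mk_surjective v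
    have h1 : Nat.card {y : SpecialLinearGroup (Fin 2) (ZMod p) //
        y ^ k • (x : SpecialLinearGroup (Fin 2) (ZMod p) ⧸ bor p) = x} =
        Nat.card {y : SpecialLinearGroup (Fin 2) (ZMod p) // y ^ k ∈ bor p} := by
      refine Nat.card_congr ((MulAut.conj x⁻¹).toEquiv.subtypeEquiv fun y => ?_)
      have h2 : (MulAut.conj x⁻¹).toEquiv y = x⁻¹ * y * x⁻¹⁻¹ := rfl
      have h3 : (x⁻¹ * y * x⁻¹⁻¹) ^ k = x⁻¹ * (y ^ k * x) := by
        rw [conj_pow, inv_inv, mul_assoc]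
      rw [h2, h3, eq_comm]
      exact QuotientGroup.eq
    rw [h1, Subgroup.card_eq_card_quotient_mul_card_subgroup (bor p)]
    calc _ ≤ k * Nat.card (bor p) *
        Nat.card (SpecialLinearGroup (Fin 2) (ZMod p) ⧸ bor p) :=
          Nat.mul_le_mul_right _ (pow_count p k hk)
      _ = _ := by ring

theorem card_sl (p : ℕ) [Fact p.Prime] :
    p ≤ Nat.card (SpecialLinearGroup (Fin 2) (ZMod p) ⧸ bor p) := by
  let f : ZMod p → SpecialLinearGroup (Fin 2) (ZMod p) ⧸ bor p := fun t => (lm p t : _)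
  have hf : Function.Injective f := by
    intro s t hst
    have h1 : (lm p s)⁻¹ * lm p t ∈ bor p := QuotientGroup.eq.1 hst
    rw [mem_bor, Matrix.SpecialLinearGroup.coe_mul, Matrix.SpecialLinearGroup.coe_inv,
      Matrix.adjugate_fin_two] at h1
    simp [lm, Matrix.mul_apply, Fin.sum_univ_two] at h1
    linear_combination -h1
  have h2 := Nat.card_le_card_of_injective f hf
  rwa [Nat.card_zmod] at h2

end Pool.Agent.RSC
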