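import Pool.Agent.RSC.SLa
import Pool.Agent.PWI.State

/-!
# RSC module SER: the cyclic series

`ker φ ≤ φ⁻¹(U) ≤ φ⁻¹(B)`, `U ≤ B` the matrices `(1 *; 0 1)`.  `B → (ZMod p)ˣ`, `x ↦ x 0 0`, is a homomorphism with kernel
`U`, `U → ZMod p` (`Multiplicative`), `x ↦ x 0 1`, is an injective homomorphism; subgroups of cyclic groups are cyclic,
so the images of `φ⁻¹(B)` and `φ⁻¹(U)` are generated by the image of one element `t`.  General lemma: if
`N ≤ Q` subgroups of a group, `f : Q →* C` with `C` cyclic and kernel `N`, then `N` is normal in `Q` and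
`∃ t ∈ Q, ∀ x ∈ Q, ∃ e : ℤ, x * (t ^ e)⁻¹ ∈ N`.
-/

namespace Pool.Agent.RSC

open Matrix Pool.Agent.PWI

private theorem cyc_step {H C : Type*} [Group H] [Group C] [IsCyclic C] (N Q : Subgroup H)
    (f : Q →* C) (hf : ∀ x : Q, f x = 1 ↔ (x : H) ∈ N) :
    (N.subgroupOf Q).Normal ∧ ∃ t ∈ Q, ∀ x ∈ Q, ∃ e : ℤ, x * (t ^ e)⁻¹ ∈ N := by
  have hk : N.subgroupOf Q = f.ker := by
    ext x
    rw [Subgroup.mem_subgroupOf, MonoidHom.mem_ker]
    exact (hf x).symm
  refine ⟨by rw [hk]; infer_instance, ?_⟩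
  obtain ⟨⟨_, ⟨t, rfl⟩⟩, ht⟩ := IsCyclic.exists_generator (α := f.range)
  refine ⟨t, t.2, fun x hx => ?_⟩
  obtain ⟨e, he⟩ := Subgroup.mem_zpowers_iff.1 (ht ⟨f ⟨x, hx⟩, ⟨⟨x, hx⟩, rfl⟩⟩)
  have he' : f t ^ e = f ⟨x, hx⟩ := by
    have := congrArg Subtype.val he
    simpa using this
  refine ⟨e, ?_⟩
  have h1 : f (⟨x, hx⟩ * (t ^ e)⁻¹) = 1 := by
    rw [map_mul, map_inv, map_zpow, he', mul_inv_cancel]
  have h2 := (hf _).1 h1
  simpa using h2

private theorem bor_det {p : ℕ} [Fact p.Prime] {x : SpecialLinearGroup (Fin 2) (ZMod p)}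
    (hx : x ∈ bor p) : x.1 0 0 * x.1 1 1 = 1 := by
  have h := x.2
  rw [Matrix.det_fin_two] at h
  have h0 : x.1 1 0 = 0 := hx
  rw [h0, mul_zero, sub_zero] at h
  exact h

private theorem mul00 {p : ℕ} [Fact p.Prime] (x y : SpecialLinearGroup (Fin 2) (ZMod p))
    (hy : y ∈ bor p) : (x * y).1 0 0 = x.1 0 0 * y.1 0 0 := by
  have h0 : y.1 1 0 = 0 := hy
  change (x.1 * y.1) 0 0 = _
  rw [Matrix.mul_apply, Fin.sum_univ_two, h0]
  ring

private theorem mul11 {p : ℕ} [Fact p.Prime] (x y : SpecialLinearGroup (Fin 2) (ZMod p))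
    (hx : x ∈ bor p) : (x * y).1 1 1 = x.1 1 1 * y.1 1 1 := by
  have h0 : x.1 1 0 = 0 := hx
  change (x.1 * y.1) 1 1 = _
  rw [Matrix.mul_apply, Fin.sum_univ_two, h0]
  ring

private theorem mul01 {p : ℕ} [Fact p.Prime] (x y : SpecialLinearGroup (Fin 2) (ZMod p)) :
    (x * y).1 0 1 = x.1 0 0 * y.1 0 1 + x.1 0 1 * y.1 1 1 := by
  change (x.1 * y.1) 0 1 = _
  rw [Matrix.mul_apply, Fin.sum_univ_two]

/-- The map `x ↦ x 0 0` of the Borel subgroup. -/
private noncomputable def dg (p : ℕ) [Fact p.Prime] : bor p →* (ZMod p)ˣ where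
  toFun x := ⟨x.1.1 0 0, x.1.1 1 1, bor_det x.2, by rw [mul_comm]; exact bor_det x.2⟩
  map_one' := by
    ext
    simp
  map_mul' x y := by
    ext
    simp only [Units.val_mul]
    exact mul00 _ _ y.2

private theorem dg_one {p : ℕ} [Fact p.Prime] {x : bor p} (hx : dg p x = 1) :
    x.1.1 0 0 = 1 ∧ x.1.1 1 1 = 1 := by
  have h1 : x.1.1 0 0 = 1 := by
    have := congrArg Units.val hx
    simpa [dg] using this
  have h2 := bor_det x.2
  rw [h1, one_mul] at h2
  exact ⟨h1, h2⟩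

/-- The unipotent subgroup. -/
private noncomputable def uni (p : ℕ) [Fact p.Prime] :
    Subgroup (SpecialLinearGroup (Fin 2) (ZMod p)) := (dg p).ker.map (bor p).subtype

private theorem mem_uni {p : ℕ} [Fact p.Prime] {x : SpecialLinearGroup (Fin 2) (ZMod p)} :
    x ∈ uni p ↔ x.1 1 0 = 0 ∧ x.1 0 0 = 1 := by
  constructor
  · rintro ⟨y, hy, rfl⟩
    exact ⟨y.2, (dg_one hy).1⟩
  · rintro ⟨h1, h2⟩
    refine ⟨⟨x, h1⟩, ?_, rfl⟩
    change dg p ⟨x, h1⟩ = 1
    ext
    simpa [dg] using h2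

private theorem uni11 {p : ℕ} [Fact p.Prime] {x : SpecialLinearGroup (Fin 2) (ZMod p)}
    (hx : x ∈ uni p) : x.1 1 1 = 1 := by
  obtain ⟨h1, h2⟩ := mem_uni.1 hx
  have h := bor_det (show x ∈ bor p from h1)
  rwa [h2, one_mul] at h

/-- The map `x ↦ x 0 1` of the unipotent subgroup. -/
private noncomputable def up (p : ℕ) [Fact p.Prime] : uni p →* Multiplicative (ZMod p) where
  toFun x := Multiplicative.ofAdd (x.1.1 0 1)
  map_one' := by
    simp
  map_mul' x y := by
    rw [← ofAdd_add]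
    congr 1
    change (x.1 * y.1).1 0 1 = _
    rw [mul01, (mem_uni.1 x.2).2, uni11 y.2]
    ring

theorem series (p : ℕ) [Fact p.Prime] {H : Type} [Group H]
    (φ : H →* SpecialLinearGroup (Fin 2) (ZMod p)) (M : Subgroup H) (k : ℕ)
    (hM : CycSeries M φ.ker k) : CycSeries M ((bor p).comap φ) (k + 2) := by
  obtain ⟨B, h0, hk, hB⟩ := hM
  let B' : ℕ → Subgroup H := fun i =>
    if i ≤ k then B i else if i = k + 1 then (uni p).comap φ else (bor p).comap φ
  have e1 : ∀ i ≤ k, B' i = B i := fun i hi => by simp only [B', if_pos hi]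
  have e2 : B' (k + 1) = (uni p).comap φ := by
    simp only [B']
    rw [if_neg (by omega), if_pos trivial]
  have e3 : B' (k + 2) = (bor p).comap φ := by
    simp only [B']
    rw [if_neg (by omega), if_neg (by omega)]
  refine ⟨B', by rw [e1 0 (by omega), h0], e3, fun i hi => ?_⟩
  rcases Nat.lt_trichotomy i k with h | h | h
  · rw [e1 i h.le, e1 (i + 1) h]
    exact hB i h
  · subst h
    rw [e2, e1 i le_rfl, hk]
    refine ⟨fun x hx => ?_, ?_⟩
    · rw [Subgroup.mem_comap, hx]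
      exact one_mem _
    · refine cyc_step _ _ ((up p).comp ((φ.comp ((uni p).comap φ).subtype).codRestrict (uni p)
        (fun x => x.2))) (fun x => ?_)
      have hx : φ x.1 ∈ uni p := x.2
      constructor
      · intro h
        have h01 : (φ x.1).1 0 1 = 0 := congrArg Multiplicative.toAdd h
        rw [MonoidHom.mem_ker]
        ext a b
        have h10 := (mem_uni.1 hx).1
        have h00 := (mem_uni.1 hx).2
        have h11 := uni11 hx
        fin_cases a <;> fin_cases b <;> simp [h01, h10, h00, h11]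
      · intro h
        rw [MonoidHom.mem_ker] at h
        change Multiplicative.ofAdd ((φ x.1).1 0 1) = 1
        rw [h]
        simp
  · have : i = k + 1 := by omega
    subst this
    rw [e2, show k + 1 + 1 = k + 2 from rfl, e3]
    refine ⟨fun x hx => ?_, ?_⟩
    · exact (mem_uni.1 hx).1
    · refine cyc_step _ _ ((dg p).comp ((φ.comp ((bor p).comap φ).subtype).codRestrict (bor p)
        (fun x => x.2))) (fun x => ?_)
      have hx : φ x.1 ∈ bor p := x.2
      constructor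
      · intro h
        rw [Subgroup.mem_comap]
        exact mem_uni.2 ⟨hx, (dg_one h).1⟩
      · intro h
        rw [Subgroup.mem_comap] at h
        ext
        change (φ x.1).1 0 0 = 1
        exact (mem_uni.1 h).2

end Pool.Agent.RSC
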