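import Pool.Agent.RSC.Rng
import Pool.Agent.RSC.AsmT
import Pool.Agent.RSC.Cyl
import Pool.Agent.RSC.ProbR
import Pool.Agent.RSC.SLb
import Pool.Agent.RSC.Ser
import Pool.Agent.RGC.HomC
import Pool.Agent.PWM.Fin4

/-!
# RSC module FIN2: the final theorem, closed surfaces included   (helper52)
-/

namespace Pool.Agent.RSC

open Pool.Agent.PWI hiding SuppI Wi
open Pool.Agent.RGC Finset Matrix

/-- For every normal finite index subgroup `M` of `Pi1 g n` joined to the kernel of `φ` by a chain of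
subgroups of cost `k` (`LinCost`) and every finite index subgroup `H` of the mapping class group which contains the point
pushes along the commutators of `M`, every homomorphism `H → Z` is trivial on all point pushes in `H`. -/
def Killed {g n : ℕ} {G : Type} [Group G] (k : ℕ) (φ : Pi1 g n →* G) : Prop :=
  ∀ M : Subgroup (Pi1 g n), M.Normal → M.FiniteIndex → LinCost φ.ker M k →
    ∀ H : Subgroup (Mcg g n), H.FiniteIndex →
    (∀ x ∈ M, ∀ y ∈ M, pushPt (x * y * x⁻¹ * y⁻¹) ∈ H) →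
    ∀ (f : H →* Multiplicative ℤ) (x : Pi1 g n) (hx : pushPt x ∈ H), f ⟨pushPt x, hx⟩ = 1

theorem chain_trans {G : Type} [Group G] {P Q M : Subgroup G} {a b : ℕ} (h1 : LinCost P Q a)
    (h2 : LinCost Q M b) : LinCost P M (a + b) := by
  induction h2 with
  | refl => exact h1
  | cyc _ hle hno hcy ih => exact LinCost.cyc ih hle hno hcy
  | @idx L N c e _ hle hn he ih =>
    have h3 : LinCost P N ((a + c) + e) := LinCost.idx ih hle hn he
    rwa [Nat.add_assoc] at h3
  | @nor L N c e R _ hle hno hn hR he ih =>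
    have h3 : LinCost P N ((a + c) + e) := LinCost.nor ih hle hno hn hR he
    rwa [Nat.add_assoc] at h3

theorem chain_of_series {G : Type} [Group G] {M P : Subgroup G} {k : ℕ} (h : CycSeries M P k) :
    LinCost P M k := by
  obtain ⟨B, h0, h1, hB⟩ := h
  have key : ∀ j ≤ k, LinCost P (B (k - j)) j := by
    intro j
    induction j with
    | zero => intro _; rw [Nat.sub_zero, h1]; exact LinCost.refl
    | succ j ih =>
      intro hj
      obtain ⟨hle, hno, hcy⟩ := hB (k - (j + 1)) (by omega)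
      have e : k - (j + 1) + 1 = k - j := by omega
      rw [e] at hle hno hcy
      exact LinCost.cyc (ih (by omega)) hle hno hcy
  have := key k le_rfl
  rwa [Nat.sub_self, h0] at this

theorem fixiff {p : ℕ} [Fact p.Prime] (x : SpecialLinearGroup (Fin 2) (ZMod p))
    (hx : x • ((1 : SpecialLinearGroup (Fin 2) (ZMod p)) : SpecialLinearGroup (Fin 2) (ZMod p) ⧸ bor p) =
      ((1 : SpecialLinearGroup (Fin 2) (ZMod p)) : SpecialLinearGroup (Fin 2) (ZMod p) ⧸ bor p)) :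
    x ∈ bor p := by
  have h1 : (x : SpecialLinearGroup (Fin 2) (ZMod p) ⧸ bor p) =
      ((1 : SpecialLinearGroup (Fin 2) (ZMod p)) : SpecialLinearGroup (Fin 2) (ZMod p) ⧸ bor p) := by
    rw [← hx, MulAction.Quotient.smul_mk, smul_eq_mul, mul_one]
  have h2 := QuotientGroup.eq.1 h1.symm
  simpa using h2

/-- The topological step. -/
theorem killed_of {p : ℕ} [Fact p.Prime] {g n k : ℕ}
    (ρ : SG g n →* SpecialLinearGroup (Fin 2) (ZMod p)) (τ : ℕ → ℕ)
    (hτ : ∀ i j, i < j → j < k + 4 → τ i < τ j) (hg : ∀ i < k + 4, τ i * 7 + 7 ≤ g)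
    (h : ∀ i < k + 4, ∃ T : PMod g n, SuppI T (τ i * 7) (τ i * 7 + 7) ∧
      ρ (T.1 (sa (τ i * 7))) ∈ bor p ∧ ρ (T.1 (sb (τ i * 7))) ∈ bor p) :
    Killed (g := g) (n := n) k ρ := by
  intro M hM hMf hser H hH hcomm f x hx
  obtain ⟨T, hT⟩ := asmT (g := g) (n := n) ((bor p).comap ρ) (k + 4) τ hτ hg h
  have hHH : HasHandles (g := g) (n := n) ((bor p).comap ρ) (2 + k + 2) :=
    ⟨T, fun i hi => hT i (by omega)⟩
  have hS : CycSeries ρ.ker ((bor p).comap ρ) (0 + 2) :=
    series p ρ ρ.ker 0 ⟨fun _ => ρ.ker, rfl, rfl, fun i hi => absurd hi (Nat.not_lt_zero _)⟩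
  have hC : LinCost ((bor p).comap ρ) M (2 + k) := chain_trans (chain_of_series hS) hser
  have h1 : k + 3 ≤ τ (k + 3) := by
    have : ∀ i < k + 4, i ≤ τ i := by
      intro i
      induction i with
      | zero => intro _; exact Nat.zero_le _
      | succ i ih =>
        intro hi
        have := hτ i (i + 1) (Nat.lt_succ_self i) hi
        have := ih (by omega)
        omega
    exact this _ (by omega)
  have h2 := hg (k + 3) (by omega)
  exact main6 g n (by omega) H M ((bor p).comap ρ) (2 + k) (by omega) hC hHH hcomm f x hx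

/-- The number of bad homomorphisms for a bad set of tuples. -/
theorem count_bad_set {p : ℕ} [Fact p.Prime] {g n k : ℕ}
    [DecidableEq (SpecialLinearGroup (Fin 2) (ZMod p))]
    (A : Finset (Fin g ⊕ Fin g → SpecialLinearGroup (Fin 2) (ZMod p)))
    (h : ∀ ρ : SG g n →* SpecialLinearGroup (Fin 2) (ZMod p), im ρ ∉ A →
      Killed (g := g) (n := n) k ρ) :
    Nat.card {φ : Pi1 g n →* SpecialLinearGroup (Fin 2) (ZMod p) // ¬ Killed k φ} ≤
      A.card * Fintype.card (SpecialLinearGroup (Fin 2) (ZMod p)) ^ (n - 1) := by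
  have hfin := hom_finite g n (SpecialLinearGroup (Fin 2) (ZMod p))
  refine le_trans (Nat.card_le_card_of_injective
      (fun ρ => (⟨ρ.1, ?_⟩ : {ρ : SG g n →* SpecialLinearGroup (Fin 2) (ZMod p) // im ρ ∈ A})) ?_)
      (hom_upper A)
  · by_contra hc
    exact ρ.2 (h ρ.1 hc)
  · intro ρ ρ' hρ
    exact Subtype.ext (congrArg
      (fun x : {ρ : SG g n →* SpecialLinearGroup (Fin 2) (ZMod p) // im ρ ∈ A} => x.1) hρ)

/-- Surfaces with punctures. -/
theorem few_pos {p : ℕ} [Fact p.Prime] (k : ℕ) (δ : ℝ)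
    (hFM : FewMiss δ (SpecialLinearGroup (Fin 2) (ZMod p))
      ((1 : SpecialLinearGroup (Fin 2) (ZMod p)) : SpecialLinearGroup (Fin 2) (ZMod p) ⧸ bor p))
    (g n : ℕ) (hg : 7 * (k + 4) ≤ g) (hn : 1 ≤ n) (hδ : 0 ≤ δ) :
    (Nat.card {φ : Pi1 g n →* SpecialLinearGroup (Fin 2) (ZMod p) // ¬ Killed k φ} : ℝ) ≤
      2 * (k + 4) * δ * Nat.card (Pi1 g n →* SpecialLinearGroup (Fin 2) (ZMod p)) := by
  classical
  set G := SpecialLinearGroup (Fin 2) (ZMod p) with hG
  have hr : ∀ t : ℕ, ∃ A : Finset (Fin g ⊕ Fin g → G), t < k + 4 →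
      ((A.card : ℝ) ≤ 2 * δ * (Fintype.card G : ℝ) ^ (2 * g) ∧
      ∀ ρ : SG g n →* G, im ρ ∉ A → ∃ T : PMod g n, SuppI T (t * 7) (t * 7 + 7) ∧
        ρ (T.1 (sa (t * 7))) ∈ bor p ∧ ρ (T.1 (sb (t * 7))) ∈ bor p) := by
    intro t
    by_cases ht : t < k + 4
    · obtain ⟨A, hA1, hA2, -⟩ := rng (g := g) (n := n) _ _ hFM (t * 7) (by omega)
      refine ⟨A, fun _ => ⟨hA1, fun ρ hρ => ?_⟩⟩
      obtain ⟨T, h1, h2, h3⟩ := hA2 ρ hρ
      exact ⟨T, h1, fixiff _ h2, fixiff _ h3⟩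
    · exact ⟨∅, fun h => absurd h ht⟩
  choose A hA using hr
  set AA := (range (k + 4)).biUnion A with hAA
  have hAAc : (AA.card : ℝ) ≤ 2 * (k + 4) * δ * (Fintype.card G : ℝ) ^ (2 * g) := by
    calc (AA.card : ℝ) ≤ ∑ t ∈ range (k + 4), ((A t).card : ℝ) := by
          exact_mod_cast card_biUnion_le
      _ ≤ ∑ _t ∈ range (k + 4), 2 * δ * (Fintype.card G : ℝ) ^ (2 * g) :=
          Finset.sum_le_sum fun t ht => (hA t (mem_range.1 ht)).1
      _ = 2 * (k + 4) * δ * (Fintype.card G : ℝ) ^ (2 * g) := by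
          rw [sum_const, card_range, nsmul_eq_mul]
          push_cast
          ring
  have h1 := count_bad_set (g := g) (n := n) (k := k) AA (fun ρ hρ =>
    killed_of ρ id (fun i j hij _ => hij) (fun i hi => by simp only [id]; omega)
      (fun t ht => (hA t ht).2 ρ fun hmem => hρ (mem_biUnion.2 ⟨t, mem_range.2 ht, hmem⟩)))
  have h2 := hom_lower_pos g n hn G
  calc (Nat.card {φ : Pi1 g n →* G // ¬ Killed k φ} : ℝ)
      ≤ (AA.card : ℝ) * (Fintype.card G : ℝ) ^ (n - 1) := by exact_mod_cast h1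
    _ ≤ 2 * (k + 4) * δ * (Fintype.card G : ℝ) ^ (2 * g) * (Fintype.card G : ℝ) ^ (n - 1) :=
        mul_le_mul_of_nonneg_right hAAc (by positivity)
    _ = 2 * (k + 4) * δ * (Fintype.card G : ℝ) ^ (2 * g + (n - 1)) := by rw [pow_add]; ring
    _ ≤ 2 * (k + 4) * δ * Nat.card (SG g n →* G) := by
        apply mul_le_mul_of_nonneg_left _ (by positivity)
        exact_mod_cast h2

/-- All surfaces. -/
theorem few_all (k : ℕ) : ∃ c : ℕ, ∀ (p : ℕ) [Fact p.Prime] (δ : ℝ)
    (_ : FewMiss δ (SpecialLinearGroup (Fin 2) (ZMod p))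
      ((1 : SpecialLinearGroup (Fin 2) (ZMod p)) : SpecialLinearGroup (Fin 2) (ZMod p) ⧸ bor p))
    (g n : ℕ) (_ : 7 * (k + 28) ≤ g) (_ : 0 ≤ δ),
    (Nat.card {φ : Pi1 g n →* SpecialLinearGroup (Fin 2) (ZMod p) // ¬ Killed k φ} : ℝ) ≤
      c * (2 * δ) ^ 25 *
        (Fintype.card (SpecialLinearGroup (Fin 2) (ZMod p)) : ℝ) ^ 2 *
        Nat.card (Pi1 g n →* SpecialLinearGroup (Fin 2) (ZMod p)) := by
  classical
  refine ⟨Nat.choose (k + 28) (k + 3), fun p _ δ hFM g n hg hδ => ?_⟩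
  set G := SpecialLinearGroup (Fin 2) (ZMod p) with hG
  have hr : ∀ t : ℕ, ∃ A : Finset (Fin g ⊕ Fin g → G), t < k + 28 →
      ((A.card : ℝ) ≤ 2 * δ * (Fintype.card G : ℝ) ^ (2 * g) ∧
      (∀ ρ : SG g n →* G, im ρ ∉ A → ∃ T : PMod g n, SuppI T (t * 7) (t * 7 + 7) ∧
        ρ (T.1 (sa (t * 7))) ∈ bor p ∧ ρ (T.1 (sb (t * 7))) ∈ bor p) ∧
      ∀ u u' : Fin g ⊕ Fin g → G, (∀ i : Fin g, t * 7 ≤ i.val → i.val < t * 7 + 7 →
        u (Sum.inl i) = u' (Sum.inl i) ∧ u (Sum.inr i) = u' (Sum.inr i)) → (u ∈ A ↔ u' ∈ A)) := by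
    intro t
    by_cases ht : t < k + 28
    · obtain ⟨A, hA1, hA2, hA3⟩ := rng (g := g) (n := n) _ _ hFM (t * 7) (by omega)
      refine ⟨A, fun _ => ⟨hA1, fun ρ hρ => ?_, hA3⟩⟩
      obtain ⟨T, h1, h2, h3⟩ := hA2 ρ hρ
      exact ⟨T, h1, fixiff _ h2, fixiff _ h3⟩
    · exact ⟨∅, fun h => absurd h ht⟩
  choose A hA using hr
  let blk : Fin g ⊕ Fin g → ℕ := fun i => Sum.elim (fun j => j.val / 7) (fun j => j.val / 7) i
  have hcι : Fintype.card (Fin g ⊕ Fin g) = 2 * g := by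
    rw [Fintype.card_sum, Fintype.card_fin]
    ring
  have hm := most blk A (2 * δ) (by positivity) (k + 28) (k + 3) (by omega)
    (fun t ht u u' huu => (hA t ht).2.2 u u' fun i h1 h2 =>
      ⟨huu (Sum.inl i) (by simp only [blk, Sum.elim_inl]; omega),
        huu (Sum.inr i) (by simp only [blk, Sum.elim_inr]; omega)⟩)
    (fun t ht => by rw [hcι]; exact (hA t ht).1)
  set B := univ.filter fun u : Fin g ⊕ Fin g → G =>
    ((range (k + 28)).filter fun t => u ∉ A t).card ≤ k + 3 with hB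
  rw [hcι, show k + 28 - (k + 3) = 25 by omega] at hm
  generalize Nat.choose (k + 28) (k + 3) = c at hm ⊢
  obtain ⟨D, hD⟩ : ∃ D : ℝ, D = (2 * δ) ^ 25 := ⟨_, rfl⟩
  have hD0 : 0 ≤ D := by rw [hD]; positivity
  rw [← hD] at hm ⊢
  have h1 := count_bad_set (g := g) (n := n) (k := k) B (fun ρ hρ => by
    have hS : k + 4 ≤ ((range (k + 28)).filter fun t => im ρ ∉ A t).card := by
      by_contra hc
      exact hρ (by rw [hB, mem_filter]; exact ⟨mem_univ _, by omega⟩)
    set S := (range (k + 28)).filter fun t => im ρ ∉ A t with hSdef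
    let e := S.orderEmbOfFin rfl
    refine killed_of ρ (fun i => if hi : i < S.card then e ⟨i, hi⟩ else 0) ?_ ?_ ?_
    · intro i j hij hj
      have hj' : j < S.card := by omega
      have hi' : i < S.card := by omega
      simp only [dif_pos hj', dif_pos hi']
      exact e.strictMono hij
    · intro i hi
      have hi' : i < S.card := by omega
      simp only [dif_pos hi']
      have h3 : e ⟨i, hi'⟩ ∈ S := S.orderEmbOfFin_mem rfl _
      have h4 := mem_range.1 (mem_filter.1 h3).1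
      omega
    · intro i hi
      have hi' : i < S.card := by omega
      simp only [dif_pos hi']
      have h3 : e ⟨i, hi'⟩ ∈ S := S.orderEmbOfFin_mem rfl _
      have h4 := mem_filter.1 h3
      exact (hA _ (mem_range.1 h4.1)).2.1 ρ h4.2)
  have h2 := hom_lower g n G
  have h2' : (Fintype.card G : ℝ) ^ (2 * g + (n - 1)) ≤
      (Fintype.card G : ℝ) ^ 2 * Nat.card (SG g n →* G) := by exact_mod_cast h2
  calc (Nat.card {φ : Pi1 g n →* G // ¬ Killed k φ} : ℝ)
      ≤ (B.card : ℝ) * (Fintype.card G : ℝ) ^ (n - 1) := by exact_mod_cast h1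
    _ ≤ c * D * (Fintype.card G : ℝ) ^ (2 * g) *
          (Fintype.card G : ℝ) ^ (n - 1) := mul_le_mul_of_nonneg_right hm (by positivity)
    _ = c * D * (Fintype.card G : ℝ) ^ (2 * g + (n - 1)) := by
        rw [pow_add]; ring
    _ ≤ c * D * ((Fintype.card G : ℝ) ^ 2 *
          Nat.card (SG g n →* G)) := mul_le_mul_of_nonneg_left h2' (by positivity)
    _ = c * D * (Fintype.card G : ℝ) ^ 2 * Nat.card (SG g n →* G) := by ring

/-- `|SL(2, p)| ≤ 2 p^3`. -/
theorem card_sl_le (p : ℕ) [Fact p.Prime] :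
    Fintype.card (SpecialLinearGroup (Fin 2) (ZMod p)) ≤ 2 * p ^ 3 := by
  classical
  have hp : 1 ≤ p := (Fact.out : p.Prime).one_lt.le
  let F : SpecialLinearGroup (Fin 2) (ZMod p) →
      (ZMod p × ZMod p × ZMod p) ⊕ (ZMod p × ZMod p) := fun x =>
    if x.1 0 0 ≠ 0 then Sum.inl (x.1 0 0, x.1 0 1, x.1 1 0) else Sum.inr (x.1 0 1, x.1 1 1)
  have hF : Function.Injective F := by
    intro x y hxy
    have dx := x.2
    have dy := y.2
    rw [Matrix.det_fin_two] at dx dy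
    by_cases h1 : x.1 0 0 ≠ 0
    · by_cases h2 : y.1 0 0 ≠ 0
      · simp only [F, if_pos h1, if_pos h2, Sum.inl.injEq, Prod.mk.injEq] at hxy
        obtain ⟨e1, e2, e3⟩ := hxy
        have e4 : x.1 1 1 = y.1 1 1 := by
          rw [← e1, ← e2, ← e3] at dy
          have : x.1 0 0 * x.1 1 1 = x.1 0 0 * y.1 1 1 := by linear_combination dx - dy
          exact mul_left_cancel₀ h1 this
        apply Subtype.ext
        ext i j
        fin_cases i <;> fin_cases j <;> assumption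
      · simp only [F, if_pos h1, if_neg h2] at hxy
        exact absurd hxy (by simp)
    · by_cases h2 : y.1 0 0 ≠ 0
      · simp only [F, if_neg h1, if_pos h2] at hxy
        exact absurd hxy (by simp)
      · simp only [F, if_neg h1, if_neg h2, Sum.inr.injEq, Prod.mk.injEq] at hxy
        obtain ⟨e1, e2⟩ := hxy
        push Not at h1 h2
        have e0 : x.1 0 0 = y.1 0 0 := by rw [h1, h2]
        have h3 : x.1 0 1 ≠ 0 := by
          intro h
          rw [h1, h] at dx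
          simp at dx
        have e3 : x.1 1 0 = y.1 1 0 := by
          rw [h1] at dx
          rw [h2, ← e1] at dy
          have : x.1 0 1 * x.1 1 0 = x.1 0 1 * y.1 1 0 := by linear_combination dy - dx
          exact mul_left_cancel₀ h3 this
        apply Subtype.ext
        ext i j
        fin_cases i <;> fin_cases j <;> assumption
  have h := Fintype.card_le_of_injective F hF
  simp only [Fintype.card_sum, Fintype.card_prod, ZMod.card] at h
  have h5 : p * p ≤ p ^ 3 := by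
    calc p * p = p ^ 2 := by ring
      _ ≤ p ^ 3 := Nat.pow_le_pow_right hp (by norm_num)
  calc _ ≤ p * (p * p) + p * p := h
    _ ≤ p ^ 3 + p ^ 3 := by
        have : p * (p * p) = p ^ 3 := by ring
        omega
    _ = 2 * p ^ 3 := by ring

theorem mainAll (k : ℕ) (ε : ℝ) (hε : 0 < ε) : ∃ p₀ : ℕ, ∀ p ≥ p₀, ∀ _ : Fact p.Prime,
    ∀ g n : ℕ, (7 * (k + 4) ≤ g ∧ 1 ≤ n) ∨ 7 * (k + 28) ≤ g →
    (Nat.card {φ : Pi1 g n →* SpecialLinearGroup (Fin 2) (ZMod p) // ¬ Killed k φ} : ℝ) ≤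
      ε * Nat.card (Pi1 g n →* SpecialLinearGroup (Fin 2) (ZMod p)) := by
  classical
  -- the constants
  obtain ⟨c, hc⟩ := few_all k
  obtain ⟨E, hE⟩ : ∃ E : ℝ, E = (60 : ℝ) ^ 25 := ⟨_, rfl⟩
  have hE0 : 0 < E := by rw [hE]; positivity
  obtain ⟨C, hC⟩ : ∃ C : ℝ, C = 60 * (k + 4) + 4 * c * E := ⟨_, rfl⟩
  have hC0 : 0 < C := by rw [hC]; positivity
  have hCε : 0 < C / ε := by positivity
  refine ⟨⌈(C / ε) ^ 4⌉₊, fun p hp hprime g n hgn => ?_⟩
  set G := SpecialLinearGroup (Fin 2) (ZMod p) with hG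
  set N : ℕ := Nat.card (G ⧸ bor p) with hN
  have hpN : p ≤ N := card_sl p
  have hp2 : 2 ≤ p := (Fact.out : p.Prime).two_le
  have hN2 : 2 ≤ N := hp2.trans hpN
  have hN0 : (0 : ℝ) < N := by
    have : 0 < N := by omega
    exact_mod_cast this
  have hN1 : (1 : ℝ) ≤ N := by
    have : 1 ≤ N := by omega
    exact_mod_cast this
  set t : ℝ := (N : ℝ) ^ ((1 : ℝ) / 8) with ht
  have ht8 : t ^ 8 = N := by
    rw [ht, ← Real.rpow_natCast, ← Real.rpow_mul hN0.le]
    norm_num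
  have ht1 : 1 ≤ t := Real.one_le_rpow hN1 (by norm_num)
  have ht0 : 0 < t := by linarith
  have htC : C / ε ≤ t ^ 2 := by
    have h1 : (C / ε) ^ 4 ≤ (t ^ 2) ^ 4 := by
      calc (C / ε) ^ 4 ≤ ⌈(C / ε) ^ 4⌉₊ := Nat.le_ceil _
        _ ≤ (p : ℝ) := by exact_mod_cast hp
        _ ≤ (N : ℝ) := by exact_mod_cast hpN
        _ = (t ^ 2) ^ 4 := by rw [← ht8]; ring
    exact le_of_pow_le_pow_left₀ (by norm_num) (by positivity) h1
  have hFM : FewMiss (30 / t ^ 2) G ((1 : G) : G ⧸ bor p) :=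
    prob_rate G (G ⧸ bor p) (nice_sl p) hN2 t ht1 ht8 _
  have hδ : 0 ≤ 30 / t ^ 2 := by positivity
  have hCε2 : C ≤ ε * t ^ 2 := by
    rw [div_le_iff₀ hε] at htC
    linarith
  rcases hgn with ⟨hg, hn⟩ | hg
  · refine (few_pos k _ hFM g n hg hn hδ).trans ?_
    apply mul_le_mul_of_nonneg_right _ (Nat.cast_nonneg _)
    have e : 2 * ((k : ℝ) + 4) * (30 / t ^ 2) = (60 * (k + 4)) / t ^ 2 := by ring
    rw [e, div_le_iff₀ (by positivity)]
    have : 0 ≤ 4 * (c : ℝ) * E := by positivity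
    linarith
  · refine (hc p _ hFM g n hg hδ).trans ?_
    apply mul_le_mul_of_nonneg_right _ (Nat.cast_nonneg _)
    have hG2 : (Fintype.card G : ℝ) ≤ 2 * (N : ℝ) ^ 3 := by
      calc (Fintype.card G : ℝ) ≤ 2 * (p : ℝ) ^ 3 := by exact_mod_cast card_sl_le p
        _ ≤ 2 * (N : ℝ) ^ 3 := by
          have : (p : ℝ) ≤ N := by exact_mod_cast hpN
          gcongr
    have hG3 : (Fintype.card G : ℝ) ^ 2 ≤ 4 * t ^ 48 := by
      calc (Fintype.card G : ℝ) ^ 2 ≤ (2 * (N : ℝ) ^ 3) ^ 2 := by gcongr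
        _ = 4 * t ^ 48 := by rw [← ht8]; ring
    have hpow : (2 * (30 / t ^ 2)) ^ 25 = E / t ^ 50 := by
      rw [hE, show 2 * (30 / t ^ 2) = 60 / t ^ 2 by ring, div_pow, ← pow_mul]
    rw [hpow]
    calc (c : ℝ) * (E / t ^ 50) * (Fintype.card G : ℝ) ^ 2
        ≤ (c : ℝ) * (E / t ^ 50) * (4 * t ^ 48) :=
          mul_le_mul_of_nonneg_left hG3 (by positivity)
      _ = (4 * (c : ℝ) * E) / t ^ 2 := by
          have e50 : t ^ 50 = t ^ 48 * t ^ 2 := by ring
          rw [e50]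
          field_simp
      _ ≤ ε := by
          rw [div_le_iff₀ (by positivity)]
          have : 0 ≤ 60 * ((k : ℝ) + 4) := by positivity
          linarith

end Pool.Agent.RSC
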