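import Pool.Agent.RSC.HomO
import Pool.Agent.RGC.Defs

/-!
# RSC module HOMU: closed surfaces, cylinder sets of images   (helper52)
-/

set_option autoImplicit false

namespace Pool.Agent.RSC

open Pool.Agent.PWI Pool.Agent.RGC Pool.Agent.RGC.HZ

section
variable {G : Type} [Group G]

theorem wz_snoc {h : ℕ} (p : Fin h → G × G) (a : G × G) :
    wz (Fin.snoc p a : Fin (h + 1) → G × G) = wz p * cmz a := by
  rw [wz, List.ofFn_succ', List.concat_eq_append, List.prod_append, wz]
  simp

/-- The tuple of the pairs. -/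
def prs {g : ℕ} (ρ : SG g 0 →* G) : Fin g → G × G := fun i => (ρ (sa i), ρ (sb i))

/-- From pairs to images. -/
def ofp {g : ℕ} (p : Fin g → G × G) : Fin g ⊕ Fin g → G :=
  Sum.elim (fun i => (p i).1) fun i => (p i).2

theorem ofp_prs {g : ℕ} (ρ : SG g 0 →* G) : ofp (prs ρ) = im ρ := by
  funext i
  rcases i with i | i <;> rfl

theorem wz_prs {g : ℕ} (ρ : SG g 0 →* G) : wz (prs ρ) = 1 := by
  have h : (PresentedGroup.mk ({rel g 0} : Set (FreeGroup (Gen g 0)))) (rel g 0) = 1 :=
    PresentedGroup.one_of_mem rfl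
  let ψ : FreeGroup (Gen g 0) →* G :=
    MonoidHom.comp ρ (PresentedGroup.mk ({rel g 0} : Set (FreeGroup (Gen g 0))))
  have h3 : ψ (rel g 0) = 1 := by
    change ρ ((PresentedGroup.mk ({rel g 0} : Set (FreeGroup (Gen g 0)))) (rel g 0)) = 1
    rw [h]; exact map_one ρ
  unfold rel at h3
  rw [map_mul, map_list_prod, map_list_prod, List.map_ofFn, List.map_ofFn] at h3
  simp only [List.ofFn_zero, List.prod_nil, mul_one] at h3
  rw [← h3, wz]
  congr 2
  funext i
  have e1 : (sa i : SG g 0) =
      (PresentedGroup.mk ({rel g 0} : Set (FreeGroup (Gen g 0)))) (FreeGroup.of (Gen.a i)) := by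
    unfold sa
    rw [dif_pos i.2]
    rfl
  have e2 : (sb i : SG g 0) =
      (PresentedGroup.mk ({rel g 0} : Set (FreeGroup (Gen g 0)))) (FreeGroup.of (Gen.b i)) := by
    unfold sb
    rw [dif_pos i.2]
    rfl
  simp only [Function.comp_apply, map_mul, map_inv, cmz, prs]
  rw [e1, e2]
  rfl

theorem prs_inj {g : ℕ} : Function.Injective (prs : (SG g 0 →* G) → _) := by
  intro ρ σ h
  refine PresentedGroup.ext fun x => ?_
  rcases x with i | i | i
  · have := congrArg Prod.fst (congrFun h i)
    simp only [prs] at this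
    unfold sa at this
    rw [dif_pos i.2] at this
    exact this
  · have := congrArg Prod.snd (congrFun h i)
    simp only [prs] at this
    unfold sb at this
    rw [dif_pos i.2] at this
    exact this
  · exact i.elim0

theorem hom_upper_cyl [Fintype G] [DecidableEq G] (m C : ℕ)
    (A : Finset (Fin (m + 2) ⊕ Fin (m + 2) → G))
    (hcyl : ∀ u u' : Fin (m + 2) ⊕ Fin (m + 2) → G, (∀ i : Fin (m + 2), i.val < m →
      u (Sum.inl i) = u' (Sum.inl i) ∧ u (Sum.inr i) = u' (Sum.inr i)) → (u ∈ A ↔ u' ∈ A))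
    (hC : ∀ c : G, Nat.card {ab : (G × G) × (G × G) // c * cmz ab.1 * cmz ab.2 = 1} ≤ C) :
    Fintype.card G ^ 4 * Nat.card {ρ : SG (m + 2) 0 →* G // im ρ ∈ A} ≤ C * A.card := by
  classical
  let mk : (Fin m → G × G) → (G × G) × (G × G) → Fin (m + 2) → G × G :=
    fun p ab => Fin.snoc (Fin.snoc p ab.1 : Fin (m + 1) → G × G) ab.2
  let B : Finset (Fin m → G × G) := Finset.univ.filter fun p => ofp (mk p ((1, 1), (1, 1))) ∈ A
  have hmk : ∀ p ab ab', (ofp (mk p ab) ∈ A ↔ ofp (mk p ab') ∈ A) := by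
    intro p ab ab'
    apply hcyl
    intro i hi
    obtain ⟨j, rfl⟩ : ∃ j : Fin m, i = j.castSucc.castSucc := ⟨⟨i.val, hi⟩, by ext; rfl⟩
    simp only [ofp, mk, Sum.elim_inl, Sum.elim_inr, Fin.snoc_castSucc, and_self]
  have h1 : B.card * Fintype.card G ^ 4 ≤ A.card := by
    have e : Fintype.card G ^ 4 = Fintype.card ((G × G) × (G × G)) := by
      simp only [Fintype.card_prod]; ring
    rw [e, ← Finset.card_univ, ← Finset.card_product]
    refine Finset.card_le_card_of_injOn (fun x => ofp (mk x.1 x.2)) ?_ ?_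
    · intro x hx
      have hx1 := (Finset.mem_filter.1 (Finset.mem_product.1 hx).1).2
      exact (hmk _ _ _).1 hx1
    · intro x _ y _ hxy
      have h2 : mk x.1 x.2 = mk y.1 y.2 := by
        funext i
        exact Prod.ext (congrFun hxy (Sum.inl i)) (congrFun hxy (Sum.inr i))
      simp only [mk] at h2
      obtain ⟨h3, h4⟩ := Fin.snoc_injective2 h2
      obtain ⟨h5, h6⟩ := Fin.snoc_injective2 h3
      exact Prod.ext h5 (Prod.ext h6 h4)
  have h2 : Nat.card {ρ : SG (m + 2) 0 →* G // im ρ ∈ A} ≤ B.card * C := by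
    have hfin : ∀ c : G, Finite {ab : (G × G) × (G × G) // c * cmz ab.1 * cmz ab.2 = 1} :=
      fun c => inferInstance
    refine (Nat.card_le_card_of_injective
      (fun ρ : {ρ : SG (m + 2) 0 →* G // im ρ ∈ A} =>
        (⟨⟨fun i => prs ρ.1 i.castSucc.castSucc, ?_⟩,
          ⟨(prs ρ.1 (Fin.last m).castSucc, prs ρ.1 (Fin.last (m + 1))), ?_⟩⟩ :
          Σ p : B, {ab : (G × G) × (G × G) // wz p.1 * cmz ab.1 * cmz ab.2 = 1})) ?_).trans ?_
    · have e : mk (fun i => prs ρ.1 i.castSucc.castSucc)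
          (prs ρ.1 (Fin.last m).castSucc, prs ρ.1 (Fin.last (m + 1))) = prs ρ.1 := by
        funext i
        simp only [mk]
        refine Fin.lastCases ?_ (fun j => ?_) i
        · rw [Fin.snoc_last]
        · rw [Fin.snoc_castSucc]
          refine Fin.lastCases ?_ (fun j => ?_) j
          · rw [Fin.snoc_last]
          · rw [Fin.snoc_castSucc]
      refine Finset.mem_filter.2 ⟨Finset.mem_univ _, ?_⟩
      rw [hmk _ _ (prs ρ.1 (Fin.last m).castSucc, prs ρ.1 (Fin.last (m + 1))), e, ofp_prs]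
      exact ρ.2
    · have e : mk (fun i => prs ρ.1 i.castSucc.castSucc)
          (prs ρ.1 (Fin.last m).castSucc, prs ρ.1 (Fin.last (m + 1))) = prs ρ.1 := by
        funext i
        simp only [mk]
        refine Fin.lastCases ?_ (fun j => ?_) i
        · rw [Fin.snoc_last]
        · rw [Fin.snoc_castSucc]
          refine Fin.lastCases ?_ (fun j => ?_) j
          · rw [Fin.snoc_last]
          · rw [Fin.snoc_castSucc]
      have h3 := wz_prs ρ.1
      rw [← e] at h3
      simp only [mk] at h3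
      rw [wz_snoc, wz_snoc] at h3
      exact h3
    · intro ρ σ h
      apply Subtype.ext
      apply prs_inj
      have h3 := congrArg (fun x => x.1.1) h
      have h4 : ((prs ρ.1 (Fin.last m).castSucc, prs ρ.1 (Fin.last (m + 1))) : (G × G) × (G × G)) =
          (prs σ.1 (Fin.last m).castSucc, prs σ.1 (Fin.last (m + 1))) := by
        have := congrArg (fun x : (Σ p : B, {ab : (G × G) × (G × G) //
          wz p.1 * cmz ab.1 * cmz ab.2 = 1}) => x.2.1) h
        exact this
      funext i
      refine Fin.lastCases ?_ (fun j => ?_) i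
      · exact congrArg Prod.snd h4
      · refine Fin.lastCases ?_ (fun j => ?_) j
        · exact congrArg Prod.fst h4
        · exact congrFun h3 j
    · rw [Nat.card_sigma]
      calc _ ≤ ∑ _p : B, C := Finset.sum_le_sum fun p _ => hC _
        _ = B.card * C := by
          rw [Finset.sum_const, Finset.card_univ, Fintype.card_coe, smul_eq_mul]
  calc Fintype.card G ^ 4 * Nat.card {ρ : SG (m + 2) 0 →* G // im ρ ∈ A}
      ≤ Fintype.card G ^ 4 * (B.card * C) := Nat.mul_le_mul_left _ h2
    _ = C * (B.card * Fintype.card G ^ 4) := by ring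
    _ ≤ C * A.card := Nat.mul_le_mul_left _ h1

end

end Pool.Agent.RSC
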