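import Pool.Agent.RSC.Fin2
import Pool.Agent.RSC.HomU
import Pool.Agent.RSC.ComC

/-!
# RSC module FIN3: closed surfaces of small genus and the final theorem   (helper52)
-/

namespace Pool.Agent.RSC

open Pool.Agent.PWI hiding SuppI Wi
open Pool.Agent.RGC Finset Matrix

/-- Closed surfaces. -/
theorem few_zero {p : ℕ} [Fact p.Prime] (k : ℕ) (δ : ℝ)
    (hFM : FewMiss δ (SpecialLinearGroup (Fin 2) (ZMod p))
      ((1 : SpecialLinearGroup (Fin 2) (ZMod p)) : SpecialLinearGroup (Fin 2) (ZMod p) ⧸ bor p))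
    (m : ℕ) (hg : 7 * (k + 4) ≤ m) (hδ : 0 ≤ δ) :
    (Nat.card {φ : Pi1 (m + 2) 0 →* SpecialLinearGroup (Fin 2) (ZMod p) // ¬ Killed k φ} : ℝ) ≤
      48 * (k + 4) * δ * Nat.card (Pi1 (m + 2) 0 →* SpecialLinearGroup (Fin 2) (ZMod p)) := by
  classical
  set G := SpecialLinearGroup (Fin 2) (ZMod p) with hG
  have hr : ∀ t : ℕ, ∃ A : Finset (Fin (m + 2) ⊕ Fin (m + 2) → G), t < k + 4 →
      ((A.card : ℝ) ≤ 2 * δ * (Fintype.card G : ℝ) ^ (2 * (m + 2)) ∧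
      (∀ ρ : SG (m + 2) 0 →* G, im ρ ∉ A → ∃ T : PMod (m + 2) 0,
        SuppI T (t * 7) (t * 7 + 7) ∧
        ρ (T.1 (sa (t * 7))) ∈ bor p ∧ ρ (T.1 (sb (t * 7))) ∈ bor p) ∧
      ∀ u u' : Fin (m + 2) ⊕ Fin (m + 2) → G,
        (∀ i : Fin (m + 2), t * 7 ≤ i.val → i.val < t * 7 + 7 →
        u (Sum.inl i) = u' (Sum.inl i) ∧ u (Sum.inr i) = u' (Sum.inr i)) → (u ∈ A ↔ u' ∈ A)) := by
    intro t
    by_cases ht : t < k + 4
    · obtain ⟨A, hA1, hA2, hA3⟩ := rng (g := m + 2) (n := 0) _ _ hFM (t * 7) (by omega)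
      refine ⟨A, fun _ => ⟨hA1, fun ρ hρ => ?_, hA3⟩⟩
      obtain ⟨T, h1, h2, h3⟩ := hA2 ρ hρ
      exact ⟨T, h1, fixiff _ h2, fixiff _ h3⟩
    · exact ⟨∅, fun h => absurd h ht⟩
  choose A hA using hr
  set AA := (range (k + 4)).biUnion A with hAA
  have hAAc : (AA.card : ℝ) ≤ 2 * (k + 4) * δ * (Fintype.card G : ℝ) ^ (2 * (m + 2)) := by
    calc (AA.card : ℝ) ≤ ∑ t ∈ range (k + 4), ((A t).card : ℝ) := by
          exact_mod_cast card_biUnion_le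
      _ ≤ ∑ _t ∈ range (k + 4), 2 * δ * (Fintype.card G : ℝ) ^ (2 * (m + 2)) :=
          Finset.sum_le_sum fun t ht => (hA t (mem_range.1 ht)).1
      _ = 2 * (k + 4) * δ * (Fintype.card G : ℝ) ^ (2 * (m + 2)) := by
          rw [sum_const, card_range, nsmul_eq_mul]
          push_cast
          ring
  have hcyl : ∀ u u' : Fin (m + 2) ⊕ Fin (m + 2) → G, (∀ i : Fin (m + 2), i.val < m →
      u (Sum.inl i) = u' (Sum.inl i) ∧ u (Sum.inr i) = u' (Sum.inr i)) →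
      (u ∈ AA ↔ u' ∈ AA) := by
    intro u u' huu
    rw [hAA, mem_biUnion, mem_biUnion]
    have h5 : ∀ t, t ∈ range (k + 4) → (u ∈ A t ↔ u' ∈ A t) := by
      intro t ht
      have ht' := mem_range.1 ht
      exact (hA t ht').2.2 u u' fun i _ h2 => huu i (by omega)
    constructor
    · rintro ⟨t, ht, h⟩
      exact ⟨t, ht, (h5 t ht).1 h⟩
    · rintro ⟨t, ht, h⟩
      exact ⟨t, ht, (h5 t ht).2 h⟩
  have h1 := hom_upper_cyl (G := G) m (24 * Fintype.card G ^ 3) AA hcyl (comm2_count p)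
  have hfin := hom_finite (m + 2) 0 G
  have h0 : Nat.card {φ : Pi1 (m + 2) 0 →* G // ¬ Killed k φ} ≤
      Nat.card {ρ : SG (m + 2) 0 →* G // im ρ ∈ AA} := by
    refine Nat.card_le_card_of_injective
      (fun ρ => (⟨ρ.1, ?_⟩ : {ρ : SG (m + 2) 0 →* G // im ρ ∈ AA})) ?_
    · by_contra hc
      exact ρ.2 (killed_of ρ.1 id (fun i j hij _ => hij) (fun i hi => by simp only [id]; omega)
        (fun t ht => (hA t ht).2.1 ρ.1 fun hmem => hc (mem_biUnion.2 ⟨t, mem_range.2 ht, hmem⟩)))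
    · intro ρ ρ' hρ
      exact Subtype.ext (congrArg
        (fun x : {ρ : SG (m + 2) 0 →* G // im ρ ∈ AA} => x.1) hρ)
  have h2 := hom_lower_sharp (m + 2) G
  generalize hx : Nat.card {φ : Pi1 (m + 2) 0 →* G // ¬ Killed k φ} = x at h0 ⊢
  generalize hy : Nat.card {ρ : SG (m + 2) 0 →* G // im ρ ∈ AA} = y at h0 h1
  have hq : (0 : ℝ) < Fintype.card G := by exact_mod_cast Fintype.card_pos
  generalize (Fintype.card G) = q at *
  have h1' : (q : ℝ) ^ 4 * (y : ℝ) ≤ 24 * (q : ℝ) ^ 3 * (AA.card : ℝ) := by exact_mod_cast h1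
  have h2' : (q : ℝ) ^ (2 * (m + 2)) ≤ (q : ℝ) * Nat.card (SG (m + 2) 0 →* G) := by
    exact_mod_cast h2
  have h0' : (x : ℝ) ≤ y := by exact_mod_cast h0
  have h3 : (q : ℝ) ^ 4 * (y : ℝ) ≤
      (q : ℝ) ^ 4 * (48 * (k + 4) * δ * Nat.card (SG (m + 2) 0 →* G)) := by
    calc (q : ℝ) ^ 4 * (y : ℝ) ≤ 24 * (q : ℝ) ^ 3 * (AA.card : ℝ) := h1'
      _ ≤ 24 * (q : ℝ) ^ 3 * (2 * (k + 4) * δ * (q : ℝ) ^ (2 * (m + 2))) :=
          mul_le_mul_of_nonneg_left hAAc (by positivity)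
      _ ≤ 24 * (q : ℝ) ^ 3 * (2 * (k + 4) * δ * ((q : ℝ) * Nat.card (SG (m + 2) 0 →* G))) := by
          apply mul_le_mul_of_nonneg_left _ (by positivity)
          exact mul_le_mul_of_nonneg_left h2' (by positivity)
      _ = (q : ℝ) ^ 4 * (48 * (k + 4) * δ * Nat.card (SG (m + 2) 0 →* G)) := by ring
  exact h0'.trans (le_of_mul_le_mul_left h3 (by positivity))

theorem mainAll3 (k : ℕ) (ε : ℝ) (hε : 0 < ε) : ∃ p₀ : ℕ, ∀ p ≥ p₀, ∀ _ : Fact p.Prime,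
    ∀ g n : ℕ, (7 * (k + 4) ≤ g ∧ 1 ≤ n) ∨ 7 * (k + 4) + 2 ≤ g →
    (Nat.card {φ : Pi1 g n →* SpecialLinearGroup (Fin 2) (ZMod p) // ¬ Killed k φ} : ℝ) ≤
      ε * Nat.card (Pi1 g n →* SpecialLinearGroup (Fin 2) (ZMod p)) := by
  classical
  obtain ⟨C, hC⟩ : ∃ C : ℝ, C = 1440 * (k + 4) := ⟨_, rfl⟩
  have hC0 : 0 < C := by rw [hC]; positivity
  have hCε : 0 < C / ε := by positivity
  refine ⟨⌈(C / ε) ^ 4⌉₊, fun p hp hprime g n hgn => ?_⟩
  set G := SpecialLinearGroup (Fin 2) (ZMod p) with hG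
  set N : ℕ := Nat.card (G ⧸ bor p) with hN
  have hpN : p ≤ N := card_sl p
  have hp2 : 2 ≤ p := (Fact.out : p.Prime).two_le
  have hN2 : 2 ≤ N := hp2.trans hpN
  have hN0 : (0 : ℝ) < N := by
    have : 0 < N := by omega
    exact_mod_cast this
  have hN1 : (1 : ℝ) ≤ N := by
    have : 1 ≤ N := by omega
    exact_mod_cast this
  set t : ℝ := (N : ℝ) ^ ((1 : ℝ) / 8) with ht
  have ht8 : t ^ 8 = N := by
    rw [ht, ← Real.rpow_natCast, ← Real.rpow_mul hN0.le]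
    norm_num
  have ht1 : 1 ≤ t := Real.one_le_rpow hN1 (by norm_num)
  have ht0 : 0 < t := by linarith
  have htC : C / ε ≤ t ^ 2 := by
    have h1 : (C / ε) ^ 4 ≤ (t ^ 2) ^ 4 := by
      calc (C / ε) ^ 4 ≤ ⌈(C / ε) ^ 4⌉₊ := Nat.le_ceil _
        _ ≤ (p : ℝ) := by exact_mod_cast hp
        _ ≤ (N : ℝ) := by exact_mod_cast hpN
        _ = (t ^ 2) ^ 4 := by rw [← ht8]; ring
    exact le_of_pow_le_pow_left₀ (by norm_num) (by positivity) h1
  have hFM : FewMiss (30 / t ^ 2) G ((1 : G) : G ⧸ bor p) :=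
    prob_rate G (G ⧸ bor p) (nice_sl p) hN2 t ht1 ht8 _
  have hδ : 0 ≤ 30 / t ^ 2 := by positivity
  have hCε2 : C ≤ ε * t ^ 2 := by
    rw [div_le_iff₀ hε] at htC
    linarith
  have hk : (0 : ℝ) ≤ k := Nat.cast_nonneg k
  by_cases hn : 1 ≤ n
  · have hg : 7 * (k + 4) ≤ g := by omega
    refine (few_pos k _ hFM g n hg hn hδ).trans ?_
    apply mul_le_mul_of_nonneg_right _ (Nat.cast_nonneg _)
    have e : 2 * ((k : ℝ) + 4) * (30 / t ^ 2) = (60 * (k + 4)) / t ^ 2 := by ring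
    rw [e, div_le_iff₀ (by positivity)]
    linarith
  · obtain rfl : n = 0 := by omega
    obtain ⟨m, rfl⟩ : ∃ m, g = m + 2 := ⟨g - 2, by omega⟩
    refine (few_zero k _ hFM m (by omega) hδ).trans ?_
    apply mul_le_mul_of_nonneg_right _ (Nat.cast_nonneg _)
    have e : 48 * ((k : ℝ) + 4) * (30 / t ^ 2) = (1440 * (k + 4)) / t ^ 2 := by ring
    rw [e, div_le_iff₀ (by positivity)]
    linarith

end Pool.Agent.RSC
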