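import Pool.Agent.RGC.HomZ

/-!
# RSC module HOMO: the number of homomorphisms of a closed surface group is at least `q ^ (2 g - 1)`   (helper52)

Odd genus `g = 2 h + 1`: for fixed `y` the coincidences `wz p x y x⁻¹ = wz q z y z⁻¹` give, after conjugation
by `z`, solutions of `wz p' [x', y] wz q' = 1`.
-/

set_option autoImplicit false

namespace Pool.Agent.RSC

open Pool.Agent.PWI Pool.Agent.RGC Pool.Agent.RGC.HZ

section
variable {G : Type} [Group G]

/-- Conjugation of a tuple. -/
def cj {h : ℕ} (z : G) (p : Fin h → G × G) : Fin h → G × G :=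
  fun i => (z * (p i).1 * z⁻¹, z * (p i).2 * z⁻¹)

theorem wz_cj {h : ℕ} (z : G) (p : Fin h → G × G) : wz (cj z p) = z * wz p * z⁻¹ := by
  induction h with
  | zero => simp [wz]
  | succ h ih =>
    have e1 : p = Fin.cons (p 0) (Fin.tail p) := (Fin.cons_self_tail p).symm
    have e2 : cj z p = Fin.cons (z * (p 0).1 * z⁻¹, z * (p 0).2 * z⁻¹) (cj z (Fin.tail p)) := by
      funext i
      refine Fin.cases ?_ (fun j => ?_) i
      · simp [cj]
      · simp [cj, Fin.tail]
    rw [e2, wz_cons, ih, e1, wz_cons]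
    simp only [cmz, Fin.tail_cons, Fin.cons_zero]
    group

theorem cj_inj {h : ℕ} (z : G) : Function.Injective (cj z : (Fin h → G × G) → _) := by
  intro p q hpq
  funext i
  have h1 := congrFun hpq i
  simp only [cj, Prod.mk.injEq, mul_left_inj, mul_right_inj] at h1
  exact Prod.ext h1.1 h1.2

theorem tuples_odd [Fintype G] (h : ℕ) : Fintype.card G ^ (4 * h + 2) ≤
    Fintype.card G * Nat.card {p : Fin (h + (h + 1)) → G × G // wz p = 1} := by
  classical
  set q := Fintype.card G with hq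
  have hqpos : 0 < q := Fintype.card_pos
  let X := (Fin h → G × G) × G
  let f : G → X → G := fun y P => wz P.1 * (P.2 * y * P.2⁻¹)
  have hX : Nat.card X = q ^ (2 * h + 1) := by
    rw [Nat.card_prod, Nat.card_fun, Nat.card_prod, Nat.card_eq_fintype_card,
      Nat.card_eq_fintype_card, Fintype.card_fin, ← hq, ← sq, ← pow_mul, pow_succ]
  have h1 : ∀ y, q ^ (4 * h + 2) ≤ q * Nat.card {PQ : X × X // f y PQ.1 = f y PQ.2} := by
    intro y
    have := card_sq_le (X := X) (Y := G) (f y)
    rw [hX, Nat.card_eq_fintype_card (α := G), ← hq, ← pow_mul] at this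
    calc q ^ (4 * h + 2) = q ^ ((2 * h + 1) * 2) := by ring_nf
      _ ≤ _ := this
  have h2 : ∑ y : G, Nat.card {PQ : X × X // f y PQ.1 = f y PQ.2} ≤
      q * Nat.card {p : Fin (h + (h + 1)) → G × G // wz p = 1} := by
    rw [← Nat.card_sigma, hq, ← Nat.card_eq_fintype_card, ← Nat.card_prod]
    refine Nat.card_le_card_of_injective
      (fun s : Σ y : G, {PQ : X × X // f y PQ.1 = f y PQ.2} =>
        (s.2.1.2.2, ⟨Fin.append (cj s.2.1.2.2⁻¹ s.2.1.1.1)
          (Fin.cons (s.2.1.2.2⁻¹ * s.2.1.1.2, s.1) (cj s.2.1.2.2⁻¹ (rv s.2.1.2.1)) :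
            Fin (h + 1) → G × G), ?_⟩)) ?_
    · obtain ⟨y, ⟨⟨⟨p, x⟩, ⟨r, z⟩⟩, hs⟩⟩ := s
      simp only [f] at hs
      simp only
      rw [wz_append, wz_cons, wz_cj, wz_cj, wz_rv]
      have e : wz p = wz r * (z * y * z⁻¹) * (x * y * x⁻¹)⁻¹ := by
        rw [← hs]; group
      rw [e]
      simp only [cmz]
      group
    · rintro ⟨y, ⟨⟨⟨p, x⟩, ⟨r, z⟩⟩, hs⟩⟩ ⟨y', ⟨⟨⟨p', x'⟩, ⟨r', z'⟩⟩, hs'⟩⟩ hh
      simp only [Prod.mk.injEq, Subtype.mk.injEq] at hh
      obtain ⟨hz, h0⟩ := hh
      subst hz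
      have e1 : cj z⁻¹ p = cj z⁻¹ p' := by
        funext i
        simpa using congrFun h0 (Fin.castAdd (h + 1) i)
      have e2 : (Fin.cons (z⁻¹ * x, y) (cj z⁻¹ (rv r)) : Fin (h + 1) → G × G) =
          Fin.cons (z⁻¹ * x', y') (cj z⁻¹ (rv r')) := by
        funext i
        have := congrFun h0 (Fin.natAdd h i)
        rwa [Fin.append_right, Fin.append_right] at this
      obtain ⟨e3, e4⟩ := Fin.cons_injective2 e2
      simp only [Prod.mk.injEq, mul_right_inj] at e3
      obtain ⟨e5, e6⟩ := e3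
      have e7 := cj_inj _ e1
      have e8 := rv_inj (cj_inj _ e4)
      subst e5 e6 e7 e8
      rfl
  have h3 : q * q ^ (4 * h + 2) ≤ q * (q * Nat.card {p : Fin (h + (h + 1)) → G × G // wz p = 1}) := by
    calc q * q ^ (4 * h + 2) = ∑ _y : G, q ^ (4 * h + 2) := by
          rw [Finset.sum_const, Finset.card_univ, smul_eq_mul, ← hq]
      _ ≤ ∑ y : G, q * Nat.card {PQ : X × X // f y PQ.1 = f y PQ.2} :=
          Finset.sum_le_sum fun y _ => h1 y
      _ = q * ∑ y : G, Nat.card {PQ : X × X // f y PQ.1 = f y PQ.2} := by rw [Finset.mul_sum]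
      _ ≤ _ := Nat.mul_le_mul_left _ h2
  exact Nat.le_of_mul_le_mul_left h3 hqpos

theorem tuples_even [Fintype G] (h : ℕ) : Fintype.card G ^ (4 * h) ≤
    Fintype.card G * Nat.card {p : Fin (h + h) → G × G // wz p = 1} := by
  classical
  set q := Fintype.card G with hq
  have h1 := card_sq_le (X := Fin h → G × G) (Y := G) wz
  have h2 : Nat.card (Fin h → G × G) = q ^ (2 * h) := by
    rw [Nat.card_fun, Nat.card_prod, Nat.card_eq_fintype_card, Nat.card_eq_fintype_card,
      Fintype.card_fin, ← hq, ← sq, ← pow_mul]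
  have h3 : Nat.card {pq : (Fin h → G × G) × (Fin h → G × G) // wz pq.1 = wz pq.2} ≤
      Nat.card {p : Fin (h + h) → G × G // wz p = 1} := by
    refine Nat.card_le_card_of_injective
      (fun pq => ⟨Fin.append pq.1.1 (rv pq.1.2), ?_⟩) ?_
    · rw [wz_append, wz_rv, pq.2, mul_inv_cancel]
    · rintro ⟨⟨p, r⟩, hp⟩ ⟨⟨p', r'⟩, hp'⟩ hh
      have h0 := Subtype.ext_iff.1 hh
      simp only at h0
      have e1 : p = p' := by
        funext i
        simpa using congrFun h0 (Fin.castAdd h i)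
      have e2 : rv r = rv r' := by
        funext i
        have := congrFun h0 (Fin.natAdd h i)
        rwa [Fin.append_right, Fin.append_right] at this
      subst e1
      have e3 := rv_inj e2
      subst e3
      rfl
  rw [h2, Nat.card_eq_fintype_card (α := G), ← hq, ← pow_mul] at h1
  calc q ^ (4 * h) = q ^ (2 * h * 2) := by ring_nf
    _ ≤ _ := h1.trans (Nat.mul_le_mul_left _ h3)

/-- The number of homomorphisms of a closed surface group. -/
theorem hom_lower_sharp (g : ℕ) (G : Type) [Group G] [Fintype G] :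
    Fintype.card G ^ (2 * g) ≤ Fintype.card G * Nat.card (SG g 0 →* G) := by
  have hN : Nat.card {p : Fin g → G × G // wz p = 1} ≤ Nat.card (SG g 0 →* G) := by
    have := finHom (G := G) g
    exact Nat.card_le_card_of_injective _ toHom_inj
  refine le_trans ?_ (Nat.mul_le_mul_left _ hN)
  rcases Nat.even_or_odd' g with ⟨h, rfl | rfl⟩
  · have := tuples_even (G := G) h
    rw [show h + h = 2 * h by ring] at this
    rwa [show 2 * (2 * h) = 4 * h by ring]
  · have := tuples_odd (G := G) h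
    rw [show h + (h + 1) = 2 * h + 1 by ring] at this
    rwa [show 2 * (2 * h + 1) = 4 * h + 2 by ring]

end

end Pool.Agent.RSC
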