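import Pool.Agent.RSC.Cnt

/-!
# RSC module MOM: second moment

`hit y Y J u` = number of `m < J` with `y^m • u ∈ Y`.
`sum_hit`: each `m` contributes `|Y|` (`u ↦ y^m • u` is a bijection).
`sum_hit_sq`: second moment, summed over `y`.
-/

namespace Pool.Agent.RSC

open Finset

variable {G X : Type} [Group G] [Fintype G] [DecidableEq G] [MulAction G X] [Fintype X] [DecidableEq X]

/-- Number of `m < J` with `y^m • u ∈ Y`. -/
def hit (y : G) (Y : Finset X) (J : ℕ) (u : X) : ℕ := ((range J).filter fun m => y ^ m • u ∈ Y).card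

private theorem card_pre (y : G) (m : ℕ) (Y : Finset X) :
    (univ.filter fun u : X => y ^ m • u ∈ Y).card = Y.card := by
  apply Finset.card_bij (fun u _ => y ^ m • u)
  · intro u hu
    exact (mem_filter.1 hu).2
  · intro a _ b _ hab
    exact MulAction.injective (y ^ m) hab
  · intro v hv
    exact ⟨(y ^ m)⁻¹ • v, mem_filter.2 ⟨mem_univ _, by rwa [smul_inv_smul]⟩, smul_inv_smul _ _⟩

theorem sum_hit (y : G) (Y : Finset X) (J : ℕ) : ∑ u : X, hit y Y J u = J * Y.card := by
  simp_rw [hit, card_filter]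
  rw [sum_comm]
  simp_rw [← card_filter, card_pre]
  simp

private theorem card_two (y : G) (m k : ℕ) (Y : Finset X) :
    (univ.filter fun u : X => y ^ m • u ∈ Y ∧ y ^ (m + k) • u ∈ Y).card =
      (Y.filter fun v => y ^ k • v ∈ Y).card := by
  apply Finset.card_bij (fun u _ => y ^ m • u)
  · intro u hu
    have h := (mem_filter.1 hu).2
    refine mem_filter.2 ⟨h.1, ?_⟩
    rw [smul_smul, ← pow_add, add_comm]
    exact h.2
  · intro a _ b _ hab
    exact MulAction.injective (y ^ m) hab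
  · intro v hv
    have h := mem_filter.1 hv
    refine ⟨(y ^ m)⁻¹ • v, mem_filter.2 ⟨mem_univ _, ?_, ?_⟩, smul_inv_smul _ _⟩
    · rw [smul_inv_smul]; exact h.1
    · rw [add_comm, pow_add, mul_smul, smul_inv_smul]; exact h.2

private theorem pt_bound (h : Nice G X) (h2 : 2 ≤ Fintype.card X) (Y : Finset X) (k : ℕ)
    (hk : 1 ≤ k) (v : X) :
    ((univ.filter fun y : G => y ^ k • v ∈ Y).card : ℝ) ≤ Fintype.card G *
      ((k : ℝ) / Fintype.card X + (Y.card : ℝ) / (Fintype.card X - 1)) := by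
  have hN : (0 : ℝ) < Fintype.card X := by
    have : (2 : ℝ) ≤ Fintype.card X := by exact_mod_cast h2
    linarith
  have hN1 : (0 : ℝ) < (Fintype.card X : ℝ) - 1 := by
    have : (2 : ℝ) ≤ Fintype.card X := by exact_mod_cast h2
    linarith
  have h1 : (univ.filter fun y : G => y ^ k • v ∈ Y).card ≤
      ∑ w ∈ Y, (univ.filter fun y : G => y ^ k • v = w).card := by
    have h0 := Finset.card_eq_sum_card_fiberwise (s := univ.filter fun y : G => y ^ k • v ∈ Y)
      (f := fun y : G => y ^ k • v) (t := Y) (fun y hy => (mem_filter.1 (mem_coe.1 hy)).2)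
    rw [h0]
    refine sum_le_sum fun w _ => card_le_card fun y hy => ?_
    exact mem_filter.2 ⟨mem_univ _, (mem_filter.1 hy).2⟩
  have h3 : ∀ w ∈ Y, ((univ.filter fun y : G => y ^ k • v = w).card : ℝ) ≤
      (if w = v then (k : ℝ) * Fintype.card G / Fintype.card X else 0) +
        (Fintype.card G : ℝ) / (Fintype.card X - 1) := by
    intro w _
    by_cases hw : w = v
    · rw [if_pos hw, hw]
      have h4 := fix_count h k v hk
      have h4' : ((univ.filter fun y : G => y ^ k • v = v).card : ℝ) * Fintype.card X ≤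
          k * Fintype.card G := by exact_mod_cast h4
      have h5 : ((univ.filter fun y : G => y ^ k • v = v).card : ℝ) ≤
          k * Fintype.card G / Fintype.card X := by
        rw [le_div_iff₀ hN]; exact h4'
      have h6 : (0 : ℝ) ≤ (Fintype.card G : ℝ) / (Fintype.card X - 1) := by positivity
      linarith
    · rw [if_neg hw, zero_add]
      have h4 := pair_count h k v w (fun hh => hw hh.symm)
      have h4' : ((univ.filter fun y : G => y ^ k • v = w).card : ℝ) *
          ((Fintype.card X : ℝ) - 1) ≤ Fintype.card G := by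
        have h5 : (((Fintype.card X - 1 : ℕ) : ℕ) : ℝ) = (Fintype.card X : ℝ) - 1 := by
          rw [Nat.cast_sub (by omega)]; simp
        rw [← h5]
        exact_mod_cast h4
      rw [le_div_iff₀ hN1]; exact h4'
  have h7 : ((univ.filter fun y : G => y ^ k • v ∈ Y).card : ℝ) ≤
      ∑ w ∈ Y, ((if w = v then (k : ℝ) * Fintype.card G / Fintype.card X else 0) +
        (Fintype.card G : ℝ) / (Fintype.card X - 1)) := by
    refine le_trans ?_ (sum_le_sum h3)
    exact_mod_cast h1
  refine h7.trans ?_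
  rw [sum_add_distrib, sum_const, nsmul_eq_mul, sum_ite_eq']
  have h8 : (if v ∈ Y then (k : ℝ) * Fintype.card G / Fintype.card X else 0) ≤
      (k : ℝ) * Fintype.card G / Fintype.card X := by
    split_ifs
    · exact le_rfl
    · positivity
  have h9 : (Fintype.card G : ℝ) * ((k : ℝ) / Fintype.card X + (Y.card : ℝ) /
      (Fintype.card X - 1)) = (k : ℝ) * Fintype.card G / Fintype.card X +
      Y.card * ((Fintype.card G : ℝ) / (Fintype.card X - 1)) := by ring
  rw [h9]
  linarith

private theorem T_le (h : Nice G X) (h2 : 2 ≤ Fintype.card X) (Y : Finset X) (J m k : ℕ)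
    (hk : k ≤ J) :
    ∑ y : G, ((univ.filter fun u : X => y ^ m • u ∈ Y ∧ y ^ (m + k) • u ∈ Y).card : ℝ) ≤
      Fintype.card G * ((if k = 0 then (Y.card : ℝ) else 0) + J * Y.card / Fintype.card X +
        (Y.card : ℝ) ^ 2 / (Fintype.card X - 1)) := by
  have hN : (0 : ℝ) < Fintype.card X := by
    have : (2 : ℝ) ≤ Fintype.card X := by exact_mod_cast h2
    linarith
  have hN1 : (0 : ℝ) < (Fintype.card X : ℝ) - 1 := by
    have : (2 : ℝ) ≤ Fintype.card X := by exact_mod_cast h2
    linarith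
  simp_rw [card_two]
  rcases Nat.eq_zero_or_pos k with h0 | h0
  · rw [if_pos h0, h0]
    have h3 : ∀ y : G, ((Y.filter fun v => y ^ 0 • v ∈ Y).card : ℝ) = Y.card := by
      intro y
      congr 2
      rw [filter_eq_self]
      intro v hv
      rwa [pow_zero, one_smul]
    rw [sum_congr rfl fun y _ => h3 y, sum_const, nsmul_eq_mul, card_univ]
    have h4 : (0 : ℝ) ≤ J * Y.card / Fintype.card X + (Y.card : ℝ) ^ 2 / (Fintype.card X - 1) := by
      positivity
    have h5 : (0 : ℝ) ≤ Fintype.card G := Nat.cast_nonneg _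
    nlinarith [mul_nonneg h5 h4]
  · rw [if_neg (by omega), zero_add]
    have h3 : ∑ y : G, ((Y.filter fun v => y ^ k • v ∈ Y).card : ℝ) =
        ∑ v ∈ Y, ((univ.filter fun y : G => y ^ k • v ∈ Y).card : ℝ) := by
      simp_rw [card_filter]
      push_cast
      rw [sum_comm]
    rw [h3]
    refine (sum_le_sum fun v _ => pt_bound h h2 Y k h0 v).trans ?_
    rw [sum_const, nsmul_eq_mul]
    have h4 : (k : ℝ) ≤ J := by exact_mod_cast hk
    have h5 : (k : ℝ) / Fintype.card X ≤ J / Fintype.card X := by gcongr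
    have h6 : (Y.card : ℝ) * (Fintype.card G * ((k : ℝ) / Fintype.card X + (Y.card : ℝ) /
        (Fintype.card X - 1))) ≤ (Y.card : ℝ) * (Fintype.card G * ((J : ℝ) / Fintype.card X +
        (Y.card : ℝ) / (Fintype.card X - 1))) := by gcongr
    refine h6.trans (le_of_eq ?_)
    ring

private theorem T_le' (h : Nice G X) (h2 : 2 ≤ Fintype.card X) (Y : Finset X) (J m m' : ℕ)
    (hm : m < J) (hm' : m' < J) :
    ∑ y : G, ((univ.filter fun u : X => y ^ m • u ∈ Y ∧ y ^ m' • u ∈ Y).card : ℝ) ≤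
      Fintype.card G * ((if m = m' then (Y.card : ℝ) else 0) + J * Y.card / Fintype.card X +
        (Y.card : ℝ) ^ 2 / (Fintype.card X - 1)) := by
  rcases le_total m m' with hmm | hmm
  · obtain ⟨k, rfl⟩ := Nat.exists_eq_add_of_le hmm
    have h3 := T_le h h2 Y J m k (by omega)
    have h4 : (m = m + k) ↔ k = 0 := by omega
    simp only [h4]
    exact h3
  · obtain ⟨k, rfl⟩ := Nat.exists_eq_add_of_le hmm
    have h3 := T_le h h2 Y J m' k (by omega)
    have h4 : (m' + k = m') ↔ k = 0 := by omega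
    simp only [h4]
    refine le_trans (le_of_eq ?_) h3
    refine sum_congr rfl fun y _ => ?_
    congr 2
    ext u
    simp only [mem_filter, mem_univ, true_and, and_comm]

theorem sum_hit_sq (h : Nice G X) (h2 : 2 ≤ Fintype.card X) (Y : Finset X) (J : ℕ) :
    (∑ y : G, ∑ u : X, (hit y Y J u : ℝ) ^ 2) ≤ Fintype.card G * (J * Y.card +
      (J : ℝ) ^ 3 * Y.card / Fintype.card X + (J : ℝ) ^ 2 * (Y.card : ℝ) ^ 2 / (Fintype.card X - 1)) := by
  have h1 : ∀ (y : G) (u : X), (hit y Y J u : ℝ) ^ 2 = ∑ m ∈ range J, ∑ m' ∈ range J,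
      (if y ^ m • u ∈ Y ∧ y ^ m' • u ∈ Y then (1 : ℝ) else 0) := by
    intro y u
    have h3 : (hit y Y J u : ℝ) = ∑ m ∈ range J, (if y ^ m • u ∈ Y then (1 : ℝ) else 0) := by
      rw [hit, card_filter]
      push_cast
      rfl
    rw [h3, sq, sum_mul_sum]
    refine sum_congr rfl fun m _ => sum_congr rfl fun m' _ => ?_
    split_ifs <;> simp_all
  have h3 : (∑ y : G, ∑ u : X, (hit y Y J u : ℝ) ^ 2) = ∑ m ∈ range J, ∑ m' ∈ range J,
      ∑ y : G, ((univ.filter fun u : X => y ^ m • u ∈ Y ∧ y ^ m' • u ∈ Y).card : ℝ) := by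
    simp_rw [h1, card_filter]
    push_cast
    calc _ = ∑ y : G, ∑ m ∈ range J, ∑ u : X, ∑ m' ∈ range J,
        (if y ^ m • u ∈ Y ∧ y ^ m' • u ∈ Y then (1 : ℝ) else 0) :=
          sum_congr rfl fun y _ => sum_comm
      _ = ∑ m ∈ range J, ∑ y : G, ∑ u : X, ∑ m' ∈ range J,
        (if y ^ m • u ∈ Y ∧ y ^ m' • u ∈ Y then (1 : ℝ) else 0) := sum_comm
      _ = ∑ m ∈ range J, ∑ y : G, ∑ m' ∈ range J, ∑ u : X,
        (if y ^ m • u ∈ Y ∧ y ^ m' • u ∈ Y then (1 : ℝ) else 0) :=
          sum_congr rfl fun m _ => sum_congr rfl fun y _ => sum_comm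
      _ = _ := sum_congr rfl fun m _ => sum_comm
  rw [h3]
  refine (sum_le_sum fun m hm => sum_le_sum fun m' hm' =>
    T_le' h h2 Y J m m' (mem_range.1 hm) (mem_range.1 hm')).trans (le_of_eq ?_)
  simp_rw [← mul_sum, sum_add_distrib]
  simp only [sum_const, card_range, nsmul_eq_mul]
  have h4 : ∑ m ∈ range J, ∑ m' ∈ range J, (if m = m' then (Y.card : ℝ) else 0) = J * Y.card := by
    have h5 : ∀ m ∈ range J, ∑ m' ∈ range J, (if m = m' then (Y.card : ℝ) else 0) = Y.card := by
      intro m hm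
      rw [sum_ite_eq, if_pos hm]
    rw [sum_congr rfl h5, sum_const, card_range, nsmul_eq_mul]
  rw [h4]
  ring

/-- a point which is hit is in the union of orbits (the powers of `y` form a finite group) -/
theorem mem_orb_of_hit (y : G) (Y : Finset X) (J : ℕ) (u : X) (h : hit y Y J u ≠ 0) :
    u ∈ orb y Y := by
  rw [hit, card_ne_zero] at h
  obtain ⟨m, hm⟩ := h
  have hY := (mem_filter.1 hm).2
  classical
  refine mem_filter.2 ⟨mem_univ _, m * (orderOf y - 1), y ^ m • u, hY, ?_⟩
  have h1 : 0 < orderOf y := orderOf_pos y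
  rw [smul_smul, ← pow_add]
  have h2 : m * (orderOf y - 1) + m = orderOf y * m := by
    obtain ⟨k, hk⟩ : ∃ k, orderOf y = k + 1 := ⟨orderOf y - 1, by omega⟩
    rw [hk, Nat.add_sub_cancel]
    ring
  rw [h2, pow_mul, pow_orderOf_eq_one, one_pow, one_smul]

end Pool.Agent.RSC
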