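import Pool.Agent.RSC.Defs
import Pool.Agent.RGC.Move

/-!
# RSC module MV: the moves with powers

As `RGC.moveA`, `RGC.moveB` (induction on `m`), with `W : a_s ↦ a_s a_q` (`farV`), `q = r + m`, followed by the twist
`D : a_q ↦ a_q b_q^e`, `b_q ↦ b_q`, all other handles fixed (`exB` of PWI/Auto: `T (a_q) = a_q b_q⁻¹`, take powers of
`T⁻¹`): `D (W a_s) = a_s a_q b_q^e`.  Compose `T * (D * W)`.
-/

namespace Pool.Agent.RSC

open Pool.Agent.PWI hiding SuppI Wi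
open Pool.Agent.RGC

variable {g n : ℕ}

private theorem inv_app (T : PMod g n) {x y : SG g n} (h : T.1 x = y) : (T⁻¹).1 y = x :=
  act_inv_eq h

private theorem twist (q k : ℕ) : ∃ D : PMod g n, D.1 (sa q) = sa q * sb q ^ k ∧
    D.1 (sb q) = sb q ∧ (∀ i, i ≠ q → D.1 (sa i) = sa i ∧ D.1 (sb i) = sb i) ∧
    ∀ j, D.1 (sz j) = sz j := by
  induction k with
  | zero => exact ⟨1, by simp, rfl, fun _ _ => ⟨rfl, rfl⟩, fun _ => rfl⟩
  | succ k ih =>
    obtain ⟨D, h1, h2, h3, h4⟩ := ih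
    obtain ⟨T, t1, t2, t3, t4⟩ := exB (g := g) (n := n) q
    have u1 : (T⁻¹).1 (sa q) = sa q * sb q := inv_app T (by rw [map_mul, t1, t2]; group)
    have u2 : (T⁻¹).1 (sb q) = sb q := inv_app T t2
    refine ⟨D * T⁻¹, ?_, ?_, fun i hi => ⟨?_, ?_⟩, fun j => ?_⟩
    · rw [act_mul', u1, map_mul, h1, h2, pow_succ, mul_assoc]
    · rw [act_mul', u2, h2]
    · rw [act_mul', inv_app T (t3 i (by simpa using hi)).1, (h3 i hi).1]
    · rw [act_mul', inv_app T (t3 i (by simpa using hi)).2, (h3 i hi).2]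
    · rw [act_mul', inv_app T (t4 j), h4]

private theorem twistI (p q k : ℕ) (hp : p ≤ q) : ∃ D : PMod g n,
    D.1 (sa q) = sa q * sb q ^ k ∧ D.1 (sb q) = sb q ∧
    (∀ i, i ≠ q → D.1 (sa i) = sa i ∧ D.1 (sb i) = sb i) ∧ SuppI D p (q + 1) := by
  obtain ⟨D, h1, h2, h3, h4⟩ := twist (g := g) (n := n) q k
  refine ⟨D, h1, h2, h3, fun i hi => h3 i (by omega), h4, fun i hi1 hi2 => ?_⟩
  have ma : ∀ i, p ≤ i → i < q + 1 → (sa i : SG g n) ∈ (Wi p (q + 1) : Subgroup (SG g n)) :=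
    fun i hi1 hi2 => Subgroup.subset_closure ⟨i, hi1, hi2, Or.inl rfl⟩
  have mb : ∀ i, p ≤ i → i < q + 1 → (sb i : SG g n) ∈ (Wi p (q + 1) : Subgroup (SG g n)) :=
    fun i hi1 hi2 => Subgroup.subset_closure ⟨i, hi1, hi2, Or.inr rfl⟩
  by_cases hq : i = q
  · subst hq
    rw [h1, h2]
    exact ⟨mul_mem (ma _ hi1 hi2) (pow_mem (mb _ hi1 hi2) _), mb _ hi1 hi2⟩
  · rw [(h3 i hq).1, (h3 i hq).2]
    exact ⟨ma _ hi1 hi2, mb _ hi1 hi2⟩

theorem moveA (s r : ℕ) (hr : s < r) (e : ℕ → ℕ) (m : ℕ) (h : r + m ≤ g) : ∃ T : PMod g n,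
    T.1 (sa s) = sa s * pw (fun j => sa (r + j)) (fun j => sb (r + j)) e m ∧ SuppI T s (r + m) := by
  induction m with
  | zero => exact ⟨1, by simp [pw], suppI_one _ _⟩
  | succ m ih =>
    obtain ⟨T, hT, hTs⟩ := ih (by omega)
    obtain ⟨W, hW, hWs⟩ := farV (g := g) (n := n) s (r + m) (by omega) (by omega)
    obtain ⟨D, d1, d2, d3, hDs⟩ := twistI (g := g) (n := n) s (r + m) (e m) (by omega)
    refine ⟨T * (D * W), ?_, (hTs.mono le_rfl (by omega)).mul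
      ((hDs.mono le_rfl (by omega)).mul (hWs.mono le_rfl (by omega)))⟩
    rw [act_mul', act_mul', hW, map_mul, d1, (d3 s (by omega)).1, map_mul, map_mul, map_pow, hT,
      (hTs.1 (r + m) (Or.inr le_rfl)).1, (hTs.1 (r + m) (Or.inr le_rfl)).2]
    simp only [pw, mul_assoc]

theorem moveB (s r : ℕ) (hr : s < r) (e : ℕ → ℕ) (m : ℕ) (h : r + m ≤ g) : ∃ T : PMod g n,
    T.1 (sa s) = sa s ∧ T.1 (sb s) = (pw (fun j => sa (r + j)) (fun j => sb (r + j)) e m)⁻¹ * sb s ∧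
      SuppI T s (r + m) := by
  induction m with
  | zero => exact ⟨1, rfl, by simp [pw], suppI_one _ _⟩
  | succ m ih =>
    obtain ⟨T, hT, hT2, hTs⟩ := ih (by omega)
    obtain ⟨W, hW, hW2, hWs⟩ := farU (g := g) (n := n) s (r + m) (by omega) (by omega)
    obtain ⟨D, d1, d2, d3, hDs⟩ := twistI (g := g) (n := n) s (r + m) (e m) (by omega)
    refine ⟨T * (D * W), ?_, ?_, (hTs.mono le_rfl (by omega)).mul
      ((hDs.mono le_rfl (by omega)).mul (hWs.mono le_rfl (by omega)))⟩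
    · rw [act_mul', act_mul', hW, (d3 s (by omega)).1, hT]
    · rw [act_mul', act_mul', hW2, map_mul, map_inv, d1, (d3 s (by omega)).2, map_mul, map_inv,
        map_mul, map_pow, hT2, (hTs.1 (r + m) (Or.inr le_rfl)).1,
        (hTs.1 (r + m) (Or.inr le_rfl)).2]
      simp only [pw, mul_assoc, mul_inv_rev]

end Pool.Agent.RSC
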