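import Pool.Agent.RSC.Sta
import Pool.Agent.RSC.Grow
import Pool.Agent.RSC.Cov

/-!
# RSC module PROB: three handles reach a given point

`R = x_0 orb y_0 (x_1 orb y_1 (x_2 orb y_2 {p}))` is the set of the points `pw x y e 3 • p`.  Fix `L ≥ 1`,
`K = ⌊√N / L⌋`.  Bad events: (1) `|orb y_2 {p}| < K`: proportion `≤ K^2 / N ≤ 1 / L^2`. (2) given
`Y = x_2 orb y_2 {p}` with `|Y| ≥ K`: `2 |orb y_1 Y| < K^2`: proportion `≤ 3 / L^2` for large `N`. (3) given
`Y = x_1 orb y_1 ...` with `|Y| ≥ K^2 / 2 ≥ N / (4 L^2)` (large `N`): `q ∉ x_0 orb y_0 Y`: by `trans_count`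
(`x_0⁻¹ • q` is uniform) the proportion is the mean of `1 - |orb y_0 Y| / N`, by `cover` with `J ≈ √N` at most
`N (1 / (J |Y|) + J / (N |Y|)) + 1 / (N-1) → 0`.
Take `L` large, then `N` large.
-/

set_option autoImplicit false

namespace Pool.Agent.RSC

open Finset

section
variable {G X : Type} [Group G] [Fintype G] [DecidableEq G] [MulAction G X] [Fintype X] [DecidableEq X]

/-- The number of the pairs `x, y` with `q ∉ x orb y A`. -/
private noncomputable def pt (G : Type) {X : Type} [Group G] [Fintype G] [MulAction G X] [Fintype X]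
    [DecidableEq X] (q : X) (A : Finset X) : ℝ :=
  ∑ x : G, ∑ y : G, if x⁻¹ • q ∈ orb y A then (0 : ℝ) else 1

/-- The translate of `A` by `x`. -/
private def tr {G X : Type} [Group G] [MulAction G X] [DecidableEq X] (x : G) (A : Finset X) :
    Finset X := A.image fun v => x • v

omit [Fintype G] [DecidableEq G] [Fintype X] in
private theorem tr_card (x : G) (A : Finset X) : (tr x A).card = A.card :=
  Finset.card_image_of_injective _ (MulAction.injective x)

omit [DecidableEq G] in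
private theorem pt_nonneg (q : X) (A : Finset X) : 0 ≤ pt G q A :=
  Finset.sum_nonneg fun _ _ => Finset.sum_nonneg fun _ _ => by split_ifs <;> norm_num

omit [DecidableEq G] in
private theorem pt_le (q : X) (A : Finset X) : pt G q A ≤ (Fintype.card G : ℝ) ^ 2 := by
  have h : pt G q A ≤ ∑ _x : G, ∑ _y : G, (1 : ℝ) :=
    Finset.sum_le_sum fun _ _ => Finset.sum_le_sum fun _ _ => by split_ifs <;> norm_num
  refine h.trans (le_of_eq ?_)
  simp [pow_two]

private theorem pt_eq (h : Nice G X) (h2 : 2 ≤ Fintype.card X) (q : X) (A : Finset X) :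
    pt G q A * Fintype.card X =
      Fintype.card G * ∑ y : G, ((Fintype.card X : ℝ) - (orb y A).card) := by
  unfold pt
  rw [Finset.sum_comm, Finset.sum_mul, Finset.mul_sum]
  refine Finset.sum_congr rfl fun y _ => ?_
  have e1 : ∑ x : G, (if x⁻¹ • q ∈ orb y A then (0 : ℝ) else 1) =
      ∑ x : G, (if x • q ∈ orb y A then (0 : ℝ) else 1) :=
    Equiv.sum_comp (Equiv.inv G) fun x => if x • q ∈ orb y A then (0 : ℝ) else 1
  have e2 : ∑ x : G, (if x • q ∈ orb y A then (0 : ℝ) else 1) =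
      Fintype.card G - ((univ.filter fun x : G => x • q ∈ orb y A).card : ℝ) := by
    have : ∀ x : G, (if x • q ∈ orb y A then (0 : ℝ) else 1) =
        1 - if x • q ∈ orb y A then (1 : ℝ) else 0 := fun x => by split_ifs <;> norm_num
    rw [Finset.sum_congr rfl fun x _ => this x, Finset.sum_sub_distrib, Finset.sum_boole]
    simp
  have e3 : ((univ.filter fun x : G => x • q ∈ orb y A).card : ℝ) * Fintype.card X =
      (orb y A).card * Fintype.card G := by
    exact_mod_cast trans_count h h2 q (orb y A)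
  rw [e1, e2, sub_mul, e3]
  ring

private theorem pt_low (h : Nice G X) (h2 : 2 ≤ Fintype.card X) (q : X) (A : Finset X) {J : ℕ}
    (hJ : 1 ≤ J) {a : ℝ} (ha : 0 < a) (hA : a ≤ A.card) :
    pt G q A ≤ (Fintype.card G : ℝ) ^ 2 * (Fintype.card X * (1 / (J * a) +
      J / (Fintype.card X * a) + 1 / (Fintype.card X * (Fintype.card X - 1)))) := by
  have hN : (2 : ℝ) ≤ Fintype.card X := by exact_mod_cast h2
  have hJ' : (1 : ℝ) ≤ J := by exact_mod_cast hJ
  have hne : A.Nonempty := by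
    rw [← Finset.card_pos]
    have : (0 : ℝ) < A.card := by linarith
    exact_mod_cast this
  have h1 := pt_eq h h2 q A
  have h3 := cover h h2 A hne J hJ
  have hmono : 1 / (J * (A.card : ℝ)) + J / (Fintype.card X * (A.card : ℝ)) +
      1 / (Fintype.card X * ((Fintype.card X : ℝ) - 1)) ≤ 1 / (J * a) +
      J / (Fintype.card X * a) + 1 / (Fintype.card X * ((Fintype.card X : ℝ) - 1)) := by
    have i1 : 1 / (J * (A.card : ℝ)) ≤ 1 / (J * a) :=
      one_div_le_one_div_of_le (by positivity) (mul_le_mul_of_nonneg_left hA (by positivity))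
    have i2 : J / (Fintype.card X * (A.card : ℝ)) ≤ J / (Fintype.card X * a) :=
      div_le_div_of_nonneg_left (by positivity) (by positivity)
        (mul_le_mul_of_nonneg_left hA (by positivity))
    linarith
  have hG : (0 : ℝ) ≤ Fintype.card G := by positivity
  have h4 : pt G q A * Fintype.card X ≤ ((Fintype.card G : ℝ) ^ 2 * (Fintype.card X * (1 / (J * a) +
      J / (Fintype.card X * a) + 1 / (Fintype.card X * (Fintype.card X - 1))))) *
      Fintype.card X := by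
    rw [h1]
    calc (Fintype.card G : ℝ) * ∑ y : G, ((Fintype.card X : ℝ) - (orb y A).card)
        ≤ Fintype.card G * (Fintype.card G * (Fintype.card X : ℝ) ^ 2 *
          (1 / (J * A.card) + J / (Fintype.card X * A.card) +
            1 / (Fintype.card X * (Fintype.card X - 1)))) := mul_le_mul_of_nonneg_left h3 hG
      _ ≤ Fintype.card G * (Fintype.card G * (Fintype.card X : ℝ) ^ 2 *
          (1 / (J * a) + J / (Fintype.card X * a) +
            1 / (Fintype.card X * (Fintype.card X - 1)))) := by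
          refine mul_le_mul_of_nonneg_left (mul_le_mul_of_nonneg_left hmono ?_) hG
          positivity
      _ = _ := by ring
  exact le_of_mul_le_mul_right h4 (by linarith)

private theorem mid_low (h : Nice G X) (h2 : 2 ≤ Fintype.card X) (q : X) (A : Finset X) {J K : ℕ}
    (hJ : 1 ≤ J) (hK : 1 ≤ K) (hA : K ≤ A.card) {c : ℝ} (hc : 0 ≤ c)
    (hc' : c = Fintype.card X * (1 / (J * ((K : ℝ) ^ 2 / 2)) +
      J / (Fintype.card X * ((K : ℝ) ^ 2 / 2)) + 1 / (Fintype.card X * (Fintype.card X - 1)))) :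
    ∑ x : G, ∑ y : G, pt G q (tr x (orb y A)) ≤ (Fintype.card G : ℝ) ^ 4 * (c +
      ((K : ℝ) ^ 2 / Fintype.card X + (K : ℝ) ^ 2 / (Fintype.card X - 1))) := by
  have hK' : (1 : ℝ) ≤ K := by exact_mod_cast hK
  have hpt : ∀ x y : G, pt G q (tr x (orb y A)) ≤ (Fintype.card G : ℝ) ^ 2 *
      (c + if 2 * (orb y A).card < K ^ 2 then (1 : ℝ) else 0) := by
    intro x y
    split_ifs with hlt
    · refine (pt_le q _).trans ?_
      have : (0 : ℝ) ≤ (Fintype.card G : ℝ) ^ 2 := by positivity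
      nlinarith
    · rw [add_zero, hc']
      refine pt_low h h2 q _ hJ (by positivity) ?_
      rw [tr_card]
      have : (K : ℝ) ^ 2 ≤ 2 * (orb y A).card := by exact_mod_cast not_lt.1 hlt
      linarith
  have hg := grow h h2 A K hK hA
  calc ∑ x : G, ∑ y : G, pt G q (tr x (orb y A))
      ≤ ∑ _x : G, ∑ y : G, (Fintype.card G : ℝ) ^ 2 *
        (c + if 2 * (orb y A).card < K ^ 2 then (1 : ℝ) else 0) :=
        Finset.sum_le_sum fun x _ => Finset.sum_le_sum fun y _ => hpt x y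
    _ = (Fintype.card G : ℝ) ^ 3 * (Fintype.card G * c +
        ((univ.filter fun y : G => 2 * (orb y A).card < K ^ 2).card : ℝ)) := by
        rw [Finset.sum_const, ← Finset.mul_sum, Finset.sum_add_distrib, Finset.sum_boole,
          Finset.sum_const, Finset.card_univ, nsmul_eq_mul, nsmul_eq_mul]
        ring
    _ ≤ (Fintype.card G : ℝ) ^ 3 * (Fintype.card G * c + Fintype.card G *
        ((K : ℝ) ^ 2 / Fintype.card X + (K : ℝ) ^ 2 / (Fintype.card X - 1))) := by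
        refine mul_le_mul_of_nonneg_left ?_ (by positivity)
        linarith
    _ = _ := by ring

omit [DecidableEq G] in
private theorem mid_le (q : X) (A : Finset X) :
    ∑ x : G, ∑ y : G, pt G q (tr x (orb y A)) ≤ (Fintype.card G : ℝ) ^ 4 := by
  calc ∑ x : G, ∑ y : G, pt G q (tr x (orb y A))
      ≤ ∑ _x : G, ∑ _y : G, (Fintype.card G : ℝ) ^ 2 :=
        Finset.sum_le_sum fun x _ => Finset.sum_le_sum fun y _ => pt_le q _
    _ = _ := by
        simp
        ring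

private theorem top_low (h : Nice G X) (h2 : 2 ≤ Fintype.card X) (p q : X) {J K : ℕ}
    (hJ : 1 ≤ J) (hK : 1 ≤ K) {c : ℝ} (hc : 0 ≤ c)
    (hc' : c = Fintype.card X * (1 / (J * ((K : ℝ) ^ 2 / 2)) +
      J / (Fintype.card X * ((K : ℝ) ^ 2 / 2)) + 1 / (Fintype.card X * (Fintype.card X - 1)))) :
    ∑ x₂ : G, ∑ y₂ : G, ∑ x : G, ∑ y : G, pt G q (tr x (orb y (tr x₂ (orb y₂ {p})))) ≤
      (Fintype.card G : ℝ) ^ 6 * ((K : ℝ) ^ 2 / Fintype.card X +
        ((K : ℝ) ^ 2 / Fintype.card X + (K : ℝ) ^ 2 / (Fintype.card X - 1)) + c) := by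
  have hN : (2 : ℝ) ≤ Fintype.card X := by exact_mod_cast h2
  have hb : 0 ≤ (K : ℝ) ^ 2 / Fintype.card X + (K : ℝ) ^ 2 / (Fintype.card X - 1) := by
    have : (0 : ℝ) < Fintype.card X - 1 := by linarith
    positivity
  set b : ℝ := (K : ℝ) ^ 2 / Fintype.card X + (K : ℝ) ^ 2 / (Fintype.card X - 1) with hbdef
  have hpt : ∀ x₂ y₂ : G, ∑ x : G, ∑ y : G, pt G q (tr x (orb y (tr x₂ (orb y₂ {p})))) ≤
      (Fintype.card G : ℝ) ^ 4 *
      (c + b + if (orb y₂ {p}).card < K then (1 : ℝ) else 0) := by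
    intro x₂ y₂
    split_ifs with hlt
    · refine (mid_le q _).trans ?_
      have : (0 : ℝ) ≤ (Fintype.card G : ℝ) ^ 4 := by positivity
      nlinarith
    · rw [add_zero]
      refine mid_low h h2 q _ hJ hK ?_ hc hc'
      rw [tr_card]
      exact not_lt.1 hlt
  have hs := start h p K
  have hs' : ((univ.filter fun y : G => (orb y {p}).card < K).card : ℝ) ≤
      Fintype.card G * ((K : ℝ) ^ 2 / Fintype.card X) := by
    rw [← mul_div_assoc, le_div_iff₀ (by linarith)]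
    linarith
  calc ∑ x₂ : G, ∑ y₂ : G, ∑ x : G, ∑ y : G, pt G q (tr x (orb y (tr x₂ (orb y₂ {p}))))
      ≤ ∑ _x₂ : G, ∑ y₂ : G, (Fintype.card G : ℝ) ^ 4 *
        (c + b + if (orb y₂ {p}).card < K then (1 : ℝ) else 0) :=
        Finset.sum_le_sum fun x _ => Finset.sum_le_sum fun y _ => hpt x y
    _ = (Fintype.card G : ℝ) ^ 5 * (Fintype.card G * (c + b) +
        ((univ.filter fun y : G => (orb y {p}).card < K).card : ℝ)) := by
        rw [Finset.sum_const, ← Finset.mul_sum, Finset.sum_add_distrib, Finset.sum_boole,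
          Finset.sum_const, Finset.card_univ, nsmul_eq_mul, nsmul_eq_mul]
        ring
    _ ≤ (Fintype.card G : ℝ) ^ 5 * (Fintype.card G * (c + b) + Fintype.card G *
        ((K : ℝ) ^ 2 / Fintype.card X)) := by
        refine mul_le_mul_of_nonneg_left ?_ (by positivity)
        linarith
    _ = _ := by ring

omit [Fintype G] [DecidableEq G] [DecidableEq X] in
private theorem mem_orb' {y : G} {A : Finset X} {u : X} :
    u ∈ orb y A ↔ ∃ m : ℕ, ∃ v ∈ A, u = y ^ m • v := by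
  classical
  unfold orb
  rw [Finset.mem_filter]
  simp

omit [Fintype G] [DecidableEq G] in
private theorem miss_not (p q : X) (w : (Fin 3 → G) × (Fin 3 → G)) (hw : Miss p q w) :
    (w.1 0)⁻¹ • q ∉ orb (w.2 0) (tr (w.1 1) (orb (w.2 1) (tr (w.1 2) (orb (w.2 2) {p})))) := by
  intro hmem
  obtain ⟨m0, v, hv, hq⟩ := mem_orb'.1 hmem
  obtain ⟨v1, hv1, rfl⟩ := Finset.mem_image.1 hv
  obtain ⟨m1, v2, hv2, rfl⟩ := mem_orb'.1 hv1
  obtain ⟨v3, hv3, rfl⟩ := Finset.mem_image.1 hv2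
  obtain ⟨m2, v4, hv4, rfl⟩ := mem_orb'.1 hv3
  rw [Finset.mem_singleton] at hv4
  subst hv4
  refine hw (fun j => if j = 0 then m0 else if j = 1 then m1 else m2) ?_
  have e0 : (Fin.ofNat 3 0 : Fin 3) = 0 := rfl
  have e1 : (Fin.ofNat 3 1 : Fin 3) = 1 := rfl
  have e2 : (Fin.ofNat 3 2 : Fin 3) = 2 := rfl
  rw [inv_smul_eq_iff] at hq
  rw [hq]
  simp only [pw, e0, e1, e2, one_mul, mul_smul, if_true, one_ne_zero, if_false,
    OfNat.ofNat_ne_zero, OfNat.ofNat_ne_one]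

/-- The six coordinates. -/
private def six (G : Type) : ((Fin 3 → G) × (Fin 3 → G)) ≃ G × G × G × G × G × G where
  toFun w := (w.1 2, w.2 2, w.1 1, w.2 1, w.1 0, w.2 0)
  invFun t := (![t.2.2.2.2.1, t.2.2.1, t.1], ![t.2.2.2.2.2, t.2.2.2.1, t.2.1])
  left_inv w := by
    refine Prod.ext (funext fun i => ?_) (funext fun i => ?_) <;> fin_cases i <;> rfl
  right_inv t := rfl

omit [DecidableEq G] in
private theorem miss_card (p q : X) :
    (Nat.card {w : (Fin 3 → G) × (Fin 3 → G) // Miss p q w} : ℝ) ≤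
      ∑ x₂ : G, ∑ y₂ : G, ∑ x : G, ∑ y : G, pt G q (tr x (orb y (tr x₂ (orb y₂ {p})))) := by
  classical
  rw [Nat.card_eq_fintype_card, Fintype.card_subtype, ← Finset.sum_boole]
  calc ∑ w : (Fin 3 → G) × (Fin 3 → G), (if Miss p q w then (1 : ℝ) else 0)
      ≤ ∑ w : (Fin 3 → G) × (Fin 3 → G), (if (w.1 0)⁻¹ • q ∈ orb (w.2 0) (tr (w.1 1)
          (orb (w.2 1) (tr (w.1 2) (orb (w.2 2) {p})))) then (0 : ℝ) else 1) := by
        refine Finset.sum_le_sum fun w _ => ?_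
        by_cases hw : Miss p q w
        · rw [if_pos hw, if_neg (miss_not p q w hw)]
        · rw [if_neg hw]
          split_ifs <;> norm_num
    _ = ∑ t : G × G × G × G × G × G, (if t.2.2.2.2.1⁻¹ • q ∈ orb t.2.2.2.2.2 (tr t.2.2.1
          (orb t.2.2.2.1 (tr t.1 (orb t.2.1 {p})))) then (0 : ℝ) else 1) :=
        Fintype.sum_equiv (six G) _ _ fun w => rfl
    _ = _ := by
        simp only [Fintype.sum_prod_type, pt]

end

private theorem num {ε : ℝ} (hε : 0 < ε) : ∃ N₀ : ℕ, 2 ≤ N₀ ∧ ∀ N : ℕ, N₀ ≤ N →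
    ∃ J K : ℕ, 1 ≤ J ∧ 1 ≤ K ∧ ((K : ℝ) ^ 2 / N + ((K : ℝ) ^ 2 / N + (K : ℝ) ^ 2 / (N - 1)) +
      N * (1 / (J * ((K : ℝ) ^ 2 / 2)) + J / (N * ((K : ℝ) ^ 2 / 2)) + 1 / (N * (N - 1)))) ≤ ε := by
  obtain ⟨L, hL⟩ := exists_nat_ge (8 / ε + 1)
  have hL1 : (1 : ℝ) ≤ L := by
    have : 0 < 8 / ε := by positivity
    linarith
  obtain ⟨M, hM⟩ := exists_nat_ge (52 * (L : ℝ) ^ 2 / ε + 2 * L + 2)
  refine ⟨M ^ 2 + 2, by omega, fun N hN => ?_⟩
  have hM0 : (0 : ℝ) ≤ M := by positivity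
  have hNM : (M : ℝ) ^ 2 + 2 ≤ N := by exact_mod_cast hN
  set s : ℝ := Real.sqrt N with hs
  have hs2 : s ^ 2 = N := Real.sq_sqrt (by positivity)
  have hsM : (M : ℝ) ≤ s := Real.le_sqrt_of_sq_le (by linarith)
  have hq : 0 ≤ 52 * (L : ℝ) ^ 2 / ε := by positivity
  have hs1 : 2 * (L : ℝ) + 2 ≤ s := by linarith
  have hsε : 52 * (L : ℝ) ^ 2 / ε ≤ s := by linarith
  have hs0 : 0 < s := by linarith
  have hL0 : (0 : ℝ) < L := by linarith
  refine ⟨⌈s⌉₊, ⌊s / L⌋₊, ?_, ?_, ?_⟩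
  · exact Nat.one_le_iff_ne_zero.2 (Nat.ceil_pos.2 hs0).ne'
  · rw [Nat.one_le_floor_iff, le_div_iff₀ hL0]
    linarith
  have hJ1 : s ≤ (⌈s⌉₊ : ℝ) := Nat.le_ceil s
  have hJ2 : (⌈s⌉₊ : ℝ) ≤ 2 * s := by
    have := Nat.ceil_lt_add_one hs0.le
    linarith
  have hK1 : (⌊s / L⌋₊ : ℝ) ≤ s / L := Nat.floor_le (by positivity)
  have hK2 : s / (2 * L) ≤ (⌊s / L⌋₊ : ℝ) := by
    have h1 := Nat.lt_floor_add_one (s / L)
    have h2 : s / L = s / (2 * L) + s / (2 * L) := by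
      field_simp
      ring
    have h3 : 1 ≤ s / (2 * L) := by
      rw [le_div_iff₀ (by positivity)]
      linarith
    linarith
  set J : ℝ := (⌈s⌉₊ : ℝ) with hJ
  set K : ℝ := (⌊s / L⌋₊ : ℝ) with hK
  have hKp : 0 < s / (2 * L) := by positivity
  have hKl : s ^ 2 / (4 * L ^ 2) ≤ K ^ 2 := by
    have : (s / (2 * L)) ^ 2 ≤ K ^ 2 := pow_le_pow_left₀ hKp.le hK2 2
    calc s ^ 2 / (4 * L ^ 2) = (s / (2 * L)) ^ 2 := by
          field_simp
          ring
      _ ≤ _ := this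
  have hKu : K ^ 2 ≤ s ^ 2 / L ^ 2 := by
    have : K ^ 2 ≤ (s / L) ^ 2 := pow_le_pow_left₀ (by linarith) hK1 2
    rwa [div_pow] at this
  have hK0 : 0 < K ^ 2 := lt_of_lt_of_le (by positivity) hKl
  have hs4 : 4 ≤ s := by linarith
  have hN1 : s ^ 2 / 2 ≤ s ^ 2 - 1 := by nlinarith
  have hN1' : 0 < s ^ 2 - 1 := by nlinarith
  rw [← hs2]
  have a1 : K ^ 2 / s ^ 2 ≤ 1 / L ^ 2 := by
    rw [div_le_div_iff₀ (by positivity) (by positivity)]
    rw [le_div_iff₀ (by positivity)] at hKu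
    linarith
  have a2 : K ^ 2 / (s ^ 2 - 1) ≤ 2 / L ^ 2 := by
    rw [div_le_div_iff₀ hN1' (by positivity)]
    rw [le_div_iff₀ (by positivity)] at hKu
    nlinarith
  have a3 : s ^ 2 * (1 / (J * (K ^ 2 / 2))) ≤ 8 * L ^ 2 / s := by
    rw [mul_one_div, div_le_div_iff₀ (by positivity) hs0]
    rw [div_le_iff₀ (by positivity)] at hKl
    nlinarith [mul_le_mul hJ1 hKl (by positivity) (by positivity : (0 : ℝ) ≤ J)]
  have a4 : s ^ 2 * (J / (s ^ 2 * (K ^ 2 / 2))) ≤ 16 * L ^ 2 / s := by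
    have e : s ^ 2 * (J / (s ^ 2 * (K ^ 2 / 2))) = J / (K ^ 2 / 2) := by
      field_simp
    rw [e, div_le_div_iff₀ (by positivity) hs0]
    rw [div_le_iff₀ (by positivity)] at hKl
    nlinarith
  have a5 : s ^ 2 * (1 / (s ^ 2 * (s ^ 2 - 1))) ≤ 2 * L ^ 2 / s := by
    have e : s ^ 2 * (1 / (s ^ 2 * (s ^ 2 - 1))) = 1 / (s ^ 2 - 1) := by
      field_simp
    rw [e, div_le_div_iff₀ hN1' hs0]
    nlinarith [mul_le_mul hN1 (one_le_pow₀ hL1 : (1 : ℝ) ≤ (L : ℝ) ^ 2) (by norm_num)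
      hN1'.le]
  have a6 : 4 / (L : ℝ) ^ 2 ≤ ε / 2 := by
    rw [div_le_iff₀ (by positivity)]
    have h1 : 8 / ε ≤ L := by linarith
    rw [div_le_iff₀ hε] at h1
    nlinarith
  have a7 : 26 * (L : ℝ) ^ 2 / s ≤ ε / 2 := by
    rw [div_le_iff₀ hs0]
    rw [div_le_iff₀ hε] at hsε
    linarith
  have t1 : 1 / (L : ℝ) ^ 2 + (1 / (L : ℝ) ^ 2 + 2 / (L : ℝ) ^ 2) = 4 / (L : ℝ) ^ 2 := by ring
  have t2 : 8 * (L : ℝ) ^ 2 / s + 16 * L ^ 2 / s + 2 * L ^ 2 / s = 26 * (L : ℝ) ^ 2 / s := by ring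
  have t3 : s ^ 2 * (1 / (J * (K ^ 2 / 2)) + J / (s ^ 2 * (K ^ 2 / 2)) +
      1 / (s ^ 2 * (s ^ 2 - 1))) = s ^ 2 * (1 / (J * (K ^ 2 / 2))) +
      s ^ 2 * (J / (s ^ 2 * (K ^ 2 / 2))) + s ^ 2 * (1 / (s ^ 2 * (s ^ 2 - 1))) := by ring
  linarith

theorem prob (ε : ℝ) (hε : 0 < ε) : ∃ N₀ : ℕ, ∀ (G X : Type) [Group G] [Finite G]
    [MulAction G X] [Finite X], Nice G X → N₀ ≤ Nat.card X → ∀ p : X, FewMiss ε G p := by
  classical
  obtain ⟨N₀, hN₀, hnum⟩ := num hε
  refine ⟨N₀, fun G X _ _ _ _ h hN p q => ?_⟩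
  have := Fintype.ofFinite G
  have := Fintype.ofFinite X
  rw [Nat.card_eq_fintype_card] at hN
  obtain ⟨J, K, hJ, hK, hJK⟩ := hnum _ hN
  have h2 : 2 ≤ Fintype.card X := hN₀.trans hN
  have hX : (2 : ℝ) ≤ Fintype.card X := by exact_mod_cast h2
  have hX1 : (0 : ℝ) < Fintype.card X - 1 := by linarith
  refine (miss_card p q).trans ?_
  refine (top_low h h2 p q hJ hK (c := Fintype.card X * (1 / (J * ((K : ℝ) ^ 2 / 2)) +
      J / (Fintype.card X * ((K : ℝ) ^ 2 / 2)) + 1 / (Fintype.card X * (Fintype.card X - 1))))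
    (by positivity) rfl).trans ?_
  rw [Nat.card_eq_fintype_card, mul_comm]
  exact mul_le_mul_of_nonneg_right hJK (by positivity)

end Pool.Agent.RSC
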