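import Pool.Agent.RSC.Mv
import Pool.Agent.RSC.Fib
import Pool.Agent.RGC.Range

/-!
# RSC module RNG: one range of seven handles

As `RGC.range_bad` with `m = 3`: `A1` = tuples with no `e` with `pw (...) e 3 • p = (u a_s)⁻¹ • p` (handles
`s+1, s+2, s+3`), `A2` = tuples with no `e` with `pw (...) e 3 • p = β • p` (handles `s+4, s+5, s+6`), `β` = value of
`ρ (T1 b_s)`, `T1` of `moveA` for the chosen `e` (a function of the first coordinates only).
`ρ (a_s pw) • p = p`, `ρ (pw⁻¹ T1 b_s) • p = p`.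
-/

namespace Pool.Agent.RSC

open Pool.Agent.PWI hiding SuppI Wi bring
open Pool.Agent.RGC Finset

variable {g n : ℕ}

theorem map_pw {G H : Type*} [Group G] [Group H] (f : G →* H) (c d : ℕ → G) (e : ℕ → ℕ) (m : ℕ) :
    f (pw c d e m) = pw (fun j => f (c j)) (fun j => f (d j)) e m := by
  induction m with
  | zero => exact map_one f
  | succ m ih => simp only [pw, map_mul, map_pow, ih]

theorem pw_congr {G : Type*} [Group G] {c c' d d' : ℕ → G} (e : ℕ → ℕ) (m : ℕ)
    (h : ∀ j < m, c j = c' j ∧ d j = d' j) : pw c d e m = pw c' d' e m := by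
  induction m with
  | zero => rfl
  | succ m ih =>
    simp only [pw, ih fun j hj => h j (by omega), (h m (by omega)).1, (h m (by omega)).2]

theorem pw_mem {G : Type*} [Group G] (K : Subgroup G) (c d : ℕ → G) (e : ℕ → ℕ) (m : ℕ)
    (h : ∀ j < m, c j ∈ K ∧ d j ∈ K) : pw c d e m ∈ K := by
  induction m with
  | zero => exact K.one_mem
  | succ m ih =>
    simp only [pw]
    exact K.mul_mem (ih fun j hj => h j (by omega))
      (K.mul_mem (h m (by omega)).1 (K.pow_mem (h m (by omega)).2 _))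

/-- The coordinate of `b_k`. -/
def cB (hg : 0 < g) (k : ℕ) : Fin g ⊕ Fin g := Sum.inr ⟨k % g, Nat.mod_lt _ hg⟩

theorem cB_of_lt (hg : 0 < g) {k : ℕ} (hk : k < g) : cB hg k = Sum.inr ⟨k, hk⟩ := by
  unfold cB
  simp only [Nat.mod_eq_of_lt hk]

theorem im_cB {G : Type} [Group G] (ρ : SG g n →* G) (hg : 0 < g) {k : ℕ} (hk : k < g) :
    im ρ (cB hg k) = ρ (sb k) := by
  rw [cB_of_lt hg hk]
  rfl

theorem cB_inj (hg : 0 < g) {k l : ℕ} (hk : k < g) (hl : l < g) (h : cB hg k = cB hg l) : k = l := by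
  rw [cB_of_lt hg hk, cB_of_lt hg hl] at h
  simpa using h

theorem cA_ne_cB (hg : 0 < g) (k l : ℕ) : cA hg k ≠ cB hg l := by
  simp [cA, cB]

theorem rng {G X : Type} [Group G] [Fintype G] [DecidableEq G] [MulAction G X] (p : X) (ε : ℝ)
    (hP : FewMiss ε G p) (s : ℕ) (h : s + 7 ≤ g) :
    ∃ A : Finset (Fin g ⊕ Fin g → G), (A.card : ℝ) ≤ 2 * ε * (Fintype.card G : ℝ) ^ (2 * g) ∧
      (∀ ρ : SG g n →* G, im ρ ∉ A → ∃ T : PMod g n, SuppI T s (s + 7) ∧
        ρ (T.1 (sa s)) • p = p ∧ ρ (T.1 (sb s)) • p = p) ∧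
      ∀ u u' : Fin g ⊕ Fin g → G, (∀ i : Fin g, s ≤ i.val → i.val < s + 7 →
        u (Sum.inl i) = u' (Sum.inl i) ∧ u (Sum.inr i) = u' (Sum.inr i)) → (u ∈ A ↔ u' ∈ A) := by
  classical
  have hg : 0 < g := by omega
  choose T1 hT1 hT1s using fun e : ℕ → ℕ => moveA (g := g) (n := n) s (s + 1) (by omega) e 3 (by omega)
  choose T2 hT2 hT2b hT2s using fun e : ℕ → ℕ =>
    moveB (g := g) (n := n) s (s + 4) (by omega) e 3 (by omega)
  have hw : ∀ e, (T1 e).1 (sb s) ∈ (Wi s (s + 1 + 3) : Subgroup (SG g n)) := fun e =>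
    ((hT1s e).2.2 s le_rfl (by omega)).2
  choose φ hφ1 hφ2 using fun e : ℕ → ℕ => word (G := G) s (s + 1 + 3) (by omega) _ (hw e)
  let P1 : (Fin g ⊕ Fin g → G) → (ℕ → ℕ) → Prop := fun u e =>
    pw (fun j => u (cA hg (s + 1 + j))) (fun j => u (cB hg (s + 1 + j))) e 3 • p =
      (u (cA hg s))⁻¹ • p
  let F : (Fin g ⊕ Fin g → G) → (ℕ → ℕ) := fun u => if h : ∃ e, P1 u e then h.choose else fun _ => 0
  have hF : ∀ u, (∃ e, P1 u e) → P1 u (F u) := by
    intro u hu
    simp only [F, dif_pos hu]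
    exact hu.choose_spec
  have hFc : ∀ u u' : Fin g ⊕ Fin g → G, P1 u = P1 u' → F u = F u' := by
    intro u u' huu
    simp only [F, huu]
  let A1 : Finset (Fin g ⊕ Fin g → G) := univ.filter fun u => ∀ e : ℕ → ℕ,
    pw (fun j => u (cA hg (s + 1 + j))) (fun j => u (cB hg (s + 1 + j))) e 3 • p ≠
      (u (cA hg s))⁻¹ • p
  let A2 : Finset (Fin g ⊕ Fin g → G) := univ.filter fun u => ∀ e : ℕ → ℕ,
    pw (fun j => u (cA hg (s + 4 + j))) (fun j => u (cB hg (s + 4 + j))) e 3 • p ≠ φ (F u) u • p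
  have hcard : Fintype.card (Fin g ⊕ Fin g) = 2 * g := by
    rw [Fintype.card_sum, Fintype.card_fin]
    ring
  -- dependence on the coordinates of the first handles
  have hPc : ∀ u u' : Fin g ⊕ Fin g → G, (∀ k, s ≤ k → k < s + 4 →
      u (cA hg k) = u' (cA hg k) ∧ u (cB hg k) = u' (cB hg k)) → P1 u = P1 u' := by
    intro u u' huu
    funext e
    have e1 : pw (fun j => u (cA hg (s + 1 + j))) (fun j => u (cB hg (s + 1 + j))) e 3 =
        pw (fun j => u' (cA hg (s + 1 + j))) (fun j => u' (cB hg (s + 1 + j))) e 3 :=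
      pw_congr e 3 fun j hj => huu _ (by omega) (by omega)
    simp only [P1, e1, (huu s le_rfl (by omega)).1]
  have hβc : ∀ u u' : Fin g ⊕ Fin g → G, (∀ k, s ≤ k → k < s + 4 →
      u (cA hg k) = u' (cA hg k) ∧ u (cB hg k) = u' (cB hg k)) → φ (F u) u = φ (F u') u' := by
    intro u u' huu
    rw [hFc u u' (hPc u u' huu)]
    refine hφ2 _ _ _ fun i hi1 hi2 => ?_
    have := huu i.val hi1 (by omega)
    rwa [cA_of_lt hg i.2, cB_of_lt hg i.2] at this
  have upd : ∀ (u : Fin g ⊕ Fin g → G) (i : ℕ) (y : G), s + 4 ≤ i → i < g → ∀ k, s ≤ k → k < s + 4 →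
      (u (cA hg k) = Function.update u (cA hg i) y (cA hg k) ∧
        u (cB hg k) = Function.update u (cA hg i) y (cB hg k)) ∧
      (u (cA hg k) = Function.update u (cB hg i) y (cA hg k) ∧
        u (cB hg k) = Function.update u (cB hg i) y (cB hg k)) := by
    intro u i y hi1 hi2 k hk1 hk2
    have n1 : cA hg k ≠ cA hg i := fun h => by
      have := cA_inj hg (by omega) hi2 h
      omega
    have n2 : cB hg k ≠ cB hg i := fun h => by
      have := cB_inj hg (by omega) hi2 h
      omega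
    exact ⟨⟨(Function.update_of_ne n1 _ _).symm, (Function.update_of_ne (cA_ne_cB hg i k).symm _ _).symm⟩,
      ⟨(Function.update_of_ne (cA_ne_cB hg k i) _ _).symm, (Function.update_of_ne n2 _ _).symm⟩⟩
  have h1 : (A1.card : ℝ) ≤ ε * (Fintype.card G : ℝ) ^ (2 * g) := by
    have := fib ε G X p hP (fun j => cA hg (s + 1 + j)) (fun j => cB hg (s + 1 + j))
      (fun i hi j hj hij => by
        have := cA_inj hg (by omega) (by omega) hij
        omega)
      (fun i hi j hj hij => by
        have := cB_inj hg (by omega) (by omega) hij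
        omega)
      (fun i _ j _ => cA_ne_cB hg _ _) (fun u => (u (cA hg s))⁻¹ • p) (fun u i y hi => by
        have n1 : cA hg s ≠ cA hg (s + 1 + i) := fun h => by
          have := cA_inj hg (by omega) (by omega) h
          omega
        constructor
        · simp only [Function.update_of_ne n1]
        · simp only [Function.update_of_ne (cA_ne_cB hg s (s + 1 + i))])
    rw [hcard] at this
    refine le_trans (le_of_eq ?_) this
    rw [Nat.card_eq_fintype_card, Fintype.card_subtype]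
  have h2 : (A2.card : ℝ) ≤ ε * (Fintype.card G : ℝ) ^ (2 * g) := by
    have := fib ε G X p hP (fun j => cA hg (s + 4 + j)) (fun j => cB hg (s + 4 + j))
      (fun i hi j hj hij => by
        have := cA_inj hg (by omega) (by omega) hij
        omega)
      (fun i hi j hj hij => by
        have := cB_inj hg (by omega) (by omega) hij
        omega)
      (fun i _ j _ => cA_ne_cB hg _ _) (fun u => φ (F u) u • p) (fun u i y hi => by
        constructor
        · show φ (F (Function.update u (cA hg (s + 4 + i)) y))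
            (Function.update u (cA hg (s + 4 + i)) y) • p = φ (F u) u • p
          rw [hβc u _ fun k hk1 hk2 => (upd u (s + 4 + i) y (by omega) (by omega) k hk1 hk2).1]
        · show φ (F (Function.update u (cB hg (s + 4 + i)) y))
            (Function.update u (cB hg (s + 4 + i)) y) • p = φ (F u) u • p
          rw [hβc u _ fun k hk1 hk2 => (upd u (s + 4 + i) y (by omega) (by omega) k hk1 hk2).2])
    rw [hcard] at this
    refine le_trans (le_of_eq ?_) this
    rw [Nat.card_eq_fintype_card, Fintype.card_subtype]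
  refine ⟨A1 ∪ A2, ?_, ?_, ?_⟩
  · have h3 : ((A1 ∪ A2).card : ℝ) ≤ (A1.card : ℝ) + (A2.card : ℝ) := by
      exact_mod_cast card_union_le A1 A2
    linarith
  · intro ρ hρ
    rw [mem_union, not_or] at hρ
    obtain ⟨hρ1, hρ2⟩ := hρ
    simp only [A1, A2, mem_filter, mem_univ, true_and, not_forall, not_not] at hρ1 hρ2
    have hP := hF (im ρ) hρ1
    obtain ⟨e', he'⟩ := hρ2
    set e := F (im ρ) with he
    have ea : pw (fun j => im ρ (cA hg (s + 1 + j))) (fun j => im ρ (cB hg (s + 1 + j))) e 3 =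
        pw (fun j => ρ (sa (s + 1 + j))) (fun j => ρ (sb (s + 1 + j))) e 3 :=
      pw_congr e 3 fun j hj => ⟨im_cA ρ hg (by omega), im_cB ρ hg (by omega)⟩
    have eb : pw (fun j => im ρ (cA hg (s + 4 + j))) (fun j => im ρ (cB hg (s + 4 + j))) e' 3 =
        pw (fun j => ρ (sa (s + 4 + j))) (fun j => ρ (sb (s + 4 + j))) e' 3 :=
      pw_congr e' 3 fun j hj => ⟨im_cA ρ hg (by omega), im_cB ρ hg (by omega)⟩
    have hP3 : pw (fun j => im ρ (cA hg (s + 1 + j))) (fun j => im ρ (cB hg (s + 1 + j))) e 3 • p =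
      (im ρ (cA hg s))⁻¹ • p := hP
    rw [ea, im_cA ρ hg (by omega)] at hP3
    rw [eb, ← hφ1 e ρ] at he'
    refine ⟨T1 e * T2 e', ?_, ?_, ?_⟩
    · exact ((hT1s e).mono le_rfl (by omega)).mul ((hT2s e').mono le_rfl (by omega))
    · rw [act_mul', hT2, hT1, map_mul, map_pw, mul_smul, hP3, smul_inv_smul]
    · rw [act_mul', hT2b, map_mul, map_inv]
      have e1 : (T1 e).1 (pw (fun j => sa (s + 4 + j)) (fun j => sb (s + 4 + j)) e' 3) =
          pw (fun j => sa (s + 4 + j)) (fun j => sb (s + 4 + j)) e' 3 := by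
        refine (hT1s e).fix (r := s + 4) (s := s + 7) (Or.inr (by omega)) ?_
        refine pw_mem _ _ _ _ _ fun j hj => ⟨?_, ?_⟩
        · exact Subgroup.subset_closure ⟨_, by omega, by omega, Or.inl rfl⟩
        · exact Subgroup.subset_closure ⟨_, by omega, by omega, Or.inr rfl⟩
      rw [e1, map_mul, map_inv, map_pw, mul_smul, ← he', inv_smul_smul]
  · intro u u' huu
    have hc : ∀ k, s ≤ k → k < s + 7 → u (cA hg k) = u' (cA hg k) ∧ u (cB hg k) = u' (cB hg k) := by
      intro k hk1 hk2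
      rw [cA_of_lt hg (by omega : k < g), cB_of_lt hg (by omega : k < g)]
      exact huu ⟨k, by omega⟩ hk1 hk2
    have hc4 : ∀ k, s ≤ k → k < s + 4 → u (cA hg k) = u' (cA hg k) ∧ u (cB hg k) = u' (cB hg k) :=
      fun k hk1 hk2 => hc k hk1 (by omega)
    rw [mem_union, mem_union]
    have i1 : u ∈ A1 ↔ u' ∈ A1 := by
      have e1 : ∀ e : ℕ → ℕ, pw (fun j => u (cA hg (s + 1 + j))) (fun j => u (cB hg (s + 1 + j))) e 3 =
          pw (fun j => u' (cA hg (s + 1 + j))) (fun j => u' (cB hg (s + 1 + j))) e 3 := fun e =>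
        pw_congr e 3 fun j hj => hc _ (by omega) (by omega)
      simp only [A1, mem_filter, mem_univ, true_and, e1, (hc s le_rfl (by omega)).1]
    have i2 : u ∈ A2 ↔ u' ∈ A2 := by
      have e1 : ∀ e : ℕ → ℕ, pw (fun j => u (cA hg (s + 4 + j))) (fun j => u (cB hg (s + 4 + j))) e 3 =
          pw (fun j => u' (cA hg (s + 4 + j))) (fun j => u' (cB hg (s + 4 + j))) e 3 := fun e =>
        pw_congr e 3 fun j hj => hc _ (by omega) (by omega)
      simp only [A2, mem_filter, mem_univ, true_and, e1, hβc u u' hc4]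
    rw [i1, i2]

end Pool.Agent.RSC
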