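import Pool.Agent.RSC.Defs

/-!
# RSC module SLA: the group `SL(2, p)` and the Borel subgroup

`bor p`: lower left entry `x 1 0 = 0`.  Power formula: `x^k = u_k x - u_(k-1)`, `u_0 = 0, u_1 = 1,
u_(k+1) = t u_k - u_(k-1)`, `t` the trace (Cayley-Hamilton), so `(x^k) 1 0 = (x 1 0) u_k(t)`; `u_k` is the value at `t` of a
monic polynomial of degree `k - 1` over `ZMod p` (Polynomial.Chebyshev.S (k-1), or by recursion), so it vanishes for at most `k - 1`
values of `t`.  `{x | (x^k) 1 0 = 0} ⊆ {x 1 0 = 0} ∪ {x 1 0 ≠ 0, u_k(t) = 0}`; the second set has at most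
`(k-1) p (p-1)` elements (`x ↦ (x 0 0, x 1 0)` is injective for given trace and `x 1 0 ≠ 0`), and `bor p` has
at least `p (p-1)` elements (in fact equality), hence `≤ k |bor p|`.
-/

namespace Pool.Agent.RSC

open Matrix

/-- The Borel subgroup: lower left entry `0`. -/
def bor (p : ℕ) [Fact p.Prime] : Subgroup (SpecialLinearGroup (Fin 2) (ZMod p)) where
  carrier := {x | x.1 1 0 = 0}
  one_mem' := by simp
  mul_mem' := by
    intro a b ha hb
    simp only [Set.mem_setOf_eq] at ha hb ⊢
    simp [Matrix.mul_apply, Fin.sum_univ_two, ha, hb]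
  inv_mem' := by
    intro a ha
    simp only [Set.mem_setOf_eq] at ha ⊢
    rw [Matrix.SpecialLinearGroup.coe_inv, Matrix.adjugate_fin_two]
    simp [ha]

private lemma mem_bor {p : ℕ} [Fact p.Prime] (x : SpecialLinearGroup (Fin 2) (ZMod p)) :
    x ∈ bor p ↔ x.1 1 0 = 0 := Iff.rfl

/-- The polynomial `u_(k+1)`. -/
private noncomputable def up (p : ℕ) : ℕ → Polynomial (ZMod p)
  | 0 => 1
  | 1 => Polynomial.X
  | k + 2 => Polynomial.X * up p (k + 1) - up p k

private lemma up_monic (p : ℕ) [Fact p.Prime] (k : ℕ) :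
    (up p k).Monic ∧ (up p k).natDegree = k := by
  induction k using Nat.strong_induction_on with
  | _ k ih =>
    match k, ih with
    | 0, _ => simp [up]
    | 1, _ => simp [up]
    | k + 2, ih =>
      obtain ⟨h1, h2⟩ := ih (k + 1) (by omega)
      obtain ⟨h3, h4⟩ := ih k (by omega)
      have hm : (Polynomial.X * up p (k + 1)).Monic := Polynomial.monic_X.mul h1
      have hd : (Polynomial.X * up p (k + 1)).natDegree = k + 2 := by
        rw [Polynomial.natDegree_X_mul h1.ne_zero, h2]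
      have hlt : (up p k).natDegree < (Polynomial.X * up p (k + 1)).natDegree := by
        rw [hd, h4]; omega
      constructor
      · rw [up]
        exact hm.sub_of_left (Polynomial.degree_lt_degree hlt)
      · rw [up, Polynomial.natDegree_sub_eq_left_of_natDegree_lt hlt, hd]

private lemma pow_entry (p : ℕ) [Fact p.Prime] (x : SpecialLinearGroup (Fin 2) (ZMod p)) (k : ℕ) :
    (x ^ (k + 1)).1 1 0 = (up p k).eval (x.1 0 0 + x.1 1 1) * x.1 1 0 := by
  have hdet : x.1 0 0 * x.1 1 1 - x.1 0 1 * x.1 1 0 = 1 := by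
    have := x.2
    rwa [Matrix.det_fin_two] at this
  have hsq : x.1 * x.1 = (x.1 0 0 + x.1 1 1) • x.1 - 1 := by
    ext i j
    fin_cases i <;> fin_cases j <;>
      simp [Matrix.mul_apply, Fin.sum_univ_two] <;>
      first
        | linear_combination (0 : ZMod p) * hdet
        | linear_combination -hdet
  have hstep : ∀ n : ℕ, x.1 ^ (n + 2) = (x.1 0 0 + x.1 1 1) • x.1 ^ (n + 1) - x.1 ^ n := by
    intro n
    rw [show x.1 ^ (n + 2) = x.1 ^ n * (x.1 * x.1) by rw [pow_add, pow_two], hsq, mul_sub, mul_one,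
      Matrix.mul_smul, pow_succ]
  induction k using Nat.strong_induction_on with
  | _ k ih =>
    match k, ih with
    | 0, _ => simp [up]
    | 1, _ =>
      have h := hstep 0
      have : (x ^ (1 + 1)).1 = x.1 ^ (0 + 2) := by simp
      rw [this, h]
      simp [up]
    | k + 2, ih =>
      have h1 := ih (k + 1) (by omega)
      have h2 := ih k (by omega)
      have e : ∀ n : ℕ, (x ^ n).1 = x.1 ^ n := fun n => by simp
      rw [e] at h1 h2 ⊢
      rw [show k + 2 + 1 = (k + 1) + 2 by omega, hstep (k + 1), Matrix.sub_apply, Matrix.smul_apply, h1,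
        h2, up, Polynomial.eval_sub, Polynomial.eval_mul, Polynomial.eval_X, smul_eq_mul]
      ring

private lemma entry_ext {p : ℕ} [Fact p.Prime] {x y : SpecialLinearGroup (Fin 2) (ZMod p)}
    (h00 : x.1 0 0 = y.1 0 0) (h10 : x.1 1 0 = y.1 1 0) (hx : x.1 1 0 ≠ 0)
    (ht : x.1 0 0 + x.1 1 1 = y.1 0 0 + y.1 1 1) : x = y := by
  have h11 : x.1 1 1 = y.1 1 1 := by
    rw [h00] at ht
    exact add_left_cancel ht
  have hdx : x.1 0 0 * x.1 1 1 - x.1 0 1 * x.1 1 0 = 1 := by
    have := x.2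
    rwa [Matrix.det_fin_two] at this
  have hdy : y.1 0 0 * y.1 1 1 - y.1 0 1 * y.1 1 0 = 1 := by
    have := y.2
    rwa [Matrix.det_fin_two] at this
  have h01 : x.1 0 1 = y.1 0 1 := by
    apply mul_right_cancel₀ hx
    rw [← h00, ← h11, ← h10] at hdy
    linear_combination hdy - hdx
  apply Subtype.ext
  ext i j
  fin_cases i <;> fin_cases j
  · exact h00
  · exact h01
  · exact h10
  · exact h11

private lemma card_pair_le (p : ℕ) [Fact p.Prime] :
    Nat.card (ZMod p × {c : ZMod p // c ≠ 0}) ≤ Nat.card (bor p) := by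
  refine Nat.card_le_card_of_injective
    (fun z => (⟨⟨!![z.2.1, z.1; 0, z.2.1⁻¹], ?_⟩, ?_⟩ : bor p)) ?_
  · rw [Matrix.det_fin_two]
    simp [z.2.2]
  · rw [mem_bor]
    simp
  · intro z w h
    have h' := congrArg (fun q : bor p => q.1.1) h
    simp only at h'
    have h0 := congrFun (congrFun h' 0) 0
    have h1 := congrFun (congrFun h' 0) 1
    simp at h0 h1
    exact Prod.ext h1 (Subtype.ext h0)

theorem pow_count (p : ℕ) [Fact p.Prime] (k : ℕ) (hk : 1 ≤ k) :
    Nat.card {x : SpecialLinearGroup (Fin 2) (ZMod p) // x ^ k ∈ bor p} ≤ k * Nat.card (bor p) := by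
  classical
  obtain ⟨j, rfl⟩ : ∃ j, k = j + 1 := ⟨k - 1, by omega⟩
  let R : Finset (ZMod p) := (up p j).roots.toFinset
  have hR : Nat.card R ≤ j := by
    rw [Nat.card_eq_fintype_card, Fintype.card_coe]
    calc R.card ≤ Multiset.card (up p j).roots := Multiset.toFinset_card_le _
      _ ≤ (up p j).natDegree := Polynomial.card_roots' _
      _ = j := (up_monic p j).2
  have key : ∀ x : {x : SpecialLinearGroup (Fin 2) (ZMod p) // x ^ (j + 1) ∈ bor p},
      x.1.1 1 0 ≠ 0 → x.1.1 0 0 + x.1.1 1 1 ∈ R := by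
    intro x hx
    have h := x.2
    rw [mem_bor, pow_entry] at h
    have h' := (mul_eq_zero.1 h).resolve_right hx
    rw [Multiset.mem_toFinset, Polynomial.mem_roots (up_monic p j).1.ne_zero]
    exact h'
  let f : {x : SpecialLinearGroup (Fin 2) (ZMod p) // x ^ (j + 1) ∈ bor p} →
      bor p ⊕ (R × (ZMod p × {c : ZMod p // c ≠ 0})) := fun x =>
    if h : x.1.1 1 0 = 0 then Sum.inl ⟨x.1, h⟩
    else Sum.inr (⟨x.1.1 0 0 + x.1.1 1 1, key x h⟩, (x.1.1 0 0, ⟨x.1.1 1 0, h⟩))
  have hf : Function.Injective f := by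
    intro x y hxy
    by_cases hx : x.1.1 1 0 = 0 <;> by_cases hy : y.1.1 1 0 = 0
    · simp only [f, hx, hy, dif_pos, Sum.inl.injEq, Subtype.mk.injEq] at hxy
      exact Subtype.ext hxy
    · simp [f, hx, hy] at hxy
    · simp [f, hx, hy] at hxy
    · simp only [f, hx, hy, dif_neg, not_false_eq_true, Sum.inr.injEq, Prod.mk.injEq,
        Subtype.mk.injEq] at hxy
      exact Subtype.ext (entry_ext hxy.2.1 hxy.2.2 hx hxy.1)
  have h1 := Nat.card_le_card_of_injective f hf
  rw [Nat.card_sum, Nat.card_prod] at h1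
  have h2 := card_pair_le p
  calc Nat.card {x : SpecialLinearGroup (Fin 2) (ZMod p) // x ^ (j + 1) ∈ bor p}
      ≤ Nat.card (bor p) + Nat.card R * Nat.card (ZMod p × {c : ZMod p // c ≠ 0}) := h1
    _ ≤ Nat.card (bor p) + j * Nat.card (bor p) := by
        gcongr
    _ = (j + 1) * Nat.card (bor p) := by ring

end Pool.Agent.RSC
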