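import Pool.Agent.RSC.Defs

/-!
# RSC module STA: first step

If `|orb y {v}| < K` then `y^k v = v` for some `1 ≤ k < K` (two of the points `y^i v`, `i < K`, are equal by the pigeonhole
principle); sum over `k` (`Nice.2`).
-/

namespace Pool.Agent.RSC

open Finset

variable {G X : Type} [Group G] [Fintype G] [DecidableEq G] [MulAction G X] [Fintype X] [DecidableEq X]

omit [Fintype G] [DecidableEq G] [DecidableEq X] in
private theorem sta_return (v : X) (K : ℕ) (y : G) (hy : (orb y {v}).card < K) :
    ∃ k ∈ Icc 1 (K - 1), y ^ k • v = v := by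
  classical
  have h1 : ∀ i ∈ range K, y ^ i • v ∈ orb y {v} := by
    intro i _
    unfold orb
    exact mem_filter.2 ⟨mem_univ _, i, v, mem_singleton_self v, rfl⟩
  obtain ⟨i, hi, j, hj, hij, he⟩ :=
    exists_ne_map_eq_of_card_lt_of_maps_to (by rw [card_range]; exact hy) h1
  rw [mem_range] at hi hj
  have key : ∀ i j : ℕ, i < j → j < K → y ^ i • v = y ^ j • v →
      ∃ k ∈ Icc 1 (K - 1), y ^ k • v = v := by
    intro i j hij hj he
    refine ⟨j - i, mem_Icc.2 ⟨by omega, by omega⟩, ?_⟩
    have h2 : y ^ j = y ^ i * y ^ (j - i) := by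
      rw [← pow_add]
      congr 1
      omega
    rw [h2, mul_smul] at he
    exact (MulAction.injective (y ^ i) he).symm
  rcases lt_or_gt_of_ne hij with h | h
  · exact key i j h hj he
  · exact key j i h hi he.symm

theorem start (h : Nice G X) (v : X) (K : ℕ) :
    ((univ.filter fun y : G => (orb y {v}).card < K).card : ℝ) * Fintype.card X ≤
      (K : ℝ) ^ 2 * Fintype.card G := by
  classical
  have h1 : (univ.filter fun y : G => (orb y {v}).card < K) ⊆
      (Icc 1 (K - 1)).biUnion fun k => univ.filter fun y : G => y ^ k • v = v := by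
    intro y hy
    obtain ⟨k, hk, hk2⟩ := sta_return v K y (mem_filter.1 hy).2
    exact mem_biUnion.2 ⟨k, hk, mem_filter.2 ⟨mem_univ _, hk2⟩⟩
  have h2 := (card_le_card h1).trans card_biUnion_le
  have h3 : ∀ k ∈ Icc 1 (K - 1), (univ.filter fun y : G => y ^ k • v = v).card * Fintype.card X ≤
      K * Fintype.card G := by
    intro k hk
    rw [mem_Icc] at hk
    have h4 := h.2 k v hk.1
    rw [Nat.card_eq_fintype_card, Nat.card_eq_fintype_card, Nat.card_eq_fintype_card,
      Fintype.card_subtype] at h4
    exact h4.trans (Nat.mul_le_mul_right _ (by omega))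
  have h4 : (univ.filter fun y : G => (orb y {v}).card < K).card * Fintype.card X ≤
      K ^ 2 * Fintype.card G := by
    calc (univ.filter fun y : G => (orb y {v}).card < K).card * Fintype.card X
        ≤ (∑ k ∈ Icc 1 (K - 1), (univ.filter fun y : G => y ^ k • v = v).card) *
            Fintype.card X := Nat.mul_le_mul_right _ h2
      _ = ∑ k ∈ Icc 1 (K - 1), (univ.filter fun y : G => y ^ k • v = v).card *
            Fintype.card X := sum_mul _ _ _
      _ ≤ ∑ _k ∈ Icc 1 (K - 1), K * Fintype.card G := sum_le_sum h3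
      _ = (K - 1) * (K * Fintype.card G) := by
          rw [sum_const, Nat.card_Icc, smul_eq_mul]
          congr 1
      _ ≤ K * (K * Fintype.card G) := Nat.mul_le_mul_right _ (by omega)
      _ = K ^ 2 * Fintype.card G := by ring
  exact_mod_cast h4

end Pool.Agent.RSC
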