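import Mathlib

/-! Number of matrices `z` in `SL(2, p)` with `tr (z m) = 0` (helper45). -/

set_option autoImplicit false

namespace Pool.Agent.RSC

open Matrix

private theorem tr_aux (p : ℕ) [Fact p.Prime] (m : Matrix (Fin 2) (Fin 2) (ZMod p))
    (hm : m 0 1 ≠ 0) :
    Nat.card {z : SpecialLinearGroup (Fin 2) (ZMod p) // (z.1 * m).trace = 0} ≤
      p ^ 2 + 2 * p := by
  classical
  have : NeZero p := ⟨(Fact.out : p.Prime).ne_zero⟩
  let κ : ZMod p := (m 1 0 - m 0 0 * m 1 1 / m 0 1) / m 0 1
  let b0 : ZMod p := if h : ∃ b, κ * b ^ 2 = 1 then h.choose else 0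
  have hb0 : ∀ b, κ * b ^ 2 = 1 → b = b0 ∨ b = -b0 := by
    intro b hb
    have hex : ∃ b, κ * b ^ 2 = 1 := ⟨b, hb⟩
    have e1 : κ * b0 ^ 2 = 1 := by
      have : b0 = hex.choose := dif_pos hex
      rw [this]; exact hex.choose_spec
    have hκ : κ ≠ 0 := by
      intro h; rw [h, zero_mul] at hb; exact zero_ne_one hb
    have e2 : b ^ 2 = b0 ^ 2 := mul_left_cancel₀ hκ (hb.trans e1.symm)
    exact sq_eq_sq_iff_eq_or_eq_neg.1 e2
  have hlin : ∀ z : {z : SpecialLinearGroup (Fin 2) (ZMod p) // (z.1 * m).trace = 0},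
      z.1.1 0 0 * m 0 0 + z.1.1 0 1 * m 1 0 + z.1.1 1 0 * m 0 1 + z.1.1 1 1 * m 1 1 = 0 := by
    intro z
    have h := z.2
    rw [Matrix.trace_fin_two, Matrix.mul_apply, Matrix.mul_apply, Fin.sum_univ_two,
      Fin.sum_univ_two] at h
    linear_combination h
  have hdet : ∀ z : {z : SpecialLinearGroup (Fin 2) (ZMod p) // (z.1 * m).trace = 0},
      z.1.1 0 0 * z.1.1 1 1 - z.1.1 0 1 * z.1.1 1 0 = 1 := by
    intro z
    have h := z.1.2
    rwa [Matrix.det_fin_two] at h
  let f : {z : SpecialLinearGroup (Fin 2) (ZMod p) // (z.1 * m).trace = 0} →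
      (ZMod p × ZMod p) ⊕ (Bool × ZMod p) := fun z =>
    if z.1.1 0 0 * m 0 1 + z.1.1 0 1 * m 1 1 = 0 then
      Sum.inr (decide (z.1.1 0 1 = b0), z.1.1 1 1)
    else Sum.inl (z.1.1 0 0, z.1.1 0 1)
  have hf : Function.Injective f := by
    intro z z' hzz
    have l1 := hlin z
    have l2 := hlin z'
    have d1 := hdet z
    have d2 := hdet z'
    have key : z.1.1 0 0 = z'.1.1 0 0 → z.1.1 0 1 = z'.1.1 0 1 → z.1.1 1 1 = z'.1.1 1 1 →
        z = z' := by
      intro h1 h2 h3
      have h4 : z.1.1 1 0 = z'.1.1 1 0 := by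
        apply mul_right_cancel₀ hm
        rw [h1, h2, h3] at l1
        linear_combination l1 - l2
      apply Subtype.ext
      apply Subtype.ext
      ext i j
      fin_cases i <;> fin_cases j
      · exact h1
      · exact h2
      · exact h4
      · exact h3
    by_cases c1 : z.1.1 0 0 * m 0 1 + z.1.1 0 1 * m 1 1 = 0
    · by_cases c2 : z'.1.1 0 0 * m 0 1 + z'.1.1 0 1 * m 1 1 = 0
      · have e : (Sum.inr (decide (z.1.1 0 1 = b0), z.1.1 1 1) :
            (ZMod p × ZMod p) ⊕ (Bool × ZMod p)) =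
            Sum.inr (decide (z'.1.1 0 1 = b0), z'.1.1 1 1) := by
          have := hzz
          simp only [f, if_pos c1, if_pos c2] at this
          exact this
        have e1 := Sum.inr_injective e
        rw [Prod.mk.injEq] at e1
        obtain ⟨e2, e3⟩ := e1
        have e4 : (z.1.1 0 1 = b0) ↔ (z'.1.1 0 1 = b0) := decide_eq_decide.1 e2
        have q : ∀ z : {z : SpecialLinearGroup (Fin 2) (ZMod p) // (z.1 * m).trace = 0},
            z.1.1 0 0 * m 0 1 + z.1.1 0 1 * m 1 1 = 0 → κ * z.1.1 0 1 ^ 2 = 1 := by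
          intro z c1
          have l1 := hlin z
          have d1 := hdet z
          have h : (m 1 0 * m 0 1 - m 0 0 * m 1 1) * z.1.1 0 1 ^ 2 = m 0 1 ^ 2 := by
            linear_combination m 0 1 ^ 2 * d1 + z.1.1 0 1 * m 0 1 * l1 -
              (z.1.1 0 1 * m 0 0 + z.1.1 1 1 * m 0 1) * c1
          have e : κ = (m 1 0 * m 0 1 - m 0 0 * m 1 1) / m 0 1 ^ 2 := by
            show (m 1 0 - m 0 0 * m 1 1 / m 0 1) / m 0 1 = _
            field_simp
          rw [e, div_mul_eq_mul_div, h, div_self (pow_ne_zero 2 hm)]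
        have q1 := hb0 _ (q z c1)
        have q2 := hb0 _ (q z' c2)
        have hb : z.1.1 0 1 = z'.1.1 0 1 := by
          by_cases h : z.1.1 0 1 = b0
          · rw [h, e4.1 h]
          · have h' : ¬ z'.1.1 0 1 = b0 := fun h' => h (e4.2 h')
            rw [q1.resolve_left h, q2.resolve_left h']
        have ha : z.1.1 0 0 = z'.1.1 0 0 := by
          apply mul_right_cancel₀ hm
          rw [hb] at c1
          linear_combination c1 - c2
        exact key ha hb e3
      · exfalso
        have := hzz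
        simp only [f, if_pos c1, if_neg c2] at this
        exact absurd this (by simp)
    · by_cases c2 : z'.1.1 0 0 * m 0 1 + z'.1.1 0 1 * m 1 1 = 0
      · exfalso
        have := hzz
        simp only [f, if_neg c1, if_pos c2] at this
        exact absurd this (by simp)
      · have e : (Sum.inl (z.1.1 0 0, z.1.1 0 1) :
            (ZMod p × ZMod p) ⊕ (Bool × ZMod p)) =
            Sum.inl (z'.1.1 0 0, z'.1.1 0 1) := by
          have := hzz
          simp only [f, if_neg c1, if_neg c2] at this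
          exact this
        have e1 := Sum.inl_injective e
        rw [Prod.mk.injEq] at e1
        obtain ⟨e2, e3⟩ := e1
        refine key e2 e3 ?_
        apply mul_left_cancel₀ c1
        rw [← e2, ← e3] at l2 d2
        linear_combination m 0 1 * d1 - m 0 1 * d2 + z.1.1 0 1 * l1 - z.1.1 0 1 * l2
  have h1 := Nat.card_le_card_of_injective f hf
  refine h1.trans ?_
  rw [Nat.card_eq_fintype_card, Fintype.card_sum, Fintype.card_prod, Fintype.card_prod,
    ZMod.card, Fintype.card_bool]
  apply le_of_eq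
  ring

/-- module Z1: at most `p^2 + 2p` matrices `z` in `SL(2,p)` have `tr (z m) = 0`, if `m ≠ 0` -/
theorem tr_count (p : ℕ) [Fact p.Prime] (m : Matrix (Fin 2) (Fin 2) (ZMod p)) (hm : m ≠ 0) :
    Nat.card {z : SpecialLinearGroup (Fin 2) (ZMod p) // (z.1 * m).trace = 0} ≤
      p ^ 2 + 2 * p := by
  classical
  have red : ∀ g1 g2 : SpecialLinearGroup (Fin 2) (ZMod p), (g1.1 * m * g2.1) 0 1 ≠ 0 →
      Nat.card {z : SpecialLinearGroup (Fin 2) (ZMod p) // (z.1 * m).trace = 0} ≤
        p ^ 2 + 2 * p := by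
    intro g1 g2 h
    refine le_trans (le_of_eq ?_) (tr_aux p _ h)
    refine Nat.card_congr
      { toFun := fun z => ⟨g2⁻¹ * z.1 * g1⁻¹, ?_⟩
        invFun := fun z => ⟨g2 * z.1 * g1, ?_⟩
        left_inv := fun z => Subtype.ext (by group)
        right_inv := fun z => Subtype.ext (by group) }
    · have hz := z.2
      have e1 : (g1⁻¹ : SpecialLinearGroup (Fin 2) (ZMod p)).1 * g1.1 = 1 := by
        have := congrArg Subtype.val (inv_mul_cancel g1)
        exact this
      have e2 : g2.1 * (g2⁻¹ : SpecialLinearGroup (Fin 2) (ZMod p)).1 = 1 := by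
        have := congrArg Subtype.val (mul_inv_cancel g2)
        exact this
      show ((g2⁻¹ : SpecialLinearGroup (Fin 2) (ZMod p)).1 * z.1.1 *
        (g1⁻¹ : SpecialLinearGroup (Fin 2) (ZMod p)).1 * (g1.1 * m * g2.1)).trace = 0
      have e3 : (g2⁻¹ : SpecialLinearGroup (Fin 2) (ZMod p)).1 * z.1.1 *
          (g1⁻¹ : SpecialLinearGroup (Fin 2) (ZMod p)).1 * (g1.1 * m * g2.1) =
          (g2⁻¹ : SpecialLinearGroup (Fin 2) (ZMod p)).1 * (z.1.1 *
            ((g1⁻¹ : SpecialLinearGroup (Fin 2) (ZMod p)).1 * g1.1) * m * g2.1) := by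
        simp only [Matrix.mul_assoc]
      rw [e3, Matrix.trace_mul_comm, e1, Matrix.mul_one, Matrix.mul_assoc, e2, Matrix.mul_one]
      exact hz
    · have hz := z.2
      show (g2.1 * z.1.1 * g1.1 * m).trace = 0
      have e3 : g2.1 * z.1.1 * g1.1 * m = g2.1 * (z.1.1 * g1.1 * m) := by
        simp only [Matrix.mul_assoc]
      rw [e3, Matrix.trace_mul_comm]
      have e4 : z.1.1 * g1.1 * m * g2.1 = z.1.1 * (g1.1 * m * g2.1) := by
        simp only [Matrix.mul_assoc]
      rw [e4]
      exact hz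
  let W : SpecialLinearGroup (Fin 2) (ZMod p) :=
    ⟨!![0, 1; -1, 0], by rw [Matrix.det_fin_two_of]; ring⟩
  have hW : W.1 = !![0, 1; -1, 0] := rfl
  by_cases h01 : m 0 1 = 0
  · by_cases h00 : m 0 0 = 0
    · by_cases h11 : m 1 1 = 0
      · have h10 : m 1 0 ≠ 0 := by
          intro h10
          apply hm
          ext i j
          fin_cases i <;> fin_cases j
          · exact h00
          · exact h01
          · exact h10
          · exact h11
        apply red W W
        rw [hW]
        simp only [Matrix.mul_apply, Fin.sum_univ_two]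
        simp [h10]
      · apply red W 1
        rw [hW]
        simp only [Matrix.mul_apply, Fin.sum_univ_two]
        simp [h11]
    · apply red 1 W
      rw [hW]
      simp only [Matrix.mul_apply, Fin.sum_univ_two]
      simp [h00]
  · exact tr_aux p m h01

end Pool.Agent.RSC
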